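import Pool.Agent.H581.RA.Defs

/-! Basic facts on bimodules: the identities, Schur's lemma. -/

namespace Pool.Agent.H581.RA

universe u v w

variable {F : Type u} [Field F]

namespace Bimodule

lemma ra_iff (M : Bimodule.{u, v} F) : M.IsRightAlternative ↔
    (∀ (m : M.carrier) (b : Mat2 F), M.right (M.right m b) b = M.right m (b * b)) ∧
    (∀ (a b : Mat2 F) (m : M.carrier), M.right (M.left a m) b =
      M.left a (M.left b m + M.right m b) - M.left (a * b) m) := by
  constructor
  · intro h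
    constructor
    · intro m b
      have := congrArg Prod.snd (h (0, m) (b, 0))
      simpa [nullMul] using this
    · intro a b m
      have := congrArg Prod.snd (h (a, 0) (b, m))
      simp only [nullMul, map_zero, LinearMap.zero_apply, add_zero] at this
      rw [eq_sub_iff_add_eq, add_comm]
      exact this
  · rintro ⟨h1, h2⟩ ⟨a, m⟩ ⟨b, n⟩
    refine Prod.ext (mul_assoc _ _ _) ?_
    simp only [nullMul, map_add, LinearMap.add_apply, h1, h2]
    abel

/-- A linear map commuting with both actions. -/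
def IsHom (M : Bimodule.{u, v} F) (M' : Bimodule.{u, w} F) (φ : M.carrier →ₗ[F] M'.carrier) :
    Prop :=
  (∀ (a : Mat2 F) (m : M.carrier), φ (M.left a m) = M'.left a (φ m)) ∧
  (∀ (m : M.carrier) (a : Mat2 F), φ (M.right m a) = M'.right (φ m) a)

/-- Schur's lemma. -/
lemma schur {M : Bimodule.{u, v} F} {M' : Bimodule.{u, w} F} (hM : M.IsIrreducible)
    (hM' : M'.IsIrreducible) (φ : M.carrier →ₗ[F] M'.carrier) (h : IsHom M M' φ) (h0 : φ ≠ 0) :
    M.Iso M' := by
  have hk : LinearMap.ker φ = ⊥ := by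
    rcases hM.2 (LinearMap.ker φ) (by
      intro a m hm
      rw [LinearMap.mem_ker] at hm
      refine ⟨?_, ?_⟩
      · rw [LinearMap.mem_ker, h.1, hm, map_zero]
      · rw [LinearMap.mem_ker, h.2, hm, map_zero, LinearMap.zero_apply]) with h1 | h1
    · exact h1
    · exact absurd (LinearMap.ker_eq_top.mp h1) h0
  have hr : LinearMap.range φ = ⊤ := by
    rcases hM'.2 (LinearMap.range φ) (by
      rintro a _ ⟨m, rfl⟩
      exact ⟨⟨M.left a m, h.1 a m⟩, ⟨M.right m a, h.2 m a⟩⟩) with h1 | h1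
    · exact absurd (LinearMap.range_eq_bot.mp h1) h0
    · exact h1
  refine ⟨LinearEquiv.ofBijective φ ⟨LinearMap.ker_eq_bot.mp hk, LinearMap.range_eq_top.mp hr⟩,
    fun a m => h.1 a m, fun m a => h.2 m a⟩

lemma Iso.symm {M : Bimodule.{u, v} F} {M' : Bimodule.{u, w} F} (h : M.Iso M') : M'.Iso M := by
  obtain ⟨φ, h1, h2⟩ := h
  refine ⟨φ.symm, fun a m => ?_, fun m a => ?_⟩
  · rw [LinearEquiv.symm_apply_eq, h1, LinearEquiv.apply_symm_apply]
  · rw [LinearEquiv.symm_apply_eq, h2, LinearEquiv.apply_symm_apply]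

end Bimodule

/-- the matrix unit `e₁₂` -/
def mE (F : Type u) [Field F] : Mat2 F := !![0, 1; 0, 0]
/-- the matrix unit `e₂₁` -/
def mF (F : Type u) [Field F] : Mat2 F := !![0, 0; 1, 0]
/-- the matrix `e₁₁ - e₂₂` -/
def mH (F : Type u) [Field F] : Mat2 F := !![1, 0; 0, -1]

end Pool.Agent.H581.RA
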