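import Pool.Agent.H581.RA.Stmt

/-!
Right alternative bimodules over the algebra of 2 by 2 matrices: definitions, the five exceptional
irreducible bimodules, and the bimodule `N(Y)` attached to a vector space `Y` with a linear map
`h : Mat2 F → End Y`, `h 1 = 1`, and an idempotent `e`.
-/

namespace Pool.Agent.H581.RA

universe u v w

namespace Bimodule

variable {F : Type u} [Field F]

/-- Multiplication of the split null extension, whose underlying space is `Mat2 F × M`. -/
def nullMul (M : Bimodule.{u, v} F) (x y : Mat2 F × M.carrier) : Mat2 F × M.carrier :=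
  (x.1 * y.1, M.left x.1 y.2 + M.right x.2 y.1)

/-- The bimodule is right alternative: its split null extension satisfies `(xy)y = x(yy)`. -/
def IsRightAlternative (M : Bimodule.{u, v} F) : Prop :=
  ∀ x y : Mat2 F × M.carrier, M.nullMul (M.nullMul x y) y = M.nullMul x (M.nullMul y y)

/-- A subspace stable under both actions. -/
def IsSubBimodule (M : Bimodule.{u, v} F) (N : Submodule F M.carrier) : Prop :=
  ∀ (a : Mat2 F), ∀ m ∈ N, M.left a m ∈ N ∧ M.right m a ∈ N

/-- The bimodule is nonzero and its only sub-bimodules are zero and itself. -/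
def IsIrreducible (M : Bimodule.{u, v} F) : Prop :=
  Nontrivial M.carrier ∧ ∀ N : Submodule F M.carrier, M.IsSubBimodule N → N = ⊥ ∨ N = ⊤

/-- Isomorphism of bimodules: a linear bijection commuting with both actions. -/
def Iso (M : Bimodule.{u, v} F) (M' : Bimodule.{u, w} F) : Prop :=
  ∃ φ : M.carrier ≃ₗ[F] M'.carrier,
    (∀ (a : Mat2 F) (m : M.carrier), φ (M.left a m) = M'.left a (φ m)) ∧
    (∀ (m : M.carrier) (a : Mat2 F), φ (M.right m a) = M'.right (φ m) a)

/-- The left action on a sub-bimodule. -/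
def subL (M : Bimodule.{u, v} F) (N : Submodule F M.carrier) (hN : M.IsSubBimodule N)
    (a : Mat2 F) (m : N) : N := ⟨M.left a m.1, (hN a m.1 m.2).1⟩

/-- The right action on a sub-bimodule. -/
def subR (M : Bimodule.{u, v} F) (N : Submodule F M.carrier) (hN : M.IsSubBimodule N)
    (m : N) (a : Mat2 F) : N := ⟨M.right m.1 a, (hN a m.1 m.2).2⟩

section subproofs

variable (M : Bimodule.{u, v} F) (N : Submodule F M.carrier) (hN : M.IsSubBimodule N)

lemma subL1 (a b : Mat2 F) (m : N) : subL M N hN (a + b) m = subL M N hN a m + subL M N hN b m := by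
  ext; simp [subL]
lemma subL2 (c : F) (a : Mat2 F) (m : N) : subL M N hN (c • a) m = c • subL M N hN a m := by
  ext; simp [subL]
lemma subL3 (a : Mat2 F) (m n : N) : subL M N hN a (m + n) = subL M N hN a m + subL M N hN a n := by
  ext; simp [subL]
lemma subL4 (c : F) (a : Mat2 F) (m : N) : subL M N hN a (c • m) = c • subL M N hN a m := by
  ext; simp [subL]
lemma subR1 (m n : N) (a : Mat2 F) : subR M N hN (m + n) a = subR M N hN m a + subR M N hN n a := by
  ext; simp [subR]
lemma subR2 (c : F) (m : N) (a : Mat2 F) : subR M N hN (c • m) a = c • subR M N hN m a := by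
  ext; simp [subR]
lemma subR3 (m : N) (a b : Mat2 F) : subR M N hN m (a + b) = subR M N hN m a + subR M N hN m b := by
  ext; simp [subR]
lemma subR4 (c : F) (m : N) (a : Mat2 F) : subR M N hN m (c • a) = c • subR M N hN m a := by
  ext; simp [subR]

end subproofs

/-- A sub-bimodule, as a bimodule. -/
def sub (M : Bimodule.{u, v} F) (N : Submodule F M.carrier) (hN : M.IsSubBimodule N) :
    Bimodule.{u, v} F where
  carrier := N
  left := LinearMap.mk₂ F (subL M N hN) (subL1 M N hN) (subL2 M N hN) (subL3 M N hN) (subL4 M N hN)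
  right := LinearMap.mk₂ F (subR M N hN) (subR1 M N hN) (subR2 M N hN) (subR3 M N hN) (subR4 M N hN)

/-- The sub-bimodule generated by a set: the intersection of all sub-bimodules which contain it. -/
def gen (M : Bimodule.{u, v} F) (S : Set M.carrier) : Submodule F M.carrier :=
  sInf {N | M.IsSubBimodule N ∧ S ⊆ N}

lemma gen_isSub (M : Bimodule.{u, v} F) (S : Set M.carrier) : M.IsSubBimodule (M.gen S) := by
  intro a m hm
  simp only [gen, Submodule.mem_sInf, Set.mem_ofPred_eq] at hm ⊢
  exact ⟨fun N hN => (hN.1 a m (hm N hN)).1, fun N hN => (hN.1 a m (hm N hN)).2⟩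

end Bimodule

namespace Quad

variable {F : Type u} [Field F]

/-- Irreducibility: nonzero, and no subspaces stable under all `h a` and `e` except zero and the
whole space. -/
def IsIrreducible (Y : Quad.{u, v} F) : Prop :=
  Nontrivial Y.carrier ∧ ∀ N : Submodule F Y.carrier,
    (∀ y ∈ N, (∀ a, Y.h a y ∈ N) ∧ Y.e y ∈ N) → N = ⊥ ∨ N = ⊤

/-- Isomorphism: a linear bijection commuting with all `h a` and with `e`. -/
def Iso (Y : Quad.{u, v} F) (Y' : Quad.{u, w} F) : Prop :=
  ∃ φ : Y.carrier ≃ₗ[F] Y'.carrier,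
    ∀ y, (∀ a, φ (Y.h a y) = Y'.h a (φ y)) ∧ φ (Y.e y) = Y'.e (φ y)

end Quad

section Nhat

variable {F : Type u} [Field F]

/-- The conjugate (adjugate) `tr a - a` of a 2 by 2 matrix. -/
def bar (a : Mat2 F) : Mat2 F := a.trace • 1 - a

variable (Y : Quad.{u, v} F)

/-- `(rt b g)(a) = g (a b)`. -/
def rt (b : Mat2 F) (g : Mat2 F →ₗ[F] Y.carrier) : Mat2 F →ₗ[F] Y.carrier :=
  g ∘ₗ LinearMap.mulRight F b

/-- `(lt b g)(a) = g ((tr b - b) a) - h (a b - b a) (g 1)`. -/
def lt (b : Mat2 F) (g : Mat2 F →ₗ[F] Y.carrier) : Mat2 F →ₗ[F] Y.carrier :=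
  g ∘ₗ LinearMap.mulLeft F (bar b) -
    (Y.h.flip (g 1)) ∘ₗ (LinearMap.mulRight F b - LinearMap.mulLeft F b)

/-- `(xp g)(a) = h (a) (e (g 1))`. -/
def xp (g : Mat2 F →ₗ[F] Y.carrier) : Mat2 F →ₗ[F] Y.carrier :=
  Y.h.flip (Y.e (g 1))

lemma rt_apply (b : Mat2 F) (g : Mat2 F →ₗ[F] Y.carrier) (a : Mat2 F) :
    rt Y b g a = g (a * b) := rfl

lemma lt_apply (b : Mat2 F) (g : Mat2 F →ₗ[F] Y.carrier) (a : Mat2 F) :
    lt Y b g a = g (bar b * a) - Y.h (a * b - b * a) (g 1) := by
  simp [lt]

lemma xp_apply (g : Mat2 F →ₗ[F] Y.carrier) (a : Mat2 F) :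
    xp Y g a = Y.h a (Y.e (g 1)) := rfl

/-- The left action on `N(Y)`: with `π g = g - xp g`,
`b (u, v) = (lt b (π (u - v)), π (rt b (xp u + π v)))`. -/
def nleft (b : Mat2 F) (m : (Mat2 F →ₗ[F] Y.carrier) × (Mat2 F →ₗ[F] Y.carrier)) :
    (Mat2 F →ₗ[F] Y.carrier) × (Mat2 F →ₗ[F] Y.carrier) :=
  (lt Y b ((m.1 - m.2) - xp Y (m.1 - m.2)),
   rt Y b (xp Y m.1 + (m.2 - xp Y m.2)) - xp Y (rt Y b (xp Y m.1 + (m.2 - xp Y m.2))))

/-- The right action on `N(Y)`: `(u, v) b = (rt b u, 0)`. -/
def nright (m : (Mat2 F →ₗ[F] Y.carrier) × (Mat2 F →ₗ[F] Y.carrier)) (b : Mat2 F) :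
    (Mat2 F →ₗ[F] Y.carrier) × (Mat2 F →ₗ[F] Y.carrier) :=
  (rt Y b m.1, 0)

lemma bar_add (a b : Mat2 F) : bar (a + b) = bar a + bar b := by
  simp [bar, add_smul]; abel

lemma bar_smul (c : F) (a : Mat2 F) : bar (c • a) = c • bar a := by
  simp [bar, smul_sub, mul_smul]

section Nproofs

variable (a b : Mat2 F) (c : F) (m n : (Mat2 F →ₗ[F] Y.carrier) × (Mat2 F →ₗ[F] Y.carrier))

lemma nleft1 : nleft Y (a + b) m = nleft Y a m + nleft Y b m := by
  refine Prod.ext ?_ ?_ <;> refine LinearMap.ext fun c => ?_ <;>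
    simp [nleft, lt_apply, rt_apply, xp_apply, bar_add, mul_add, add_mul, map_add, map_sub] <;>
    abel
lemma nleft2 : nleft Y (c • a) m = c • nleft Y a m := by
  refine Prod.ext ?_ ?_ <;> refine LinearMap.ext fun c => ?_ <;>
    simp [nleft, lt_apply, rt_apply, xp_apply, bar_smul, map_add, map_sub, smul_sub, smul_add]
lemma nleft3 : nleft Y a (m + n) = nleft Y a m + nleft Y a n := by
  refine Prod.ext ?_ ?_ <;> refine LinearMap.ext fun c => ?_ <;>
    simp [nleft, lt_apply, rt_apply, xp_apply, map_add, map_sub] <;>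
    abel
lemma nleft4 : nleft Y a (c • m) = c • nleft Y a m := by
  refine Prod.ext ?_ ?_ <;> refine LinearMap.ext fun c => ?_ <;>
    simp [nleft, lt_apply, rt_apply, xp_apply, map_add, map_sub, smul_sub, smul_add]
lemma nright1 : nright Y (m + n) a = nright Y m a + nright Y n a := by
  refine Prod.ext ?_ ?_ <;> simp [nright, rt, LinearMap.add_comp]
lemma nright2 : nright Y (c • m) a = c • nright Y m a := by
  refine Prod.ext ?_ ?_ <;> simp [nright, rt, LinearMap.smul_comp]
lemma nright3 : nright Y m (a + b) = nright Y m a + nright Y m b := by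
  refine Prod.ext ?_ ?_
  · refine LinearMap.ext fun c => ?_
    simp [nright, rt_apply, mul_add]
  · simp [nright]
lemma nright4 : nright Y m (c • a) = c • nright Y m a := by
  refine Prod.ext ?_ ?_
  · refine LinearMap.ext fun c => ?_
    simp [nright, rt_apply]
  · simp [nright]

end Nproofs

/-- The bimodule `N(Y)`: pairs of linear maps from the 2 by 2 matrices to `Y`. -/
def bigN : Bimodule.{u, max u v} F where
  carrier := (Mat2 F →ₗ[F] Y.carrier) × (Mat2 F →ₗ[F] Y.carrier)
  left := LinearMap.mk₂ F (nleft Y) (fun a b m => nleft1 Y a b m) (fun c a m => nleft2 Y a c m)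
    (fun a m n => nleft3 Y a m n) (fun c a m => nleft4 Y a c m)
  right := LinearMap.mk₂ F (nright Y) (fun m n a => nright1 Y a m n)
    (fun c m a => nright2 Y a c m) (fun m a b => nright3 Y a b m) (fun c m a => nright4 Y a c m)

/-- The copy of `Y` in `N(Y)`: `y` is sent to `(a ↦ h a y, 0)`. -/
def hat (y : Y.carrier) : (bigN Y).carrier := (Y.h.flip y, 0)

/-- The irreducible bimodule attached to an irreducible `Y`: the sub-bimodule of `N(Y)` generated by the copy
of `Y`. -/
def simpleBim : Bimodule.{u, max u v} F :=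
  (bigN Y).sub ((bigN Y).gen (Set.range (hat Y))) ((bigN Y).gen_isSub _)

end Nhat

section Five

variable (F : Type u) [Field F]

/-- The one-dimensional bimodule with zero actions. -/
def trivBim : Bimodule.{u, u} F where
  carrier := F
  left := 0
  right := 0

section Fiveproofs

variable {F} (a b : Mat2 F) (c : F)

lemma row1 (v w : Fin 2 → F) : Matrix.vecMul (v + w) a = Matrix.vecMul v a + Matrix.vecMul w a := by
  simp [Matrix.add_vecMul]
lemma row2 (v : Fin 2 → F) : Matrix.vecMul (c • v) a = c • Matrix.vecMul v a := by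
  simp [Matrix.smul_vecMul]
lemma row3 (v : Fin 2 → F) : Matrix.vecMul v (a + b) = Matrix.vecMul v a + Matrix.vecMul v b := by
  simp [Matrix.vecMul_add]
lemma row4 (v : Fin 2 → F) : Matrix.vecMul v (c • a) = c • Matrix.vecMul v a := by
  simp [Matrix.vecMul_smul]
lemma col1 (v : Fin 2 → F) : Matrix.mulVec (a + b) v = Matrix.mulVec a v + Matrix.mulVec b v := by
  simp [Matrix.add_mulVec]
lemma col2 (v : Fin 2 → F) : Matrix.mulVec (c • a) v = c • Matrix.mulVec a v := by
  simp [Matrix.smul_mulVec]
lemma col3 (v w : Fin 2 → F) : Matrix.mulVec a (v + w) = Matrix.mulVec a v + Matrix.mulVec a w := by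
  simp [Matrix.mulVec_add]
lemma col4 (v : Fin 2 → F) : Matrix.mulVec a (c • v) = c • Matrix.mulVec a v := by
  simp [Matrix.mulVec_smul]

end Fiveproofs

/-- Row vectors: `v a` is the usual product, `a v = 0`. -/
def rowBim : Bimodule.{u, u} F where
  carrier := Fin 2 → F
  left := 0
  right := LinearMap.mk₂ F (fun v a => Matrix.vecMul v a)
    (fun v w a => row1 a v w) (fun c v a => row2 a c v)
    (fun v a b => row3 a b v) (fun c v a => row4 a c v)

/-- Column vectors: `a v` is the usual product, `v a = 0`. -/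
def colBim : Bimodule.{u, u} F where
  carrier := Fin 2 → F
  left := LinearMap.mk₂ F (fun a v => Matrix.mulVec a v)
    (fun a b v => col1 a b v) (fun c a v => col2 a c v)
    (fun a v w => col3 a v w) (fun c a v => col4 a c v)
  right := 0

/-- The regular bimodule: the algebra itself. -/
def regBim : Bimodule.{u, u} F where
  carrier := Mat2 F
  left := LinearMap.mul F (Mat2 F)
  right := LinearMap.mul F (Mat2 F)

section Sixproofs

variable (a b : Mat2 F) (c : F) (m n : Fin 6 → F)

lemma sixL1 : sixL F (a + b) m = sixL F a m + sixL F b m := by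
  ext i; fin_cases i <;> simp [sixL] <;> ring
lemma sixL2 : sixL F (c • a) m = c • sixL F a m := by
  ext i; fin_cases i <;> simp [sixL] <;> ring
lemma sixL3 : sixL F a (m + n) = sixL F a m + sixL F a n := by
  ext i; fin_cases i <;> simp [sixL] <;> ring
lemma sixL4 : sixL F a (c • m) = c • sixL F a m := by
  ext i; fin_cases i <;> simp [sixL] <;> ring
lemma sixR1 : sixR F (m + n) a = sixR F m a + sixR F n a := by
  ext i; fin_cases i <;> simp [sixR] <;> ring
lemma sixR2 : sixR F (c • m) a = c • sixR F m a := by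
  ext i; fin_cases i <;> simp [sixR] <;> ring
lemma sixR3 : sixR F m (a + b) = sixR F m a + sixR F m b := by
  ext i; fin_cases i <;> simp [sixR] <;> ring
lemma sixR4 : sixR F m (c • a) = c • sixR F m a := by
  ext i; fin_cases i <;> simp [sixR] <;> ring

end Sixproofs

/-- The exceptional six-dimensional bimodule. -/
def sixBim : Bimodule.{u, u} F where
  carrier := Fin 6 → F
  left := LinearMap.mk₂ F (sixL F)
    (fun a b m => sixL1 F a b m) (fun c a m => sixL2 F a c m)
    (fun a m n => sixL3 F a m n) (fun c a m => sixL4 F a c m)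
  right := LinearMap.mk₂ F (sixR F)
    (fun m n a => sixR1 F a m n) (fun c m a => sixR2 F a c m)
    (fun m a b => sixR3 F a b m) (fun c m a => sixR4 F a c m)

end Five

/-- The five exceptional bimodules, of dimensions 1, 2, 2, 4, 6. -/
def five (F : Type u) [Field F] : Fin 5 → Bimodule.{u, u} F :=
  ![trivBim F, rowBim F, colBim F, regBim F, sixBim F]

end Pool.Agent.H581.RA
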