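import Pool.Agent.H581.RA.Base

/-! The bimodule `N(Y)` is right alternative. -/

namespace Pool.Agent.H581.RA

universe u v w

variable {F : Type u} [Field F] (Y : Quad.{u, v} F)

lemma bar_mul (a b : Mat2 F) : bar (a * b) = bar b * bar a := by
  ext i j
  fin_cases i <;> fin_cases j <;>
    simp [bar, Matrix.mul_apply, Fin.sum_univ_two, Matrix.trace, Matrix.one_apply] <;> ring

lemma bar_one : bar (1 : Mat2 F) = 1 := by
  ext i j
  fin_cases i <;> fin_cases j <;>
    simp [bar, Matrix.trace] <;> norm_num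

lemma comm_key (a b c : Mat2 F) : (c * b) * a - a * (c * b) =
    ((bar a * c) * b - b * (bar a * c)) + b.trace • (c * a - a * c) -
      (c * (a * b) - (a * b) * c) := by
  ext i j
  fin_cases i <;> fin_cases j <;>
    simp [bar, Matrix.mul_apply, Fin.sum_univ_two, Matrix.trace, Matrix.one_apply] <;> ring

lemma tr_bar (b : Mat2 F) : bar b + b = b.trace • 1 := by simp [bar]

section ops

lemma rt_rt (a b : Mat2 F) (g : Mat2 F →ₗ[F] Y.carrier) :
    rt Y a (rt Y b g) = rt Y (a * b) g := by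
  refine LinearMap.ext fun c => ?_
  simp [rt_apply, mul_assoc]

/-- the sum of the two actions on `Hom (A, Y)` -/
def tt (b : Mat2 F) (g : Mat2 F →ₗ[F] Y.carrier) : Mat2 F →ₗ[F] Y.carrier := lt Y b g + rt Y b g

lemma tt_one (b : Mat2 F) (g : Mat2 F →ₗ[F] Y.carrier) : tt Y b g 1 = b.trace • g 1 := by
  simp only [tt, LinearMap.add_apply, lt_apply, rt_apply, one_mul, mul_one, sub_self, map_zero,
    LinearMap.zero_apply, sub_zero]
  rw [← map_add, tr_bar, map_smul]

lemma tt_apply (b : Mat2 F) (g : Mat2 F →ₗ[F] Y.carrier) (a : Mat2 F) :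
    tt Y b g a = b.trace • g a + g (a * b - b * a) - Y.h (a * b - b * a) (g 1) := by
  simp only [tt, LinearMap.add_apply, lt_apply, rt_apply]
  have : bar b * a = b.trace • a - b * a := by simp [bar, sub_mul]
  rw [this]
  simp only [map_sub, map_smul]
  abel

lemma rt_lt (a b : Mat2 F) (g : Mat2 F →ₗ[F] Y.carrier) :
    rt Y b (lt Y a g) = lt Y a (tt Y b g) - lt Y (a * b) g := by
  refine LinearMap.ext fun c => ?_
  rw [LinearMap.sub_apply, lt_apply Y a (tt Y b g), tt_one, rt_apply, lt_apply, lt_apply]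
  simp only [tt, LinearMap.add_apply, lt_apply, rt_apply]
  rw [comm_key a b c, bar_mul]
  have : bar a * (c * b) = bar b * (bar a * c) + bar a * c * b - bar b * bar a * c := by
    simp only [mul_assoc]; abel
  rw [this]
  simp only [map_sub, map_add, map_smul, LinearMap.sub_apply, LinearMap.add_apply,
    LinearMap.smul_apply]
  abel

lemma xp_add (g g' : Mat2 F →ₗ[F] Y.carrier) : xp Y (g + g') = xp Y g + xp Y g' := by
  refine LinearMap.ext fun c => ?_
  simp [xp_apply]

lemma xp_sub (g g' : Mat2 F →ₗ[F] Y.carrier) : xp Y (g - g') = xp Y g - xp Y g' := by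
  refine LinearMap.ext fun c => ?_
  simp [xp_apply]

lemma xp_xp (g : Mat2 F →ₗ[F] Y.carrier) : xp Y (xp Y g) = xp Y g := by
  refine LinearMap.ext fun c => ?_
  simp [xp_apply, Y.h_one, Y.e_idem]

lemma xp_tt (b : Mat2 F) (g : Mat2 F →ₗ[F] Y.carrier) : xp Y (tt Y b g) = b.trace • xp Y g := by
  refine LinearMap.ext fun c => ?_
  simp [xp_apply, tt_one]

lemma tt_xp (b : Mat2 F) (g : Mat2 F →ₗ[F] Y.carrier) : tt Y b (xp Y g) = b.trace • xp Y g := by
  refine LinearMap.ext fun c => ?_
  simp [tt_apply, xp_apply, Y.h_one]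

lemma lt_add (b : Mat2 F) (g g' : Mat2 F →ₗ[F] Y.carrier) :
    lt Y b (g + g') = lt Y b g + lt Y b g' := by
  refine LinearMap.ext fun c => ?_
  simp [lt_apply]; abel

lemma lt_sub (b : Mat2 F) (g g' : Mat2 F →ₗ[F] Y.carrier) :
    lt Y b (g - g') = lt Y b g - lt Y b g' := by
  refine LinearMap.ext fun c => ?_
  simp [lt_apply]; abel

lemma rt_add (b : Mat2 F) (g g' : Mat2 F →ₗ[F] Y.carrier) :
    rt Y b (g + g') = rt Y b g + rt Y b g' := by
  refine LinearMap.ext fun c => ?_
  simp [rt_apply]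

lemma rt_sub (b : Mat2 F) (g g' : Mat2 F →ₗ[F] Y.carrier) :
    rt Y b (g - g') = rt Y b g - rt Y b g' := by
  refine LinearMap.ext fun c => ?_
  simp [rt_apply]

lemma lt_one (g : Mat2 F →ₗ[F] Y.carrier) : lt Y 1 g = g := by
  refine LinearMap.ext fun c => ?_
  simp [lt_apply, bar_one]

lemma rt_one (g : Mat2 F →ₗ[F] Y.carrier) : rt Y 1 g = g := by
  refine LinearMap.ext fun c => ?_
  simp [rt_apply]

end ops

lemma bigN_left (b : Mat2 F) (m : (bigN Y).carrier) : (bigN Y).left b m = nleft Y b m := rfl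

lemma bigN_right (b : Mat2 F) (m : (bigN Y).carrier) : (bigN Y).right m b = nright Y m b := rfl

theorem bigN_ra : (bigN Y).IsRightAlternative := by
  rw [Bimodule.ra_iff]
  constructor
  · rintro ⟨u, v⟩ b
    change nright Y (nright Y (u, v) b) b = nright Y (u, v) (b * b)
    simp only [nright, rt_rt]
  · rintro a b ⟨u, v⟩
    change nright Y (nleft Y a (u, v)) b =
      nleft Y a (nleft Y b (u, v) + nright Y (u, v) b) - nleft Y (a * b) (u, v)
    set w := (u - v) - xp Y (u - v) with hw
    have hxw : xp Y w = 0 := by rw [hw, xp_sub, xp_xp, sub_self]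
    set s := xp Y u + (v - xp Y v) with hs
    have hus : u - s = w := by
      rw [hs, hw, xp_sub]; abel
    -- the element `b m + m b`
    have e1 : nleft Y b (u, v) + nright Y (u, v) b =
        (lt Y b w + rt Y b u, rt Y b s - xp Y (rt Y b s)) := by
      simp only [nleft, nright, Prod.mk_add_mk, add_zero]
      rfl
    have e3 : nleft Y (a * b) (u, v) =
        (lt Y (a * b) w, rt Y (a * b) s - xp Y (rt Y (a * b) s)) := rfl
    have e4 : nright Y (nleft Y a (u, v)) b = (rt Y b (lt Y a w), 0) := rfl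
    have key : rt Y b u - rt Y b s = rt Y b w := by rw [← rt_sub, hus]
    have hx : xp Y (lt Y b w + rt Y b w) = 0 := by
      have := xp_tt Y b w
      rw [tt, hxw, smul_zero] at this
      exact this
    rw [e4, e1, e3]
    refine Prod.ext ?_ ?_
    · change rt Y b (lt Y a w) = lt Y a (((lt Y b w + rt Y b u) - (rt Y b s - xp Y (rt Y b s))) -
        xp Y ((lt Y b w + rt Y b u) - (rt Y b s - xp Y (rt Y b s)))) - lt Y (a * b) w
      have h5 : ((lt Y b w + rt Y b u) - (rt Y b s - xp Y (rt Y b s))) -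
        xp Y ((lt Y b w + rt Y b u) - (rt Y b s - xp Y (rt Y b s))) = tt Y b w := by
        have h6 : (lt Y b w + rt Y b u) - (rt Y b s - xp Y (rt Y b s)) =
            (lt Y b w + rt Y b w) + xp Y (rt Y b s) := by
          rw [← key]; abel
        rw [h6, xp_add, hx, xp_xp, tt]; abel
      rw [h5, rt_lt]
    · change (0 : Mat2 F →ₗ[F] Y.carrier) =
        (rt Y a (xp Y (lt Y b w + rt Y b u) + ((rt Y b s - xp Y (rt Y b s)) -
          xp Y (rt Y b s - xp Y (rt Y b s)))) -
          xp Y (rt Y a (xp Y (lt Y b w + rt Y b u) + ((rt Y b s - xp Y (rt Y b s)) -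
          xp Y (rt Y b s - xp Y (rt Y b s)))))) - (rt Y (a * b) s - xp Y (rt Y (a * b) s))
      have h7 : xp Y (lt Y b w + rt Y b u) + ((rt Y b s - xp Y (rt Y b s)) -
          xp Y (rt Y b s - xp Y (rt Y b s))) = rt Y b s := by
        have h8 : lt Y b w + rt Y b u = (lt Y b w + rt Y b w) + rt Y b s := by
          rw [← key]; abel
        rw [h8, xp_add, hx, xp_sub, xp_xp]; abel
      rw [h7, rt_rt, sub_self]

end Pool.Agent.H581.RA
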