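import Pool.Agent.H581.RA.Fam

/-! The bimodules attached to irreducible `Y` are irreducible, and determine `Y`. -/

namespace Pool.Agent.H581.RA

universe u v w v'

variable {F : Type u} [Field F]

namespace Bimodule

/-- the sum of the two actions of `a` -/
def tOp (M : Bimodule.{u, v} F) (a : Mat2 F) (m : M.carrier) : M.carrier :=
  M.left a m + M.right m a

/-- the Casimir operator -/
def om (M : Bimodule.{u, v} F) (m : M.carrier) : M.carrier :=
  (2 : F) • M.right (M.tOp (mF F) m) (mE F) + (2 : F) • M.right (M.tOp (mE F) m) (mF F) +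
    M.right (M.tOp (mH F) m) (mH F)

/-- the projection to the invariants -/
def eOp (M : Bimodule.{u, v} F) (m : M.carrier) : M.carrier :=
  M.right m 1 - (4 : F)⁻¹ • M.om (M.left 1 (M.right m 1))

lemma IsHom.tOp {M : Bimodule.{u, v} F} {M' : Bimodule.{u, w} F}
    {φ : M.carrier →ₗ[F] M'.carrier} (h : IsHom M M' φ) (a : Mat2 F) (m : M.carrier) :
    φ (M.tOp a m) = M'.tOp a (φ m) := by
  simp only [Bimodule.tOp, map_add, h.1, h.2]

lemma IsHom.om {M : Bimodule.{u, v} F} {M' : Bimodule.{u, w} F}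
    {φ : M.carrier →ₗ[F] M'.carrier} (h : IsHom M M' φ) (m : M.carrier) :
    φ (M.om m) = M'.om (φ m) := by
  simp only [Bimodule.om, map_add, map_smul, h.2, h.tOp]

lemma IsHom.eOp {M : Bimodule.{u, v} F} {M' : Bimodule.{u, w} F}
    {φ : M.carrier →ₗ[F] M'.carrier} (h : IsHom M M' φ) (m : M.carrier) :
    φ (M.eOp m) = M'.eOp (φ m) := by
  simp only [Bimodule.eOp, map_sub, map_smul, h.2, h.om, h.1]

lemma subtype_isHom (M : Bimodule.{u, v} F) (N : Submodule F M.carrier)
    (hN : M.IsSubBimodule N) : IsHom (M.sub N hN) M N.subtype :=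
  ⟨fun _ _ => rfl, fun _ _ => rfl⟩

lemma tOp_mem {M : Bimodule.{u, v} F} {N : Submodule F M.carrier} (hN : M.IsSubBimodule N)
    (a : Mat2 F) {m : M.carrier} (hm : m ∈ N) : M.tOp a m ∈ N :=
  N.add_mem (hN a m hm).1 (hN a m hm).2

lemma om_mem {M : Bimodule.{u, v} F} {N : Submodule F M.carrier} (hN : M.IsSubBimodule N)
    {m : M.carrier} (hm : m ∈ N) : M.om m ∈ N :=
  N.add_mem (N.add_mem (N.smul_mem _ (hN _ _ (tOp_mem hN _ hm)).2)
    (N.smul_mem _ (hN _ _ (tOp_mem hN _ hm)).2)) (hN _ _ (tOp_mem hN _ hm)).2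

lemma eOp_mem {M : Bimodule.{u, v} F} {N : Submodule F M.carrier} (hN : M.IsSubBimodule N)
    {m : M.carrier} (hm : m ∈ N) : M.eOp m ∈ N :=
  N.sub_mem (hN 1 m hm).2 (N.smul_mem _ (om_mem hN (hN 1 _ (hN 1 m hm).2).1))

lemma sub_ra {M : Bimodule.{u, v} F} (h : M.IsRightAlternative) (N : Submodule F M.carrier)
    (hN : M.IsSubBimodule N) : (M.sub N hN).IsRightAlternative := by
  rw [ra_iff] at h ⊢
  constructor
  · intro m b
    exact Subtype.ext (h.1 m.1 b)
  · intro a b m
    exact Subtype.ext (h.2 a b m.1)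

end Bimodule

open Bimodule

section

variable (Y : Quad.{u, v} F)

lemma arg_key (a : Mat2 F) : (2 : F) • (a * mE F * mF F - mF F * (a * mE F)) +
    (2 : F) • (a * mF F * mE F - mE F * (a * mF F)) + (a * mH F * mH F - mH F * (a * mH F)) =
    (4 : F) • a - (2 * a.trace) • 1 := by
  rw [Matrix.eta_fin_two a]
  ext i j
  fin_cases i <;> fin_cases j <;>
    simp [mE, mF, mH, Matrix.trace] <;> ring

lemma tr_E : (mE F).trace = 0 := by simp [mE, Matrix.trace]
lemma tr_F : (mF F).trace = 0 := by simp [mF, Matrix.trace]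
lemma tr_H : (mH F).trace = 0 := by simp [mH, Matrix.trace]

lemma om_hom (g : Mat2 F →ₗ[F] Y.carrier) :
    (2 : F) • rt Y (mE F) (tt Y (mF F) g) + (2 : F) • rt Y (mF F) (tt Y (mE F) g) +
      rt Y (mH F) (tt Y (mH F) g) = (4 : F) • (g - Y.h.flip (g 1)) := by
  refine LinearMap.ext fun a => ?_
  simp only [LinearMap.add_apply, LinearMap.smul_apply, LinearMap.sub_apply, rt_apply, tt_apply,
    tr_E, tr_F, tr_H, zero_smul, zero_add, LinearMap.flip_apply]
  have h1 : ∀ φ : Mat2 F →ₗ[F] Y.carrier,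
      (2 : F) • φ (a * mE F * mF F - mF F * (a * mE F)) +
      (2 : F) • φ (a * mF F * mE F - mE F * (a * mF F)) +
      φ (a * mH F * mH F - mH F * (a * mH F)) = (4 : F) • φ a - (2 * a.trace) • φ 1 := by
    intro φ
    rw [← map_smul, ← map_smul, ← map_add, ← map_add, arg_key, map_sub, map_smul, map_smul]
  have h2 := h1 g
  have h3 := h1 (Y.h.flip (g 1))
  simp only [LinearMap.flip_apply, Y.h_one] at h3
  linear_combination (norm := module) h2 - h3

lemma bigN_om {w : Mat2 F →ₗ[F] Y.carrier} (hw : xp Y w = 0) :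
    (bigN Y).om (w, 0) = ((4 : F) • (w - Y.h.flip (w 1)), 0) := by
  have h1 : ∀ b, (bigN Y).tOp b (w, 0) = (tt Y b w, 0) := by
    intro b
    change nleft Y b (w, 0) + nright Y (w, 0) b = _
    have h0 : xp Y (0 : Mat2 F →ₗ[F] Y.carrier) = 0 := by
      refine LinearMap.ext fun c => ?_
      simp [xp_apply]
    have h0' : rt Y b (0 : Mat2 F →ₗ[F] Y.carrier) = 0 := by
      refine LinearMap.ext fun c => ?_
      simp [rt_apply]
    simp [nleft, nright, hw, h0, h0', tt]
  simp only [Bimodule.om, h1]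
  rw [← om_hom Y w]
  change ((2 : F) • (rt Y (mE F) (tt Y (mF F) w), (0 : Mat2 F →ₗ[F] Y.carrier)) +
    (2 : F) • (rt Y (mF F) (tt Y (mE F) w), (0 : Mat2 F →ₗ[F] Y.carrier)) +
    (rt Y (mH F) (tt Y (mH F) w), (0 : Mat2 F →ₗ[F] Y.carrier))) = _
  simp

lemma bigN_left_one (u v : Mat2 F →ₗ[F] Y.carrier) :
    (bigN Y).left 1 (u, v) = ((u - v) - xp Y (u - v), v - xp Y v) := by
  change nleft Y 1 (u, v) = _
  simp only [nleft, lt_one, rt_one]
  refine Prod.ext rfl ?_
  simp only [xp_add, xp_sub, xp_xp]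
  abel

lemma bigN_eOp (h4 : (4 : F) ≠ 0) (u v : Mat2 F →ₗ[F] Y.carrier) :
    (bigN Y).eOp (u, v) = hat Y (u 1) := by
  have h1 : (bigN Y).right (u, v) 1 = (u, 0) := by
    change nright Y (u, v) 1 = _
    simp [nright, rt_one]
  have h2 : (bigN Y).left 1 (u, 0) = (u - xp Y u, 0) := by
    rw [bigN_left_one]
    simp only [sub_zero]
    refine Prod.ext rfl ?_
    simp [xp]
  have h3 : xp Y (u - xp Y u) = 0 := by rw [xp_sub, xp_xp, sub_self]
  unfold Bimodule.eOp
  rw [h1, h2, bigN_om Y h3, hat]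
  change ((u - (4 : F)⁻¹ • ((4 : F) • ((u - xp Y u) - Y.h.flip ((u - xp Y u) 1))),
    (0 : Mat2 F →ₗ[F] Y.carrier) - (4 : F)⁻¹ • (0 : Mat2 F →ₗ[F] Y.carrier)) :
    (Mat2 F →ₗ[F] Y.carrier) × (Mat2 F →ₗ[F] Y.carrier)) = (Y.h.flip (u 1), 0)
  rw [smul_smul, inv_mul_cancel₀ h4, one_smul, smul_zero, sub_zero]
  refine Prod.ext ?_ rfl
  refine LinearMap.ext fun c => ?_
  simp [xp_apply, Y.h_one]

lemma bigN_right_hat (y : Y.carrier) (b : Mat2 F) :
    (bigN Y).right (hat Y y) b = (rt Y b (Y.h.flip y), 0) := rfl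

lemma eOp_right_hat (h4 : (4 : F) ≠ 0) (y : Y.carrier) (b : Mat2 F) :
    (bigN Y).eOp ((bigN Y).right (hat Y y) b) = hat Y (Y.h b y) := by
  rw [bigN_right_hat, bigN_eOp Y h4]
  simp [rt_apply]

lemma eOp_hat (h4 : (4 : F) ≠ 0) (y : Y.carrier) : (bigN Y).eOp (hat Y y) = hat Y y := by
  rw [hat, bigN_eOp Y h4]
  simp only [LinearMap.flip_apply, Y.h_one]
  rfl

lemma left_one_hat (y : Y.carrier) : (bigN Y).left 1 (hat Y y) = hat Y (y - Y.e y) := by
  rw [hat, bigN_left_one, hat]
  refine Prod.ext ?_ ?_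
  · refine LinearMap.ext fun c => ?_
    simp [xp_apply, Y.h_one]
  · refine LinearMap.ext fun c => ?_
    simp [xp_apply]

/-- the linear map `y ↦ hat y` -/
def hatL : Y.carrier →ₗ[F] (bigN Y).carrier :=
  LinearMap.prod Y.h.flip 0

lemma hatL_apply (y : Y.carrier) : hatL Y y = hat Y y := rfl

lemma hat_inj {y y' : Y.carrier} (h : hat Y y = hat Y y') : y = y' := by
  have h1 : (Y.h.flip y : Mat2 F →ₗ[F] Y.carrier) = Y.h.flip y' := congrArg Prod.fst h
  have h2 := LinearMap.congr_fun h1 1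
  simpa [Y.h_one] using h2

/-- second components of elements of the generated sub-bimodule -/
lemma gen_le : ∀ m ∈ (bigN Y).gen (Set.range (hat Y)), xp Y m.2 = 0 := by
  let K : Submodule F (bigN Y).carrier :=
    { carrier := {m | xp Y m.2 = 0}
      add_mem' := by
        intro a b ha hb
        change xp Y (a.2 + b.2) = 0
        rw [xp_add]
        change xp Y a.2 = 0 at ha
        change xp Y b.2 = 0 at hb
        rw [ha, hb, add_zero]
      zero_mem' := by
        change xp Y (0 : Mat2 F →ₗ[F] Y.carrier) = 0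
        refine LinearMap.ext fun c => ?_
        simp [xp_apply]
      smul_mem' := by
        intro c a ha
        change xp Y (c • a.2) = 0
        change xp Y a.2 = 0 at ha
        have : xp Y (c • a.2) = c • xp Y a.2 := by
          refine LinearMap.ext fun d => ?_
          simp [xp_apply]
        rw [this, ha, smul_zero] }
  have hK : (bigN Y).IsSubBimodule K := by
    intro a m _
    constructor
    · change xp Y (nleft Y a m).2 = 0
      simp only [nleft]
      rw [xp_sub, xp_xp, sub_self]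
    · change xp Y (0 : Mat2 F →ₗ[F] Y.carrier) = 0
      refine LinearMap.ext fun c => ?_
      simp [xp_apply]
  have hS : Set.range (hat Y) ⊆ (K : Set (bigN Y).carrier) := by
    rintro _ ⟨y, rfl⟩
    change xp Y (0 : Mat2 F →ₗ[F] Y.carrier) = 0
    refine LinearMap.ext fun c => ?_
    simp [xp_apply]
  intro m hm
  have : m ∈ K := (sInf_le ⟨hK, hS⟩ : (bigN Y).gen (Set.range (hat Y)) ≤ K) hm
  exact this

lemma hat_mem_gen (y : Y.carrier) : hat Y y ∈ (bigN Y).gen (Set.range (hat Y)) := by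
  simp only [Bimodule.gen, Submodule.mem_sInf]
  rintro N ⟨_, h⟩
  exact h ⟨y, rfl⟩

/-- dichotomy for sub-bimodules of the generated sub-bimodule -/
lemma dichotomy (h4 : (4 : F) ≠ 0) (hY : Y.IsIrreducible) (N : Submodule F (bigN Y).carrier)
    (hN : (bigN Y).IsSubBimodule N) (hG : N ≤ (bigN Y).gen (Set.range (hat Y))) :
    N = ⊥ ∨ N = (bigN Y).gen (Set.range (hat Y)) := by
  have hcom : ∀ y, (hatL Y) y = hat Y y := fun _ => rfl
  have hst : ∀ y ∈ N.comap (hatL Y), (∀ a, Y.h a y ∈ N.comap (hatL Y)) ∧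
      Y.e y ∈ N.comap (hatL Y) := by
    intro y hy
    rw [Submodule.mem_comap, hcom] at hy
    constructor
    · intro a
      rw [Submodule.mem_comap, hcom, ← eOp_right_hat Y h4]
      exact eOp_mem hN (hN a _ hy).2
    · rw [Submodule.mem_comap]
      have h1 : hatL Y (Y.e y) = hat Y y - hat Y (y - Y.e y) := by
        rw [← hcom, ← hcom, map_sub]; abel
      rw [h1]
      refine N.sub_mem hy ?_
      rw [← left_one_hat]
      exact (hN 1 _ hy).1
  rcases hY.2 (N.comap (hatL Y)) hst with h | h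
  · left
    rw [Submodule.eq_bot_iff]
    rintro ⟨u, v⟩ hm
    have hu : u = 0 := by
      refine LinearMap.ext fun b => ?_
      have h1 : (bigN Y).eOp ((bigN Y).right (u, v) b) ∈ N := eOp_mem hN (hN b _ hm).2
      have h2 : (bigN Y).right (u, v) b = (rt Y b u, 0) := rfl
      rw [h2, bigN_eOp Y h4] at h1
      have h3 : (rt Y b u) 1 ∈ N.comap (hatL Y) := h1
      rw [h, Submodule.mem_bot, rt_apply, one_mul] at h3
      simpa using h3
    subst hu
    have h1 := (hN 1 _ hm).1
    rw [bigN_left_one] at h1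
    have hx : xp Y v = 0 := gen_le Y _ (hG hm)
    have h2 : (bigN Y).eOp ((bigN Y).right (((0 : Mat2 F →ₗ[F] Y.carrier) - v) -
        xp Y ((0 : Mat2 F →ₗ[F] Y.carrier) - v), v - xp Y v) 1) ∈ N := eOp_mem hN (hN 1 _ h1).2
    have hv : v = 0 := by
      refine LinearMap.ext fun b => ?_
      have h1' : (bigN Y).eOp ((bigN Y).right (((0 : Mat2 F →ₗ[F] Y.carrier) - v) -
        xp Y ((0 : Mat2 F →ₗ[F] Y.carrier) - v), v - xp Y v) b) ∈ N := eOp_mem hN (hN b _ h1).2
      have h2 : (bigN Y).right (((0 : Mat2 F →ₗ[F] Y.carrier) - v) -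
        xp Y ((0 : Mat2 F →ₗ[F] Y.carrier) - v), v - xp Y v) b =
        (rt Y b (((0 : Mat2 F →ₗ[F] Y.carrier) - v) -
        xp Y ((0 : Mat2 F →ₗ[F] Y.carrier) - v)), 0) := rfl
      rw [h2, bigN_eOp Y h4] at h1'
      have h3 : (rt Y b (((0 : Mat2 F →ₗ[F] Y.carrier) - v) -
        xp Y ((0 : Mat2 F →ₗ[F] Y.carrier) - v))) 1 ∈ N.comap (hatL Y) := h1'
      rw [h, Submodule.mem_bot, rt_apply, one_mul, xp_sub, hx] at h3
      have h0 : xp Y (0 : Mat2 F →ₗ[F] Y.carrier) = 0 := by
        refine LinearMap.ext fun c => ?_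
        simp [xp_apply]
      rw [h0] at h3
      simpa using h3
    subst hv
    rfl
  · right
    refine le_antisymm hG ?_
    refine sInf_le ⟨hN, ?_⟩
    rintro _ ⟨y, rfl⟩
    have : y ∈ N.comap (hatL Y) := by rw [h]; trivial
    exact this

theorem simple_ra : (simpleBim Y).IsRightAlternative := sub_ra (bigN_ra Y) _ _

theorem simple_irr (h4 : (4 : F) ≠ 0) (hY : Y.IsIrreducible) : (simpleBim Y).IsIrreducible := by
  constructor
  · obtain ⟨y, hy⟩ := @exists_ne _ hY.1 (0 : Y.carrier)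
    refine ⟨⟨⟨hat Y y, hat_mem_gen Y y⟩, 0, ?_⟩⟩
    intro h
    have h1 : hat Y y = 0 := congrArg Subtype.val h
    have h2 : hat Y y = hat Y 0 := by
      rw [h1, ← hatL_apply, map_zero]
    exact hy (hat_inj Y h2)
  · have key : ∀ N : Submodule F ↥((bigN Y).gen (Set.range (hat Y))),
        (simpleBim Y).IsSubBimodule N → N = ⊥ ∨ N = ⊤ := by
      intro N hN
      have h1 : (bigN Y).IsSubBimodule (N.map ((bigN Y).gen (Set.range (hat Y))).subtype) := by
        rintro a _ ⟨m, hm, rfl⟩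
        exact ⟨⟨_, (hN a m hm).1, rfl⟩, ⟨_, (hN a m hm).2, rfl⟩⟩
      have h2 : N.map ((bigN Y).gen (Set.range (hat Y))).subtype ≤
          (bigN Y).gen (Set.range (hat Y)) := Submodule.map_subtype_le _ _
      rcases dichotomy Y h4 hY _ h1 h2 with h | h
      · left
        rw [Submodule.eq_bot_iff]
        intro m hm
        have : ((bigN Y).gen (Set.range (hat Y))).subtype m ∈
            N.map ((bigN Y).gen (Set.range (hat Y))).subtype := ⟨m, hm, rfl⟩
        rw [h, Submodule.mem_bot] at this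
        exact Subtype.ext this
      · right
        rw [eq_top_iff]
        intro m _
        have : (m : (bigN Y).carrier) ∈ N.map ((bigN Y).gen (Set.range (hat Y))).subtype := by
          rw [h]; exact m.2
        obtain ⟨m', hm', he⟩ := this
        have : m' = m := Subtype.ext he
        rw [← this]; exact hm'
    exact key

end

end Pool.Agent.H581.RA
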