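import Pool.Agent.H581.RA.Fam2

/-! Isomorphism and dimension of the bimodules attached to `Y`. -/

namespace Pool.Agent.H581.RA

universe u v w v'

variable {F : Type u} [Field F]

open Bimodule

lemma simple_finite (Y : Quad.{u, v} F) :
    FiniteDimensional F (simpleBim Y).carrier ↔ FiniteDimensional F Y.carrier := by
  constructor
  · intro h
    let φ : Y.carrier →ₗ[F] ↥((bigN Y).gen (Set.range (hat Y))) :=
      LinearMap.codRestrict _ (hatL Y) (fun y => hat_mem_gen Y y)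
    have hφ : Function.Injective φ := by
      intro y y' he
      have := congrArg Subtype.val he
      exact hat_inj Y this
    have h' : FiniteDimensional F ↥((bigN Y).gen (Set.range (hat Y))) := h
    exact FiniteDimensional.of_injective φ hφ
  · intro h
    have h1 : FiniteDimensional F (bigN Y).carrier := by
      change FiniteDimensional F ((Mat2 F →ₗ[F] Y.carrier) × (Mat2 F →ₗ[F] Y.carrier))
      infer_instance
    exact (inferInstance : FiniteDimensional F ↥((bigN Y).gen (Set.range (hat Y))))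

/-- the map between the big bimodules induced by an isomorphism -/
lemma simple_iso_of_iso {Y : Quad.{u, v} F} {Y' : Quad.{u, w} F} (h4 : (4 : F) ≠ 0)
    (hY : Y.IsIrreducible) (hY' : Y'.IsIrreducible) (h : Y.Iso Y') :
    (simpleBim Y).Iso (simpleBim Y') := by
  obtain ⟨ψ, hψ⟩ := h
  let Φ : (bigN Y).carrier →ₗ[F] (bigN Y').carrier :=
    LinearMap.prodMap (LinearMap.compRight F ψ.toLinearMap) (LinearMap.compRight F ψ.toLinearMap)
  have hΦ : ∀ u v : Mat2 F →ₗ[F] Y.carrier, Φ (u, v) =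
      (ψ.toLinearMap ∘ₗ u, ψ.toLinearMap ∘ₗ v) := fun u v => rfl
  have hr : ∀ (b : Mat2 F) (g : Mat2 F →ₗ[F] Y.carrier),
      ψ.toLinearMap ∘ₗ rt Y b g = rt Y' b (ψ.toLinearMap ∘ₗ g) := fun b g => rfl
  have hx : ∀ (g : Mat2 F →ₗ[F] Y.carrier),
      ψ.toLinearMap ∘ₗ xp Y g = xp Y' (ψ.toLinearMap ∘ₗ g) := by
    intro g
    refine LinearMap.ext fun c => ?_
    simp [xp_apply, (hψ _).1, (hψ _).2]
  have hl : ∀ (b : Mat2 F) (g : Mat2 F →ₗ[F] Y.carrier),
      ψ.toLinearMap ∘ₗ lt Y b g = lt Y' b (ψ.toLinearMap ∘ₗ g) := by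
    intro b g
    refine LinearMap.ext fun c => ?_
    simp [lt_apply, (hψ _).1]
  have hs : ∀ (g g' : Mat2 F →ₗ[F] Y.carrier), ψ.toLinearMap ∘ₗ (g - g') =
      ψ.toLinearMap ∘ₗ g - ψ.toLinearMap ∘ₗ g' := fun g g' => LinearMap.comp_sub _ _ _
  have ha : ∀ (g g' : Mat2 F →ₗ[F] Y.carrier), ψ.toLinearMap ∘ₗ (g + g') =
      ψ.toLinearMap ∘ₗ g + ψ.toLinearMap ∘ₗ g' := fun g g' => LinearMap.comp_add _ _ _
  have hom : IsHom (bigN Y) (bigN Y') Φ := by
    constructor
    · rintro a ⟨u, v⟩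
      change (ψ.toLinearMap ∘ₗ (nleft Y a (u, v)).1, ψ.toLinearMap ∘ₗ (nleft Y a (u, v)).2) =
        nleft Y' a (ψ.toLinearMap ∘ₗ u, ψ.toLinearMap ∘ₗ v)
      simp only [nleft, hl, hs, hx, hr, ha]
    · rintro ⟨u, v⟩ a
      change (ψ.toLinearMap ∘ₗ (nright Y (u, v) a).1, ψ.toLinearMap ∘ₗ (nright Y (u, v) a).2) =
        nright Y' (ψ.toLinearMap ∘ₗ u, ψ.toLinearMap ∘ₗ v) a
      simp only [nright, hr, LinearMap.comp_zero]
  have hhat : ∀ y, Φ (hat Y y) = hat Y' (ψ y) := by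
    intro y
    change (ψ.toLinearMap ∘ₗ Y.h.flip y, ψ.toLinearMap ∘ₗ (0 : Mat2 F →ₗ[F] Y.carrier)) =
      (Y'.h.flip (ψ y), 0)
    refine Prod.ext ?_ (LinearMap.comp_zero _)
    refine LinearMap.ext fun c => ?_
    simp [(hψ _).1]
  have hle : ∀ m ∈ (bigN Y).gen (Set.range (hat Y)),
      Φ m ∈ (bigN Y').gen (Set.range (hat Y')) := by
    have h1 : (bigN Y).IsSubBimodule (((bigN Y').gen (Set.range (hat Y'))).comap Φ) := by
      intro a m hm
      rw [Submodule.mem_comap] at hm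
      refine ⟨?_, ?_⟩
      · rw [Submodule.mem_comap, hom.1]
        exact ((bigN Y').gen_isSub _ a _ hm).1
      · rw [Submodule.mem_comap, hom.2]
        exact ((bigN Y').gen_isSub _ a _ hm).2
    have h2 : Set.range (hat Y) ⊆
        ((((bigN Y').gen (Set.range (hat Y'))).comap Φ : Submodule F (bigN Y).carrier) :
          Set (bigN Y).carrier) := by
      rintro _ ⟨y, rfl⟩
      change Φ (hat Y y) ∈ (bigN Y').gen (Set.range (hat Y'))
      rw [hhat]
      exact hat_mem_gen Y' _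
    intro m hm
    exact (sInf_le ⟨h1, h2⟩ : (bigN Y).gen (Set.range (hat Y)) ≤ _) hm
  let φ : ↥((bigN Y).gen (Set.range (hat Y))) →ₗ[F] ↥((bigN Y').gen (Set.range (hat Y'))) :=
    LinearMap.restrict Φ hle
  refine schur (simple_irr Y h4 hY) (simple_irr Y' h4 hY') φ ⟨?_, ?_⟩ ?_
  · intro a m
    exact Subtype.ext (hom.1 a m.1)
  · intro m a
    exact Subtype.ext (hom.2 m.1 a)
  · intro h0
    obtain ⟨y, hy⟩ := @exists_ne _ hY.1 (0 : Y.carrier)
    have h1 : Φ (hat Y y) = 0 := by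
      have := LinearMap.congr_fun h0 ⟨hat Y y, hat_mem_gen Y y⟩
      exact congrArg Subtype.val this
    rw [hhat, ← hatL_apply] at h1
    have h2 : hat Y' (ψ y) = hat Y' 0 := by
      rw [← hatL_apply, ← hatL_apply, h1, map_zero]
    have h3 := hat_inj Y' h2
    exact hy (by simpa using h3)

/-- the copy of `Y` in the simple bimodule -/
def jL (Y : Quad.{u, v} F) : Y.carrier →ₗ[F] (simpleBim Y).carrier :=
  (LinearMap.codRestrict ((bigN Y).gen (Set.range (hat Y))) (hatL Y)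
    (fun y => hat_mem_gen Y y) : Y.carrier →ₗ[F] ↥((bigN Y).gen (Set.range (hat Y))))

/-- evaluation of the first component at `1` -/
def evS (Y : Quad.{u, v} F) : (simpleBim Y).carrier →ₗ[F] Y.carrier :=
  ((LinearMap.applyₗ (1 : Mat2 F)) ∘ₗ (LinearMap.fst F (Mat2 F →ₗ[F] Y.carrier)
    (Mat2 F →ₗ[F] Y.carrier)) ∘ₗ ((bigN Y).gen (Set.range (hat Y))).subtype :
      ↥((bigN Y).gen (Set.range (hat Y))) →ₗ[F] Y.carrier)

lemma jL_inj (Y : Quad.{u, v} F) {y y' : Y.carrier} (h : jL Y y = jL Y y') : y = y' :=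
  hat_inj Y (congrArg Subtype.val h)

lemma evS_jL (Y : Quad.{u, v} F) (y : Y.carrier) : evS Y (jL Y y) = y := by
  change Y.h 1 y = y
  exact Y.h_one y

lemma eOp_eq (Y : Quad.{u, v} F) (h4 : (4 : F) ≠ 0) (m : (simpleBim Y).carrier) :
    (simpleBim Y).eOp m = jL Y (evS Y m) := by
  obtain ⟨⟨u, v⟩, hm⟩ := m
  apply Subtype.ext
  have h1 := (subtype_isHom (bigN Y) _ ((bigN Y).gen_isSub (Set.range (hat Y)))).eOp
    (⟨(u, v), hm⟩ : (simpleBim Y).carrier)
  refine Eq.trans h1 ?_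
  exact bigN_eOp Y h4 u v

lemma eOp_right_jL (Y : Quad.{u, v} F) (h4 : (4 : F) ≠ 0) (y : Y.carrier) (b : Mat2 F) :
    (simpleBim Y).eOp ((simpleBim Y).right (jL Y y) b) = jL Y (Y.h b y) := by
  rw [eOp_eq Y h4]
  have : evS Y ((simpleBim Y).right (jL Y y) b) = Y.h b y := by
    change Y.h (1 * b) y = Y.h b y
    rw [one_mul]
  rw [this]

lemma left_one_jL (Y : Quad.{u, v} F) (y : Y.carrier) :
    (simpleBim Y).left 1 (jL Y y) = jL Y (y - Y.e y) := by
  apply Subtype.ext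
  exact left_one_hat Y y

lemma iso_of_simple_iso {Y : Quad.{u, v} F} {Y' : Quad.{u, w} F} (h4 : (4 : F) ≠ 0)
    (h : (simpleBim Y).Iso (simpleBim Y')) : Y.Iso Y' := by
  obtain ⟨φ, h1, h2⟩ := h
  have hφ : IsHom (simpleBim Y) (simpleBim Y') φ.toLinearMap := ⟨h1, h2⟩
  have hφ' : IsHom (simpleBim Y') (simpleBim Y) φ.symm.toLinearMap := by
    refine ⟨fun a m => ?_, fun m a => ?_⟩
    · change φ.symm _ = (simpleBim Y).left a (φ.symm m)
      rw [LinearEquiv.symm_apply_eq, h1, LinearEquiv.apply_symm_apply]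
    · change φ.symm _ = (simpleBim Y).right (φ.symm m) a
      rw [LinearEquiv.symm_apply_eq, h2, LinearEquiv.apply_symm_apply]
  have eφ : ∀ m, φ ((simpleBim Y).eOp m) = (simpleBim Y').eOp (φ m) := fun m => hφ.eOp m
  have eφ' : ∀ m, φ.symm ((simpleBim Y').eOp m) = (simpleBim Y).eOp (φ.symm m) :=
    fun m => hφ'.eOp m
  let f : Y.carrier →ₗ[F] Y'.carrier := evS Y' ∘ₗ φ.toLinearMap ∘ₗ jL Y
  let g : Y'.carrier →ₗ[F] Y.carrier := evS Y ∘ₗ φ.symm.toLinearMap ∘ₗ jL Y'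
  have hf : ∀ y, jL Y' (f y) = φ (jL Y y) := by
    intro y
    change jL Y' (evS Y' (φ (jL Y y))) = φ (jL Y y)
    rw [← eOp_eq Y' h4, ← eφ, eOp_eq Y h4, evS_jL]
  have hg : ∀ y, jL Y (g y) = φ.symm (jL Y' y) := by
    intro y
    change jL Y (evS Y (φ.symm (jL Y' y))) = φ.symm (jL Y' y)
    rw [← eOp_eq Y h4, ← eφ', eOp_eq Y' h4, evS_jL]
  have hgf : ∀ y, g (f y) = y := by
    intro y
    apply jL_inj Y
    rw [hg, hf, φ.symm_apply_apply]
  have hfg : ∀ y, f (g y) = y := by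
    intro y
    apply jL_inj Y'
    rw [hf, hg, φ.apply_symm_apply]
  refine ⟨LinearEquiv.ofLinear f g (LinearMap.ext hfg) (LinearMap.ext hgf),
    fun y => ⟨fun a => ?_, ?_⟩⟩
  · change f (Y.h a y) = Y'.h a (f y)
    apply jL_inj Y'
    rw [hf, ← eOp_right_jL Y h4, eφ, h2, ← hf, eOp_right_jL Y' h4]
  · change f (Y.e y) = Y'.e (f y)
    apply jL_inj Y'
    have e1 : jL Y (Y.e y) = jL Y y - (simpleBim Y).left 1 (jL Y y) := by
      rw [left_one_jL, ← map_sub]
      simp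
    have e2 : jL Y' (Y'.e (f y)) = jL Y' (f y) - (simpleBim Y').left 1 (jL Y' (f y)) := by
      rw [left_one_jL, ← map_sub]
      simp
    rw [hf, e1, e2, hf, map_sub, h1]

/-- facts which distinguish the simple bimodules of the family from the exceptional ones -/
lemma simple_fixed (Y : Quad.{u, v} F) (h4 : (4 : F) ≠ 0) (hY : Y.IsIrreducible) :
    ∃ m : (simpleBim Y).carrier, m ≠ 0 ∧ (simpleBim Y).eOp m = m ∧ (simpleBim Y).right m 1 = m := by
  obtain ⟨y, hy⟩ := @exists_ne _ hY.1 (0 : Y.carrier)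
  refine ⟨jL Y y, ?_, ?_, ?_⟩
  · intro h
    apply hy
    apply jL_inj Y
    rw [h, map_zero]
  · rw [eOp_eq Y h4, evS_jL]
  · apply Subtype.ext
    change nright Y (hat Y y) 1 = hat Y y
    simp only [nright, rt_one, hat]

lemma simple_right_mul (Y : Quad.{u, v} F) (m : (simpleBim Y).carrier) (a b : Mat2 F) :
    (simpleBim Y).right ((simpleBim Y).right m b) a = (simpleBim Y).right m (a * b) := by
  apply Subtype.ext
  change nright Y (nright Y m.1 b) a = nright Y m.1 (a * b)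
  simp only [nright, rt_rt]

end Pool.Agent.H581.RA
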