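import Pool.Agent.H581.RA.Red3

/-! Non-isomorphism of the members of the list. -/

namespace Pool.Agent.H581.RA

universe u v w

open Bimodule

variable {F : Type u} [Field F]

lemma Bimodule.Iso.trans {M : Bimodule.{u, v} F} {M' : Bimodule.{u, w} F}
    {M'' : Bimodule.{u, u} F} (h : M.Iso M') (h' : M'.Iso M'') : M.Iso M'' := by
  obtain ⟨φ, h1, h2⟩ := h
  obtain ⟨ψ, h3, h4⟩ := h'
  refine ⟨φ.trans ψ, fun a m => ?_, fun m a => ?_⟩
  · rw [LinearEquiv.trans_apply, LinearEquiv.trans_apply, h1, h3]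
  · rw [LinearEquiv.trans_apply, LinearEquiv.trans_apply, h2, h4]

lemma Bimodule.Iso.rank {M : Bimodule.{u, v} F} {M' : Bimodule.{u, w} F} (h : M.Iso M') :
    Module.finrank F M.carrier = Module.finrank F M'.carrier := by
  obtain ⟨φ, -, -⟩ := h
  exact LinearEquiv.finrank_eq φ

lemma five_good (h2 : (2 : F) ≠ 0) (i : Fin 5) :
    (five F i).IsRightAlternative ∧ (five F i).IsIrreducible := by
  fin_cases i
  · exact ⟨triv_ra F, triv_irr F⟩
  · exact ⟨row_ra F, row_irr F⟩
  · exact ⟨col_ra F, col_irr F⟩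
  · exact ⟨reg_ra F, reg_irr F⟩
  · exact ⟨six_ra F, six_irr F h2⟩

lemma five_rank (i : Fin 5) :
    Module.finrank F (five F i).carrier = (![1, 2, 2, 4, 6] : Fin 5 → ℕ) i := by
  obtain ⟨h1, h2, h3, h4, h5⟩ := dims F
  fin_cases i
  · exact h1
  · exact h2
  · exact h3
  · exact h4
  · exact h5

lemma five_ne (i j : Fin 5) (h : (five F i).Iso (five F j)) : i = j := by
  have hr := h.rank
  rw [five_rank, five_rank] at hr
  fin_cases i <;> fin_cases j <;> first
    | rfl
    | (exfalso; revert hr; decide)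
    | (exfalso; exact row_not_col F h)
    | (exfalso; exact row_not_col F h.symm)

lemma six_eOp (h2 : (2 : F) ≠ 0) (m : (sixBim F).carrier) : (sixBim F).eOp m = 0 := by
  have h4 : (4 : F) ≠ 0 := by
    have : (4 : F) = 2 * 2 := by norm_num
    rw [this]; exact mul_ne_zero h2 h2
  have r1 : ∀ m : Fin 6 → F, sixR F m 1 = m := by
    intro m
    ext i
    fin_cases i <;> simp [sixR]
  have l1 : ∀ m : Fin 6 → F, sixL F 1 m = m := by
    intro m
    ext i
    fin_cases i <;> simp [sixL]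
  have ho : ∀ m : Fin 6 → F, (2 : F) • sixR F (sixL F (mF F) m + sixR F m (mF F)) (mE F) +
      (2 : F) • sixR F (sixL F (mE F) m + sixR F m (mE F)) (mF F) +
      sixR F (sixL F (mH F) m + sixR F m (mH F)) (mH F) = (4 : F) • m := by
    intro m
    ext i
    fin_cases i <;> simp [sixL, sixR, mE, mF, mH] <;> ring
  have r1' : ∀ m : (sixBim F).carrier, (sixBim F).right m 1 = m := r1
  have l1' : ∀ m : (sixBim F).carrier, (sixBim F).left 1 m = m := l1
  have ho' : ∀ m : (sixBim F).carrier, (sixBim F).om m = (4 : F) • m := ho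
  unfold Bimodule.eOp
  rw [r1', l1', ho', smul_smul, inv_mul_cancel₀ h4, one_smul, sub_self]

lemma simple_not_five (h2 : (2 : F) ≠ 0) (Y : Quad.{u, v} F) (hY : Y.IsIrreducible) (i : Fin 5) :
    ¬ (simpleBim Y).Iso (five F i) := by
  have h4 : (4 : F) ≠ 0 := by
    have : (4 : F) = 2 * 2 := by norm_num
    rw [this]; exact mul_ne_zero h2 h2
  rintro ⟨φ, h1, h3⟩
  obtain ⟨m, hm0, hme, hm1⟩ := simple_fixed Y h4 hY
  have hφ0 : φ m ≠ 0 := fun h => hm0 (φ.map_eq_zero_iff.mp h)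
  have hr : ∀ (n : (five F i).carrier) (a b : Mat2 F),
      (five F i).right ((five F i).right n b) a = (five F i).right n (a * b) := by
    intro n a b
    obtain ⟨n, rfl⟩ := φ.surjective n
    rw [← h3, ← h3, ← h3, simple_right_mul]
  have hr1 : (five F i).right (φ m) 1 = φ m := by rw [← h3, hm1]
  fin_cases i
  · exact hφ0 hr1.symm
  · have h5 := hr (![1, 0] : Fin 2 → F) (mF F) (mE F)
    have h6 := congrFun (show Matrix.vecMul (Matrix.vecMul (![1, 0] : Fin 2 → F) (mE F)) (mF F) =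
      Matrix.vecMul (![1, 0] : Fin 2 → F) (mF F * mE F) from h5) 0
    simp [mE, mF, Matrix.vecMul, dotProduct, Fin.sum_univ_two, Matrix.mul_apply] at h6
  · exact hφ0 hr1.symm
  · have h5 := hr (1 : Mat2 F) (mF F) (mE F)
    have h6 : (1 : Mat2 F) * mE F * mF F = 1 * (mF F * mE F) := h5
    have h7 := congrFun (congrFun h6 0) 0
    simp [mE, mF] at h7
  · have hom : IsHom (simpleBim Y) (sixBim F) φ.toLinearMap := ⟨h1, h3⟩
    have h5 := hom.eOp m
    rw [hme, six_eOp h2] at h5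
    exact hφ0 h5

/-! Translation to the definitions of the statement. -/

lemma rightAlternative_iff (M : Bimodule.{u, v} F) :
    M.RightAlternative ↔ M.IsRightAlternative := Iff.rfl

lemma bim_irreducible_iff (M : Bimodule.{u, v} F) : M.Irreducible ↔ M.IsIrreducible := Iff.rfl

lemma quad_irreducible_iff (Y : Quad.{u, v} F) : Y.Irreducible ↔ Y.IsIrreducible := Iff.rfl

lemma isomorphic_iff (M : Bimodule.{u, v} F) (M' : Bimodule.{u, w} F) :
    M.Isomorphic M' ↔ M.Iso M' := by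
  constructor
  · rintro ⟨φ, hl, hb, h1, h2⟩
    exact ⟨LinearEquiv.ofBijective (IsLinearMap.mk' φ hl) hb, h1, h2⟩
  · rintro ⟨φ, h1, h2⟩
    exact ⟨φ, ⟨map_add φ, map_smul φ⟩, φ.bijective, h1, h2⟩

lemma quad_isomorphic_iff (Y : Quad.{u, v} F) (Y' : Quad.{u, w} F) :
    Y.Isomorphic Y' ↔ Y.Iso Y' := by
  constructor
  · rintro ⟨φ, hl, hb, h1⟩
    exact ⟨LinearEquiv.ofBijective (IsLinearMap.mk' φ hl) hb, h1⟩
  · rintro ⟨φ, h1⟩
    exact ⟨φ, ⟨map_add φ, map_smul φ⟩, φ.bijective, h1⟩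

lemma exceptional_eq : exceptional F = five F := rfl

lemma pairs_eq (Y : Quad.{u, v} F) : Y.pairs = bigN Y := rfl

lemma bimodule_eq (Y : Quad.{u, v} F) : Y.bimodule = simpleBim Y := rfl

end Pool.Agent.H581.RA
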