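import Pool.Agent.H581.RA.Base

/-! The five exceptional bimodules: right alternative, irreducible, pairwise not isomorphic. -/

namespace Pool.Agent.H581.RA

universe u v w

variable (F : Type u) [Field F]

namespace Fivex

variable {F}

lemma top_of_single {n : ℕ} (N : Submodule F (Fin n → F)) (h : ∀ j, Pi.single j (1 : F) ∈ N) :
    N = ⊤ := by
  classical
  rw [eq_top_iff]
  intro w _
  have e : w = ∑ j, w j • (Pi.single j (1 : F) : Fin n → F) := by
    funext i
    rw [Finset.sum_apply, Finset.sum_eq_single i]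
    · simp
    · intro j _ hj
      rw [Pi.smul_apply, Pi.single_eq_of_ne (Ne.symm hj), smul_zero]
    · intro hi
      exact absurd (Finset.mem_univ i) hi
  rw [e]
  exact Submodule.sum_mem _ fun j _ => Submodule.smul_mem _ _ (h j)

/-- a nonzero subspace of the space of vectors has a vector with a nonzero entry -/
lemma exists_ne {n : ℕ} (N : Submodule F (Fin n → F)) (h : N ≠ ⊥) : ∃ v ∈ N, ∃ i, v i ≠ 0 := by
  obtain ⟨v, hv, hv0⟩ := (Submodule.ne_bot_iff N).1 h
  exact ⟨v, hv, Function.ne_iff.1 hv0⟩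

end Fivex

open Fivex

theorem triv_ra : (trivBim F).IsRightAlternative := by
  rw [Bimodule.ra_iff]
  refine ⟨fun m b => rfl, fun a b m => ?_⟩
  change (0 : F) = 0 - 0
  rw [sub_zero]

theorem triv_irr : (trivBim F).IsIrreducible := by
  refine ⟨inferInstanceAs (Nontrivial F), fun N _ => ?_⟩
  exact eq_bot_or_eq_top (α := Submodule F F) N

theorem row_ra : (rowBim F).IsRightAlternative := by
  rw [Bimodule.ra_iff]
  refine ⟨fun m b => ?_, fun a b m => ?_⟩
  · change Matrix.vecMul (Matrix.vecMul m b) b = Matrix.vecMul m (b * b)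
    rw [Matrix.vecMul_vecMul]
  · change Matrix.vecMul (0 : Fin 2 → F) b = (0 : Fin 2 → F) - 0
    rw [Matrix.zero_vecMul, sub_zero]

theorem row_irr : (rowBim F).IsIrreducible := by
  classical
  refine ⟨inferInstanceAs (Nontrivial (Fin 2 → F)), fun N hN => ?_⟩
  by_cases h : N = ⊥
  · exact Or.inl h
  · right
    obtain ⟨v, hv, i, hi⟩ := exists_ne (n := 2) N h
    refine top_of_single (n := 2) N fun j => ?_
    have h1 := (hN (Matrix.single i j (v i)⁻¹) v hv).2
    have h2 : Matrix.vecMul v (Matrix.single i j (v i)⁻¹) = Pi.single j (1 : F) := by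
      funext k
      rw [Matrix.vecMul, dotProduct, Finset.sum_eq_single i]
      · by_cases hk : k = j
        · subst hk
          rw [Matrix.single_apply_same, Pi.single_eq_same, mul_inv_cancel₀ hi]
        · rw [Matrix.single_apply_of_ne _ _ _ _ _ (fun h => hk h.2.symm), Pi.single_eq_of_ne hk,
            mul_zero]
      · intro l _ hl
        rw [Matrix.single_apply_of_ne _ _ _ _ _ (fun h => hl h.1.symm), mul_zero]
      · intro h
        exact absurd (Finset.mem_univ i) h
    rw [← h2]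
    exact h1

theorem col_ra : (colBim F).IsRightAlternative := by
  rw [Bimodule.ra_iff]
  refine ⟨fun m b => rfl, fun a b m => ?_⟩
  change (0 : Fin 2 → F) = Matrix.mulVec a (Matrix.mulVec b m + 0) - Matrix.mulVec (a * b) m
  rw [add_zero, Matrix.mulVec_mulVec, sub_self]

theorem col_irr : (colBim F).IsIrreducible := by
  classical
  refine ⟨inferInstanceAs (Nontrivial (Fin 2 → F)), fun N hN => ?_⟩
  by_cases h : N = ⊥
  · exact Or.inl h
  · right
    obtain ⟨v, hv, i, hi⟩ := exists_ne (n := 2) N h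
    refine top_of_single (n := 2) N fun j => ?_
    have h1 := (hN (Matrix.single j i (v i)⁻¹) v hv).1
    have h2 : Matrix.mulVec (Matrix.single j i (v i)⁻¹) v = Pi.single j (1 : F) := by
      funext k
      rw [Matrix.mulVec, dotProduct, Finset.sum_eq_single i]
      · by_cases hk : k = j
        · subst hk
          rw [Matrix.single_apply_same, Pi.single_eq_same, inv_mul_cancel₀ hi]
        · rw [Matrix.single_apply_of_ne _ _ _ _ _ (fun h => hk h.1.symm), Pi.single_eq_of_ne hk,
            zero_mul]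
      · intro l _ hl
        rw [Matrix.single_apply_of_ne _ _ _ _ _ (fun h => hl h.2.symm), zero_mul]
      · intro h
        exact absurd (Finset.mem_univ i) h
    rw [← h2]
    exact h1

theorem reg_ra : (regBim F).IsRightAlternative := by
  have h1 : ∀ m b : Mat2 F, m * b * b = m * (b * b) := fun m b => mul_assoc m b b
  have h2 : ∀ a b m : Mat2 F, a * m * b = a * (b * m + m * b) - a * b * m := fun a b m => by
    rw [mul_add, mul_assoc, mul_assoc, add_sub_cancel_left]
  rw [Bimodule.ra_iff]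
  exact ⟨h1, h2⟩

theorem reg_irr : (regBim F).IsIrreducible := by
  classical
  refine ⟨inferInstanceAs (Nontrivial (Mat2 F)), fun N hN => ?_⟩
  by_cases h : N = ⊥
  · exact Or.inl h
  · right
    obtain ⟨A, hA, i, j, hij⟩ : ∃ A : Mat2 F, A ∈ (N : Submodule F (Mat2 F)) ∧ ∃ i j, A i j ≠ 0 := by
      obtain ⟨A, hA, hA0⟩ := (Submodule.ne_bot_iff N).1 h
      refine ⟨A, hA, ?_⟩
      by_contra hcon
      push Not at hcon
      exact hA0 (Matrix.ext hcon)
    have key : ∀ k l, (Matrix.single k l (1 : F) : Mat2 F) ∈ (N : Submodule F (Mat2 F)) := by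
      intro k l
      have h1 := (hN (Matrix.single k i (A i j)⁻¹) A hA).1
      have h2 := (hN (Matrix.single j l (1 : F)) _ h1).2
      have h3 : (Matrix.single k i (A i j)⁻¹ * A * Matrix.single j l (1 : F) : Mat2 F) =
          Matrix.single k l (1 : F) := by
        rw [Matrix.single_mul_mul_single, inv_mul_cancel₀ hij, one_mul]
      rw [← h3]
      exact h2
    rw [eq_top_iff]
    intro B _
    have e : (B : Mat2 F) = ∑ k, ∑ l, B k l • (Matrix.single k l (1 : F) : Mat2 F) := by
      conv_lhs => rw [Matrix.matrix_eq_sum_single B]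
      refine Finset.sum_congr rfl fun k _ => Finset.sum_congr rfl fun l _ => ?_
      rw [Matrix.smul_single, smul_eq_mul, mul_one]
    have h4 : (∑ k, ∑ l, B k l • (Matrix.single k l (1 : F) : Mat2 F)) ∈
        (N : Submodule F (Mat2 F)) :=
      Submodule.sum_mem _ fun k _ => Submodule.sum_mem _ fun l _ => Submodule.smul_mem _ _ (key k l)
    rw [← e] at h4
    exact h4

theorem six_ra : (sixBim F).IsRightAlternative := by
  rw [Bimodule.ra_iff]
  refine ⟨fun m b => ?_, fun a b m => ?_⟩
  · change sixR F (sixR F m b) b = sixR F m (b * b)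
    ext i
    fin_cases i <;> simp [sixR, Matrix.mul_apply, Fin.sum_univ_two] <;> ring
  · change sixR F (sixL F a m) b = sixL F a (sixL F b m + sixR F m b) - sixL F (a * b) m
    ext i
    fin_cases i <;> simp [sixR, sixL, Matrix.mul_apply, Fin.sum_univ_two] <;> ring

namespace Fivex

variable {F}

section
variable {N : Submodule F (Fin 6 → F)} (hN : (sixBim F).IsSubBimodule N)
include hN

lemma six_T (a : Mat2 F) {m : Fin 6 → F} (hm : m ∈ N) : sixL F a m + sixR F m a ∈ N :=
  Submodule.add_mem _ (hN a m hm).1 (hN a m hm).2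

lemma six_E {m : Fin 6 → F} (hm : m ∈ N) : ![-2 * m 2, -2 * m 3, m 4, m 5, 0, 0] ∈ N := by
  have h := six_T hN (mE F) hm
  have e : sixL F (mE F) m + sixR F m (mE F) = ![-2 * m 2, -2 * m 3, m 4, m 5, 0, 0] := by
    ext i
    fin_cases i <;> simp [sixL, sixR, mE] <;> ring
  rw [e] at h
  exact h

lemma six_F {m : Fin 6 → F} (hm : m ∈ N) : ![0, 0, -m 0, -m 1, 2 * m 2, 2 * m 3] ∈ N := by
  have h := six_T hN (mF F) hm
  have e : sixL F (mF F) m + sixR F m (mF F) = ![0, 0, -m 0, -m 1, 2 * m 2, 2 * m 3] := by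
    ext i
    fin_cases i <;> simp [sixL, sixR, mF] <;> ring
  rw [e] at h
  exact h

lemma six_H {m : Fin 6 → F} (hm : m ∈ N) : ![2 * m 0, 2 * m 1, 0, 0, -2 * m 4, -2 * m 5] ∈ N := by
  have h := six_T hN (mH F) hm
  have e : sixL F (mH F) m + sixR F m (mH F) = ![2 * m 0, 2 * m 1, 0, 0, -2 * m 4, -2 * m 5] := by
    ext i
    fin_cases i <;> simp [sixL, sixR, mH] <;> ring
  rw [e] at h
  exact h

lemma six_R {m : Fin 6 → F} (hm : m ∈ N) : ![m 1, 0, 0, -m 1, m 2, m 3 + m 0] ∈ N := by
  have h := (hN (mF F) m hm).2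
  have e : sixR F m (mF F) = ![m 1, 0, 0, -m 1, m 2, m 3 + m 0] := by
    ext i
    fin_cases i <;> simp [sixR, mF]
  rw [← e]
  exact h

/-- from `(p, 0, 0)` to `((0, p_1), 0, 0)` -/
lemma six_a (h2 : (2 : F) ≠ 0) {p q : F} (hm : ![p, q, 0, 0, 0, 0] ∈ N) (hp : p ≠ 0) :
    ![0, 1, 0, 0, 0, 0] ∈ N := by
  have h := six_E hN (six_E hN (six_R hN hm))
  have h3 := Submodule.smul_mem N (-(2 * p)⁻¹) h
  refine Eq.mp (congrArg (fun v => v ∈ N) ?_) h3
  ext i
  fin_cases i <;> simp
  field_simp

/-- from `(p, 0, 0)` to `((p_2, 0), 0, 0)` -/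
lemma six_b (h2 : (2 : F) ≠ 0) {p q : F} (hm : ![p, q, 0, 0, 0, 0] ∈ N) (hq : q ≠ 0) :
    ![1, 0, 0, 0, 0, 0] ∈ N := by
  have h := six_H hN (six_R hN hm)
  have h3 := Submodule.smul_mem N (8 * q)⁻¹ (Submodule.add_mem _ (Submodule.smul_mem N 2 h) (six_H hN h))
  have h8 : (8 : F) ≠ 0 := by
    have : (8 : F) = 2 ^ 3 := by norm_num
    rw [this]
    exact pow_ne_zero 3 h2
  refine Eq.mp (congrArg (fun v => v ∈ N) ?_) h3
  ext i
  fin_cases i <;> simp
  field_simp
  ring

/-- the first two coordinate vectors generate everything -/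
lemma six_top (h2 : (2 : F) ≠ 0) (h0 : ![1, 0, 0, 0, 0, 0] ∈ N) (h1 : ![0, 1, 0, 0, 0, 0] ∈ N) :
    N = ⊤ := by
  have e2 : ![0, 0, 1, 0, 0, 0] ∈ N := by
    refine Eq.mp (congrArg (fun v => v ∈ N) ?_) (Submodule.smul_mem N (-1) (six_F hN h0))
    ext i
    fin_cases i <;> simp
  have e3 : ![0, 0, 0, 1, 0, 0] ∈ N := by
    refine Eq.mp (congrArg (fun v => v ∈ N) ?_) (Submodule.smul_mem N (-1) (six_F hN h1))
    ext i
    fin_cases i <;> simp
  have e4 : ![0, 0, 0, 0, 1, 0] ∈ N := by
    refine Eq.mp (congrArg (fun v => v ∈ N) ?_) (Submodule.smul_mem N (2 : F)⁻¹ (six_F hN e2))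
    ext i
    fin_cases i <;> simp [h2]
  have e5 : ![0, 0, 0, 0, 0, 1] ∈ N := by
    refine Eq.mp (congrArg (fun v => v ∈ N) ?_) (Submodule.smul_mem N (2 : F)⁻¹ (six_F hN e3))
    ext i
    fin_cases i <;> simp [h2]
  refine top_of_single N fun j => ?_
  have hh : ∀ j : Fin 6, (Pi.single j (1 : F) : Fin 6 → F) =
      (![![1, 0, 0, 0, 0, 0], ![0, 1, 0, 0, 0, 0], ![0, 0, 1, 0, 0, 0], ![0, 0, 0, 1, 0, 0],
        ![0, 0, 0, 0, 1, 0], ![0, 0, 0, 0, 0, 1]] : Fin 6 → Fin 6 → F) j := by
    intro j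
    ext i
    fin_cases j <;> fin_cases i <;> simp
  rw [hh]
  fin_cases j
  exacts [h0, h1, e2, e3, e4, e5]

end

end Fivex

theorem six_irr (h2 : (2 : F) ≠ 0) : (sixBim F).IsIrreducible := by
  classical
  refine ⟨inferInstanceAs (Nontrivial (Fin 6 → F)), fun N hN => ?_⟩
  by_cases h : N = ⊥
  · exact Or.inl h
  · right
    obtain ⟨m, hm, i, hi⟩ := exists_ne (n := 6) N h
    -- a nonzero vector `(p, 0, 0)`
    have key : ∃ p q : F, (p ≠ 0 ∨ q ≠ 0) ∧ ![p, q, 0, 0, 0, 0] ∈ (N : Submodule F (Fin 6 → F)) := by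
      have hn2 : (-2 : F) ≠ 0 := neg_ne_zero.2 h2
      by_cases h4 : m 4 ≠ 0 ∨ m 5 ≠ 0
      · refine ⟨-2 * m 4, -2 * m 5, ?_, ?_⟩
        · rcases h4 with h4 | h4
          · exact Or.inl (mul_ne_zero hn2 h4)
          · exact Or.inr (mul_ne_zero hn2 h4)
        · refine Eq.mp (congrArg (fun v : Fin 6 → F => v ∈ (N : Submodule F (Fin 6 → F))) ?_)
            (six_E hN (six_E hN hm))
          funext i
          fin_cases i <;> simp
      · push Not at h4
        obtain ⟨h4, h5⟩ := h4
        by_cases h3 : m 2 ≠ 0 ∨ m 3 ≠ 0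
        · refine ⟨-2 * m 2, -2 * m 3, ?_, ?_⟩
          · rcases h3 with h3 | h3
            · exact Or.inl (mul_ne_zero hn2 h3)
            · exact Or.inr (mul_ne_zero hn2 h3)
          · refine Eq.mp (congrArg (fun v : Fin 6 → F => v ∈ (N : Submodule F (Fin 6 → F))) ?_)
              (six_E hN hm)
            funext i
            fin_cases i <;> simp [h4, h5]
        · push Not at h3
          obtain ⟨h2', h3'⟩ := h3
          refine ⟨m 0, m 1, ?_, ?_⟩
          · by_contra hcon
            push Not at hcon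
            apply hi
            fin_cases i
            exacts [hcon.1, hcon.2, h2', h3', h4, h5]
          · refine Eq.mp (congrArg (fun v : Fin 6 → F => v ∈ (N : Submodule F (Fin 6 → F))) ?_) hm
            funext i
            fin_cases i <;> simp [h2', h3', h4, h5]
    obtain ⟨p, q, hpq, hv⟩ := key
    by_cases hp : p = 0
    · have hq : q ≠ 0 := by
        rcases hpq with h | h
        · exact absurd hp h
        · exact h
      have k0 := six_b hN h2 hv hq
      exact six_top hN h2 k0 (six_a hN h2 k0 one_ne_zero)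
    · have k1 := six_a hN h2 hv hp
      exact six_top hN h2 (six_b hN h2 k1 one_ne_zero) k1

theorem dims : Module.finrank F (trivBim F).carrier = 1 ∧ Module.finrank F (rowBim F).carrier = 2 ∧
    Module.finrank F (colBim F).carrier = 2 ∧ Module.finrank F (regBim F).carrier = 4 ∧
    Module.finrank F (sixBim F).carrier = 6 := by
  refine ⟨Module.finrank_self F, Module.finrank_fin_fun F, Module.finrank_fin_fun F, ?_,
    Module.finrank_fin_fun F⟩
  change Module.finrank F (Matrix (Fin 2) (Fin 2) F) = 4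
  rw [Module.finrank_matrix]
  simp

theorem row_not_col : ¬ (rowBim F).Iso (colBim F) := by
  rintro ⟨φ, h1, -⟩
  have h : ∀ m, φ m = 0 := by
    intro m
    have h3 := h1 1 m
    change φ 0 = Matrix.mulVec (1 : Mat2 F) (φ m) at h3
    rw [map_zero, Matrix.one_mulVec] at h3
    exact h3.symm
  have h4 := h (φ.symm (fun _ => (1 : F)))
  rw [LinearEquiv.apply_symm_apply] at h4
  exact one_ne_zero (congrFun h4 (0 : Fin 2))

end Pool.Agent.H581.RA
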