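import Pool.Agent.H581.RA.Base

/-! Unital bimodules of the second kind without invariants contain the six-dimensional one. -/

namespace Pool.Agent.H581.RA

universe u v w

namespace SixUx

section rels

variable {F : Type u} [Field F] {V : Type v} [AddCommGroup V] [Module F V]

/-- the relations between the operators -/
structure Rels (RE RF RH TE TF TH : V →ₗ[F] V) : Prop where
  two : (2 : F) ≠ 0
  ree : ∀ w, RE (RE w) = 0
  rff : ∀ w, RF (RF w) = 0
  rhh : ∀ w, RH (RH w) = w
  r_ef : ∀ w, (2 : F) • RE (RF w) = w + RH w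
  reh : ∀ w, RE (RH w) = -RE w
  rhf : ∀ w, RH (RF w) = -RF w
  kee : ∀ w, TE (TE w) = (2 : F) • RE (TE w)
  kff : ∀ w, TF (TF w) = (2 : F) • RF (TF w)
  khh : ∀ w, TH (TH w) = (2 : F) • RH (TH w)
  kef : ∀ w, (2 : F) • TE (TF w) = (2 : F) • RE (TF w) + (2 : F) • RF (TE w) + TH w
  kfe : ∀ w, (2 : F) • TF (TE w) = (2 : F) • RE (TF w) + (2 : F) • RF (TE w) - TH w
  khf : ∀ w, TH (TF w) = RH (TF w) + RF (TH w) - TF w
  kfh : ∀ w, TF (TH w) = RH (TF w) + RF (TH w) + TF w
  ho : ∀ w, (2 : F) • RE (TF w) + (2 : F) • RF (TE w) + RH (TH w) = (4 : F) • w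

variable {RE RF RH TE TF TH : V →ₗ[F] V}

theorem cancel {c : F} (hc : c ≠ 0) {x y : V} (h : c • x = c • y) : x = y :=
  smul_right_injective V hc h

theorem Rels.four (r : Rels RE RF RH TE TF TH) : (4 : F) ≠ 0 := by
  have : (4 : F) = 2 * 2 := by norm_num
  rw [this]
  exact mul_ne_zero r.two r.two

theorem Rels.eight (r : Rels RE RF RH TE TF TH) : (8 : F) ≠ 0 := by
  have : (8 : F) = 2 * 4 := by norm_num
  rw [this]
  exact mul_ne_zero r.two r.four

theorem Rels.cEF (r : Rels RE RF RH TE TF TH) (w : V) : TE (TF w) = TF (TE w) + TH w := by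
  apply cancel r.two
  rw [smul_add, r.kef, r.kfe]
  module

theorem Rels.cHF (r : Rels RE RF RH TE TF TH) (w : V) :
    TH (TF w) = TF (TH w) - (2 : F) • TF w := by
  rw [r.khf, r.kfh]
  module

theorem Rels.pTH (r : Rels RE RF RH TE TF TH) {p : V} (hp : TE p = 0) : TH p = (2 : F) • p := by
  have e1 : (2 : F) • RE (TF p) = TH p := by
    have := r.kfe p
    rw [hp, map_zero, map_zero, smul_zero] at this
    linear_combination (norm := module) -this
  have e2 : RH (TH p) = (4 : F) • p - TH p := by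
    have := r.ho p
    rw [hp, map_zero, smul_zero, e1] at this
    linear_combination (norm := module) this
  have e3 : TH (TH p) = (8 : F) • p - (2 : F) • TH p := by
    rw [r.khh, e2]
    module
  have e4 : TH (TH (TH p)) = (4 : F) • TH p := by
    rw [r.khh, r.khh, map_smul, r.rhh]
    module
  have e5 : TH (TH (TH p)) = (12 : F) • TH p - (16 : F) • p := by
    rw [e3, map_sub, map_smul, map_smul, e3]
    module
  apply cancel r.eight
  rw [e4] at e5
  linear_combination (norm := module) -e5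

theorem Rels.pRH (r : Rels RE RF RH TE TF TH) {p : V} (hp : TE p = 0) : RH p = p := by
  have h1 := r.khh p
  rw [r.pTH hp, map_smul, map_smul, r.pTH hp] at h1
  apply cancel r.four
  linear_combination (norm := module) -h1

theorem Rels.pRE (r : Rels RE RF RH TE TF TH) {p : V} (hp : TE p = 0) : RE p = 0 := by
  have h1 := r.reh p
  rw [r.pRH hp] at h1
  apply cancel r.two
  linear_combination (norm := module) h1

theorem Rels.pREF (r : Rels RE RF RH TE TF TH) {p : V} (hp : TE p = 0) : RE (TF p) = p := by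
  have h1 := r.kfe p
  rw [hp, map_zero, map_zero, r.pTH hp] at h1
  apply cancel r.two
  linear_combination (norm := module) -h1

theorem Rels.pEF (r : Rels RE RF RH TE TF TH) {p : V} (hp : TE p = 0) :
    TE (TF p) = (2 : F) • p := by
  rw [r.cEF, hp, map_zero, r.pTH hp, zero_add]

theorem Rels.pRHF (r : Rels RE RF RH TE TF TH) {p : V} (hp : TE p = 0) :
    RH (TF p) = TF p - (2 : F) • RF p := by
  have h1 := r.kfh p
  rw [r.pTH hp, map_smul, map_smul] at h1
  linear_combination (norm := module) -h1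

theorem Rels.pHF (r : Rels RE RF RH TE TF TH) {p : V} (hp : TE p = 0) : TH (TF p) = 0 := by
  rw [r.cHF, r.pTH hp, map_smul]
  module

theorem Rels.pHFF (r : Rels RE RF RH TE TF TH) {p : V} (hp : TE p = 0) :
    TH (TF (TF p)) = -((2 : F) • TF (TF p)) := by
  rw [r.cHF, r.pHF hp, map_zero, zero_sub]

theorem Rels.pEFF (r : Rels RE RF RH TE TF TH) {p : V} (hp : TE p = 0) :
    TE (TF (TF p)) = (2 : F) • TF p := by
  rw [r.cEF, r.pHF hp, r.pEF hp, map_smul, add_zero]

theorem Rels.pRFFF (r : Rels RE RF RH TE TF TH) (p : V) : RF (TF (TF p)) = 0 := by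
  rw [r.kff, map_smul, r.rff, smul_zero]

theorem Rels.pFFF (r : Rels RE RF RH TE TF TH) (p : V) : TF (TF (TF p)) = 0 := by
  rw [r.kff, r.pRFFF, smul_zero]

theorem Rels.pREFF (r : Rels RE RF RH TE TF TH) {p : V} (hp : TE p = 0) :
    RE (TF (TF p)) = (2 : F) • TF p - (2 : F) • RF p := by
  have h1 := r.kef (TF p)
  rw [r.pEFF hp, r.pEF hp, r.pHF hp, map_smul] at h1
  apply cancel r.two
  linear_combination (norm := module) -h1

theorem Rels.pRHFF (r : Rels RE RF RH TE TF TH) {p : V} (hp : TE p = 0) :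
    RH (TF (TF p)) = -TF (TF p) := by
  have h1 := r.khf (TF p)
  rw [r.pHFF hp, r.pHF hp, map_zero] at h1
  linear_combination (norm := module) -h1

theorem Rels.eee (r : Rels RE RF RH TE TF TH) (m : V) : TE (TE (TE m)) = 0 := by
  rw [r.kee, r.kee, map_smul, r.ree, smul_zero, smul_zero]

theorem Rels.decomp (r : Rels RE RF RH TE TF TH) (m : V) : ∃ m2 m0 m1, TE m2 = 0 ∧ TE m0 = 0 ∧
    TE m1 = 0 ∧ m = m2 + TF m0 + TF (TF m1) := by
  obtain ⟨m1, hm1⟩ : ∃ m1, (4 : F) • m1 = TE (TE m) :=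
    ⟨(4 : F)⁻¹ • TE (TE m), smul_inv_smul₀ r.four _⟩
  have t1 : TE m1 = 0 := by
    apply cancel r.four
    rw [← map_smul, hm1, r.eee, smul_zero]
  obtain ⟨m', hm'⟩ : ∃ m', m' = m - TF (TF m1) := ⟨_, rfl⟩
  have hE : TE (TE m') = 0 := by
    rw [hm', map_sub, map_sub, r.pEFF t1, map_smul, r.pEF t1, ← hm1]
    module
  obtain ⟨m0, hm0⟩ : ∃ m0, (2 : F) • m0 = TE m' :=
    ⟨(2 : F)⁻¹ • TE m', smul_inv_smul₀ r.two _⟩
  have t0 : TE m0 = 0 := by
    apply cancel r.two
    rw [← map_smul, hm0, hE, smul_zero]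
  refine ⟨m' - TF m0, m0, m1, ?_, t0, t1, ?_⟩
  · rw [map_sub, r.pEF t0, hm0, sub_self]
  · rw [hm']
    module

/-- the two vectors which generate the six-dimensional bimodule -/
theorem Rels.key [Nontrivial V] (r : Rels RE RF RH TE TF TH) : ∃ p1 p2 : V, p2 ≠ 0 ∧
    TE p1 = 0 ∧ TE p2 = 0 ∧ RF p2 = TF p2 + p1 := by
  obtain ⟨p, hp0, hp⟩ : ∃ p : V, p ≠ 0 ∧ TE p = 0 := by
    by_contra hcon
    push Not at hcon
    obtain ⟨m, hm⟩ := exists_ne (0 : V)
    obtain ⟨m2, m0, m1, e2, e0, e1, e⟩ := r.decomp m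
    have z2 : m2 = 0 := by
      by_contra h
      exact hcon m2 h e2
    have z0 : m0 = 0 := by
      by_contra h
      exact hcon m0 h e0
    have z1 : m1 = 0 := by
      by_contra h
      exact hcon m1 h e1
    apply hm
    rw [e, z2, z0, z1]
    simp
  -- reduction: it is enough to find `p2` in `P` with `TF p2 - RF p2` in `P`
  suffices h : ∃ p2 : V, p2 ≠ 0 ∧ TE p2 = 0 ∧ TE (TF p2 - RF p2) = 0 by
    obtain ⟨p2, h1, h2, h3⟩ := h
    refine ⟨-(TF p2 - RF p2), p2, h1, ?_, h2, by abel⟩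
    rw [map_neg, h3, neg_zero]
  obtain ⟨f2, a, b, ef, ea, eb, e⟩ := r.decomp ((2 : F) • RF p - TF p)
  have hRE : p = a + (2 : F) • (TF b - RF b) := by
    have h1 := congrArg RE e
    rw [map_sub, map_smul, r.r_ef, r.pRH hp, r.pREF hp, map_add, map_add, r.pRE ef, r.pREF ea,
      r.pREFF eb] at h1
    linear_combination (norm := module) h1
  by_cases hb : b = 0
  · have ha : a = p := by
      rw [hRE, hb]
      simp
    rw [hb, map_zero, map_zero, add_zero, ha] at e
    have h1 := congrArg RH e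
    rw [map_sub, map_smul, r.rhf, r.pRHF hp, map_add, r.pRH ef, r.pRHF hp] at h1
    have hf : f2 = -((2 : F) • (TF p - RF p)) := by
      linear_combination (norm := module) -h1
    refine ⟨p, hp0, hp, ?_⟩
    apply cancel r.two
    rw [← map_smul, smul_zero]
    have : (2 : F) • (TF p - RF p) = -f2 := by rw [hf, neg_neg]
    rw [this, map_neg, ef, neg_zero]
  · refine ⟨b, hb, eb, ?_⟩
    apply cancel r.two
    rw [← map_smul, smul_zero]
    have : (2 : F) • (TF b - RF b) = p - a := by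
      linear_combination (norm := module) -hRE
    rw [this, map_sub, hp, ea, sub_self]

end rels

end SixUx

open SixUx in
theorem six_case {F : Type u} [Field F] (h2 : (2 : F) ≠ 0) {V : Type v} [AddCommGroup V]
    [Module F V] [Nontrivial V] (L R : Mat2 F →ₗ[F] V →ₗ[F] V)
    (r1 : ∀ m, R 1 m = m) (l1 : ∀ m, L 1 m = m)
    (rr : ∀ a b m, R a (R b m) = R (a * b) m)
    (rl : ∀ a b m, R b (L a m) = L a (L b m + R b m) - L (a * b) m)
    (hO : ∀ m, (2 : F) • R (mE F) (L (mF F) m + R (mF F) m) +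
      (2 : F) • R (mF F) (L (mE F) m + R (mE F) m) +
      R (mH F) (L (mH F) m + R (mH F) m) = (4 : F) • m) :
    ∃ φ : (Fin 6 → F) →ₗ[F] V, φ ≠ 0 ∧
      ∀ a m, φ (sixL F a m) = L a (φ m) ∧ φ (sixR F m a) = R a (φ m) := by
  -- products of the matrix units
  have mEE : mE F * mE F = 0 := by
    ext i j; fin_cases i <;> fin_cases j <;> simp [mE, Matrix.mul_apply, Fin.sum_univ_two]
  have mFF : mF F * mF F = 0 := by
    ext i j; fin_cases i <;> fin_cases j <;> simp [mF, Matrix.mul_apply, Fin.sum_univ_two]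
  have mHH : mH F * mH F = 1 := by
    ext i j; fin_cases i <;> fin_cases j <;> simp [mH, Matrix.mul_apply, Fin.sum_univ_two]
  have mEF : (2 : F) • (mE F * mF F) = 1 + mH F := by
    ext i j; fin_cases i <;> fin_cases j <;>
      simp [mE, mF, mH, Matrix.mul_apply, Fin.sum_univ_two] <;> norm_num
  have mFE : (2 : F) • (mF F * mE F) = 1 - mH F := by
    ext i j; fin_cases i <;> fin_cases j <;>
      simp [mE, mF, mH, Matrix.mul_apply, Fin.sum_univ_two] <;> norm_num
  have mHE : mH F * mE F = mE F := by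
    ext i j; fin_cases i <;> fin_cases j <;> simp [mE, mH, Matrix.mul_apply, Fin.sum_univ_two]
  have mEH : mE F * mH F = -mE F := by
    ext i j; fin_cases i <;> fin_cases j <;> simp [mE, mH, Matrix.mul_apply, Fin.sum_univ_two]
  have mHF : mH F * mF F = -mF F := by
    ext i j; fin_cases i <;> fin_cases j <;> simp [mF, mH, Matrix.mul_apply, Fin.sum_univ_two]
  have mFH : mF F * mH F = mF F := by
    ext i j; fin_cases i <;> fin_cases j <;> simp [mF, mH, Matrix.mul_apply, Fin.sum_univ_two]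
  -- the relation (K)
  have K : ∀ (a b : Mat2 F) (w : V), (L a + R a) ((L b + R b) w) =
      R a ((L b + R b) w) + R b ((L a + R a) w) - R (b * a) w + (L (a * b) + R (a * b)) w -
      R (a * b) w := by
    intro a b w
    have h1 := rl a b w
    simp only [LinearMap.add_apply] at h1 ⊢
    rw [map_add (R b), rr b a w]
    linear_combination (norm := module) -h1
  have T1 : ∀ w, (L 1 + R 1) w = (2 : F) • w := by
    intro w
    rw [LinearMap.add_apply, r1, l1]
    module
  have r : Rels (R (mE F)) (R (mF F)) (R (mH F)) (L (mE F) + R (mE F)) (L (mF F) + R (mF F))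
      (L (mH F) + R (mH F)) := by
    refine ⟨h2, ?_, ?_, ?_, ?_, ?_, ?_, ?_, ?_, ?_, ?_, ?_, ?_, ?_, ?_⟩
    · intro w
      rw [rr, mEE, map_zero, LinearMap.zero_apply]
    · intro w
      rw [rr, mFF, map_zero, LinearMap.zero_apply]
    · intro w
      rw [rr, mHH, r1]
    · intro w
      rw [rr, ← LinearMap.smul_apply, ← map_smul, mEF, map_add, LinearMap.add_apply, r1]
    · intro w
      rw [rr, mEH, map_neg, LinearMap.neg_apply]
    · intro w
      rw [rr, mHF, map_neg, LinearMap.neg_apply]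
    · intro w
      rw [K, mEE]
      simp only [map_zero, LinearMap.zero_apply, add_zero, sub_zero]
      module
    · intro w
      rw [K, mFF]
      simp only [map_zero, LinearMap.zero_apply, add_zero, sub_zero]
      module
    · intro w
      rw [K, mHH, T1, r1]
      module
    · intro w
      have e1 : (2 : F) • R (mF F * mE F) w = w - R (mH F) w := by
        rw [← LinearMap.smul_apply, ← map_smul, mFE, map_sub, LinearMap.sub_apply, r1]
      have e2 : (2 : F) • R (mE F * mF F) w = w + R (mH F) w := by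
        rw [← LinearMap.smul_apply, ← map_smul, mEF, map_add, LinearMap.add_apply, r1]
      have e3 : (2 : F) • L (mE F * mF F) w = w + L (mH F) w := by
        rw [← LinearMap.smul_apply, ← map_smul, mEF, map_add, LinearMap.add_apply, l1]
      rw [K, LinearMap.add_apply (L (mE F * mF F)), LinearMap.add_apply (L (mH F))]
      linear_combination (norm := module) -e1 + e3
    · intro w
      have e1 : (2 : F) • R (mF F * mE F) w = w - R (mH F) w := by
        rw [← LinearMap.smul_apply, ← map_smul, mFE, map_sub, LinearMap.sub_apply, r1]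
      have e2 : (2 : F) • R (mE F * mF F) w = w + R (mH F) w := by
        rw [← LinearMap.smul_apply, ← map_smul, mEF, map_add, LinearMap.add_apply, r1]
      have e3 : (2 : F) • L (mF F * mE F) w = w - L (mH F) w := by
        rw [← LinearMap.smul_apply, ← map_smul, mFE, map_sub, LinearMap.sub_apply, l1]
      rw [K, LinearMap.add_apply (L (mF F * mE F)), LinearMap.add_apply (L (mH F))]
      linear_combination (norm := module) -e2 + e3
    · intro w
      rw [K, mHF, mFH]
      simp only [map_neg, LinearMap.neg_apply, LinearMap.add_apply]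
      module
    · intro w
      rw [K, mHF, mFH]
      simp only [map_neg, LinearMap.neg_apply, LinearMap.add_apply]
      module
    · intro w
      exact hO w
  obtain ⟨p1, p2, hp2, t1, t2, hRF⟩ := r.key
  obtain ⟨TE, hTE⟩ : ∃ T : V →ₗ[F] V, T = L (mE F) + R (mE F) := ⟨_, rfl⟩
  obtain ⟨TF, hTF⟩ : ∃ T : V →ₗ[F] V, T = L (mF F) + R (mF F) := ⟨_, rfl⟩
  obtain ⟨TH, hTH⟩ : ∃ T : V →ₗ[F] V, T = L (mH F) + R (mH F) := ⟨_, rfl⟩
  obtain ⟨RE, hRE⟩ : ∃ T : V →ₗ[F] V, T = R (mE F) := ⟨_, rfl⟩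
  obtain ⟨RF, hRF'⟩ : ∃ T : V →ₗ[F] V, T = R (mF F) := ⟨_, rfl⟩
  obtain ⟨RH, hRH⟩ : ∃ T : V →ₗ[F] V, T = R (mH F) := ⟨_, rfl⟩
  have LE : ∀ w, L (mE F) w = TE w - RE w := by
    intro w
    rw [hTE, hRE, LinearMap.add_apply, add_sub_cancel_right]
  have LF : ∀ w, L (mF F) w = TF w - RF w := by
    intro w
    rw [hTF, hRF', LinearMap.add_apply, add_sub_cancel_right]
  have LH : ∀ w, L (mH F) w = TH w - RH w := by
    intro w
    rw [hTH, hRH, LinearMap.add_apply, add_sub_cancel_right]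
  rw [← hTE, ← hTF, ← hTH, ← hRE, ← hRF', ← hRH] at r
  rw [← hTE] at t1 t2
  rw [← hTF, ← hRF'] at hRF
  obtain ⟨q1, hq1⟩ : ∃ q, q = TF p1 := ⟨_, rfl⟩
  obtain ⟨q2, hq2⟩ : ∃ q, q = TF p2 := ⟨_, rfl⟩
  obtain ⟨s1, hs1⟩ : ∃ s, (2 : F) • s = TF q1 := ⟨(2 : F)⁻¹ • TF q1, smul_inv_smul₀ h2 _⟩
  obtain ⟨s2, hs2⟩ : ∃ s, (2 : F) • s = TF q2 := ⟨(2 : F)⁻¹ • TF q2, smul_inv_smul₀ h2 _⟩
  -- the action on the six vectors
  have fq1 : RF q1 = s1 := by
    apply cancel h2
    rw [hs1, hq1, r.kff]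
  have fq2 : RF q2 = s2 := by
    apply cancel h2
    rw [hs2, hq2, r.kff]
  have fp2 : RF p2 = q2 + p1 := by rw [hRF, hq2]
  have fp1 : RF p1 = -s2 := by
    have h1 : RF (RF p2) = RF q2 + RF p1 := by rw [← map_add, ← fp2]
    rw [r.rff, fq2] at h1
    linear_combination (norm := module) -h1
  have fs1 : RF s1 = 0 := by
    apply cancel h2
    rw [← map_smul, hs1, hq1, r.pRFFF, smul_zero]
  have fs2 : RF s2 = 0 := by
    apply cancel h2
    rw [← map_smul, hs2, hq2, r.pRFFF, smul_zero]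
  have ep1 : RE p1 = 0 := r.pRE t1
  have ep2 : RE p2 = 0 := r.pRE t2
  have eq1 : RE q1 = p1 := by rw [hq1, r.pREF t1]
  have eq2 : RE q2 = p2 := by rw [hq2, r.pREF t2]
  have es1 : RE s1 = q1 + s2 := by
    apply cancel h2
    rw [← map_smul, hs1, hq1, r.pREFF t1, fp1]
    module
  have es2 : RE s2 = -p1 := by
    apply cancel h2
    rw [← map_smul, hs2, hq2, r.pREFF t2, hRF]
    module
  have hp1 : RH p1 = p1 := r.pRH t1
  have hp2' : RH p2 = p2 := r.pRH t2
  have hhq1 : RH q1 = q1 + (2 : F) • s2 := by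
    rw [hq1, r.pRHF t1, fp1]
    module
  have hhq2 : RH q2 = -q2 - (2 : F) • p1 := by
    rw [hq2, r.pRHF t2, hRF]
    module
  have hhs1 : RH s1 = -s1 := by
    apply cancel h2
    rw [← map_smul, hs1, hq1, r.pRHFF t1, ← hq1, ← hs1]
    module
  have hhs2 : RH s2 = -s2 := by
    apply cancel h2
    rw [← map_smul, hs2, hq2, r.pRHFF t2, ← hq2, ← hs2]
    module
  have Eq1 : TE q1 = (2 : F) • p1 := by rw [hq1, r.pEF t1]
  have Eq2 : TE q2 = (2 : F) • p2 := by rw [hq2, r.pEF t2]
  have Es1 : TE s1 = q1 := by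
    apply cancel h2
    rw [← map_smul, hs1, hq1, r.pEFF t1]
  have Es2 : TE s2 = q2 := by
    apply cancel h2
    rw [← map_smul, hs2, hq2, r.pEFF t2]
  have Fs1 : TF s1 = 0 := by
    apply cancel h2
    rw [← map_smul, hs1, hq1, r.pFFF, smul_zero]
  have Fs2 : TF s2 = 0 := by
    apply cancel h2
    rw [← map_smul, hs2, hq2, r.pFFF, smul_zero]
  have Hp1 : TH p1 = (2 : F) • p1 := r.pTH t1
  have Hp2 : TH p2 = (2 : F) • p2 := r.pTH t2
  have Hq1 : TH q1 = 0 := by rw [hq1, r.pHF t1]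
  have Hq2 : TH q2 = 0 := by rw [hq2, r.pHF t2]
  have Hs1 : TH s1 = -((2 : F) • s1) := by
    apply cancel h2
    rw [← map_smul, hs1, hq1, r.pHFF t1, ← hq1]
    module
  have Hs2 : TH s2 = -((2 : F) • s2) := by
    apply cancel h2
    rw [← map_smul, hs2, hq2, r.pHFF t2, ← hq2]
    module
  -- the homomorphism
  obtain ⟨φ, hφ⟩ : ∃ φ : (Fin 6 → F) →ₗ[F] V, ∀ x, φ x = x 0 • p1 + x 1 • p2 - x 2 • q1 -
      x 3 • q2 - x 4 • s1 - x 5 • s2 := by
    refine ⟨Fintype.linearCombination F ![p1, p2, -q1, -q2, -s1, -s2], fun x => ?_⟩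
    rw [Fintype.linearCombination_apply, Fin.sum_univ_six]
    simp only [Matrix.cons_val_zero, Matrix.cons_val_one, Matrix.cons_val]
    module
  refine ⟨φ, ?_, ?_⟩
  · intro h0
    apply hp2
    have h1 := hφ (Pi.single 1 1)
    rw [h0, LinearMap.zero_apply] at h1
    simp at h1
    exact h1.symm
  · intro a m
    obtain ⟨α, δ, h00, h11⟩ : ∃ α δ : F, a 0 0 = α + δ ∧ a 1 1 = α - δ := by
      refine ⟨(a 0 0 + a 1 1) / 2, (a 0 0 - a 1 1) / 2, ?_, ?_⟩
      · field_simp
        ring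
      · field_simp
        ring
    obtain ⟨β, h01⟩ : ∃ β : F, a 0 1 = β := ⟨_, rfl⟩
    obtain ⟨γ, h10⟩ : ∃ γ : F, a 1 0 = γ := ⟨_, rfl⟩
    have ha : a = α • (1 : Mat2 F) + β • mE F + γ • mF F + δ • mH F := by
      ext i j
      fin_cases i <;> fin_cases j
      · simp [mE, mF, mH, h00]
      · simp [mE, mF, mH, h01]
      · simp [mE, mF, mH, h10]
      · simp [mE, mF, mH, h11, sub_eq_add_neg]
    have hRa : ∀ w, R a w = α • w + β • RE w + γ • RF w + δ • RH w := by
      intro w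
      rw [ha, map_add, map_add, map_add, map_smul, map_smul, map_smul, map_smul]
      simp only [LinearMap.add_apply, LinearMap.smul_apply, r1, hRE, hRF', hRH]
    have hLa : ∀ w, L a w = α • w + β • (TE w - RE w) + γ • (TF w - RF w) +
        δ • (TH w - RH w) := by
      intro w
      rw [ha, map_add, map_add, map_add, map_smul, map_smul, map_smul, map_smul]
      simp only [LinearMap.add_apply, LinearMap.smul_apply, l1, LE, LF, LH]
    constructor
    · rw [hLa, hφ, hφ]
      simp only [map_add, map_sub, map_smul, ep1, ep2, eq1, eq2, es1, es2, fp1, fp2, fq1, fq2,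
        fs1, fs2, hp1, hp2', hhq1, hhq2, hhs1, hhs2, t1, t2, Eq1, Eq2, Es1, Es2, ← hq1, ← hq2,
        ← hs1, ← hs2, Fs1, Fs2, Hp1, Hp2, Hq1, Hq2, Hs1, Hs2]
      simp only [sixL, Matrix.cons_val_zero, Matrix.cons_val_one, Matrix.cons_val, h00, h11, h01,
        h10]
      module
    · rw [hRa, hφ, hφ]
      simp only [map_add, map_sub, map_smul, ep1, ep2, eq1, eq2, es1, es2, fp1, fp2, fq1, fq2,
        fs1, fs2, hp1, hp2', hhq1, hhq2, hhs1, hhs2]
      simp only [sixR, Matrix.cons_val_zero, Matrix.cons_val_one, Matrix.cons_val, h00, h11, h01,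
        h10]
      module

end Pool.Agent.H581.RA
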