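import Pool.Agent.H581.RA.Str4
import Pool.Agent.H581.RA.Five
import Pool.Agent.H581.RA.SixU

/-! Reduction of an irreducible right alternative bimodule to the two kinds. -/

namespace Pool.Agent.H581.RA

universe u v w

variable {F : Type u} [Field F]

/-- the matrix unit `e₂₂` -/
def mB (F : Type u) [Field F] : Mat2 F := !![0, 0; 0, 1]

lemma mat_eq (a : Mat2 F) : a = a 0 0 • mA F + a 0 1 • mE F + a 1 0 • mF F + a 1 1 • mB F := by
  ext i j
  fin_cases i <;> fin_cases j <;> simp [mA, mB, mE, mF]

lemma sum_AB : mA F + mB F = 1 := by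
  ext i j; fin_cases i <;> fin_cases j <;> simp [mA, mB]
lemma sub_AB : mA F - mB F = mH F := by
  ext i j; fin_cases i <;> fin_cases j <;> simp [mA, mB, mH]
lemma AA : mA F * mA F = mA F := by
  ext i j; fin_cases i <;> fin_cases j <;> simp [mA]
lemma BB : mB F * mB F = mB F := by
  ext i j; fin_cases i <;> fin_cases j <;> simp [mB]
lemma AB : mA F * mB F = 0 := by
  ext i j; fin_cases i <;> fin_cases j <;> simp [mA, mB]
lemma BA : mB F * mA F = 0 := by
  ext i j; fin_cases i <;> fin_cases j <;> simp [mA, mB]
lemma AE : mA F * mE F = mE F := by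
  ext i j; fin_cases i <;> fin_cases j <;> simp [mA, mE]
lemma EA : mE F * mA F = 0 := by
  ext i j; fin_cases i <;> fin_cases j <;> simp [mA, mE]
lemma BE : mB F * mE F = 0 := by
  ext i j; fin_cases i <;> fin_cases j <;> simp [mB, mE]
lemma EB : mE F * mB F = mE F := by
  ext i j; fin_cases i <;> fin_cases j <;> simp [mB, mE]
lemma AF : mA F * mF F = 0 := by
  ext i j; fin_cases i <;> fin_cases j <;> simp [mA, mF]
lemma FA : mF F * mA F = mF F := by
  ext i j; fin_cases i <;> fin_cases j <;> simp [mA, mF]
lemma BF : mB F * mF F = mF F := by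
  ext i j; fin_cases i <;> fin_cases j <;> simp [mB, mF]
lemma FB : mF F * mB F = 0 := by
  ext i j; fin_cases i <;> fin_cases j <;> simp [mB, mF]
lemma FE' : mF F * mE F = mB F := by
  ext i j; fin_cases i <;> fin_cases j <;> simp [mE, mF, mB]

/-- A bilinear condition can be checked on the matrix units. -/
lemma bilin_units {V : Type v} [AddCommGroup V] [Module F V] (P Q : Mat2 F →ₗ[F] Mat2 F →ₗ[F] V)
    (hAA : P (mA F) (mA F) = Q (mA F) (mA F)) (hAB : P (mA F) (mB F) = Q (mA F) (mB F))
    (hAE : P (mA F) (mE F) = Q (mA F) (mE F)) (hAF : P (mA F) (mF F) = Q (mA F) (mF F))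
    (hBA : P (mB F) (mA F) = Q (mB F) (mA F)) (hBB : P (mB F) (mB F) = Q (mB F) (mB F))
    (hBE : P (mB F) (mE F) = Q (mB F) (mE F)) (hBF : P (mB F) (mF F) = Q (mB F) (mF F))
    (hEA : P (mE F) (mA F) = Q (mE F) (mA F)) (hEB : P (mE F) (mB F) = Q (mE F) (mB F))
    (hEE : P (mE F) (mE F) = Q (mE F) (mE F)) (hEF : P (mE F) (mF F) = Q (mE F) (mF F))
    (hFA : P (mF F) (mA F) = Q (mF F) (mA F)) (hFB : P (mF F) (mB F) = Q (mF F) (mB F))
    (hFE : P (mF F) (mE F) = Q (mF F) (mE F)) (hFF : P (mF F) (mF F) = Q (mF F) (mF F))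
    (a b : Mat2 F) : P a b = Q a b := by
  rw [mat_eq a, mat_eq b]
  simp only [map_add, map_smul, LinearMap.add_apply, LinearMap.smul_apply, hAA, hAB, hAE, hAF,
    hBA, hBB, hBE, hBF, hEA, hEB, hEE, hEF, hFA, hFB, hFE, hFF]

namespace Bimodule

variable (M : Bimodule.{u, v} F)

/-- `(m b) a` as a bilinear map of `a, b` -/
def rrL (m : M.carrier) : Mat2 F →ₗ[F] Mat2 F →ₗ[F] M.carrier :=
  LinearMap.mk₂ F (fun a b => M.right (M.right m b) a)
    (fun a b c => by simp) (fun c a b => by simp) (fun a b c => by simp) (fun c a b => by simp)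

/-- `m (a b)` as a bilinear map of `a, b` -/
def rmL (m : M.carrier) : Mat2 F →ₗ[F] Mat2 F →ₗ[F] M.carrier :=
  LinearMap.mk₂ F (fun a b => M.right m (a * b))
    (fun a b c => by simp [add_mul]) (fun c a b => by simp) (fun a b c => by simp [mul_add])
    (fun c a b => by simp)

/-- the operator `R_a R_b - R_b R_a - R_(ab - ba)` -/
def cO (a b : Mat2 F) (m : M.carrier) : M.carrier :=
  M.right (M.right m b) a - M.right (M.right m a) b - M.right m (a * b - b * a)

variable {M}

section RA

variable (rj : ∀ (m : M.carrier) (b : Mat2 F), M.right (M.right m b) b = M.right m (b * b))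
  (rl : ∀ (a b : Mat2 F) (m : M.carrier), M.right (M.left a m) b =
      M.left a (M.left b m + M.right m b) - M.left (a * b) m)

include rj in
lemma rj2 (m : M.carrier) (a b : Mat2 F) :
    M.right (M.right m b) a + M.right (M.right m a) b = M.right m (a * b + b * a) := by
  have h := rj m (a + b)
  simp only [map_add, LinearMap.add_apply, add_mul, mul_add, rj] at h
  rw [map_add]
  linear_combination (norm := module) h

include rl

lemma left_tOp (a b : Mat2 F) (m : M.carrier) :
    M.left a (M.tOp b m) = M.right (M.left a m) b + M.left (a * b) m := by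
  rw [rl]; unfold Bimodule.tOp; abel

/-- `C (a, b)` in terms of `T` -/
lemma cO_t (a b : Mat2 F) (m : M.carrier) : M.cO a b m =
    M.tOp a (M.tOp b m) - M.tOp b (M.tOp a m) - M.tOp (a * b - b * a) m := by
  have h1 : ∀ a b : Mat2 F, M.tOp a (M.tOp b m) = M.right (M.left a m) b + M.left (a * b) m +
      M.right (M.left b m) a + M.right (M.right m b) a := by
    intro a b
    have h4 : M.tOp a (M.tOp b m) = M.left a (M.tOp b m) + M.right (M.tOp b m) a := rfl
    rw [h4, left_tOp rl]
    unfold Bimodule.tOp
    simp only [map_add, LinearMap.add_apply]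
    abel
  have h3 : M.tOp (a * b - b * a) m = M.left (a * b) m - M.left (b * a) m +
      M.right m (a * b - b * a) := by
    unfold Bimodule.tOp
    simp only [map_sub, LinearMap.sub_apply]
  rw [h1 a b, h1 b a, h3]
  unfold Bimodule.cO
  abel

/-- `C (a, b)` commutes with the left action -/
lemma left_cO (a b c : Mat2 F) (m : M.carrier) : M.left c (M.cO a b m) = M.cO a b (M.left c m) := by
  rw [cO_t rl]
  have hs : ∀ n n' : M.carrier, M.left c (n - n') = M.left c n - M.left c n' :=
    fun n n' => map_sub _ _ _
  simp only [hs, left_tOp rl]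
  unfold Bimodule.cO
  simp only [map_add, map_sub, LinearMap.add_apply, LinearMap.sub_apply, mul_sub, mul_assoc]
  abel

omit rl in
/-- the identity of Jordan type for the unit -/
lemma one_right (rj : ∀ (m : M.carrier) (b : Mat2 F), M.right (M.right m b) b = M.right m (b * b))
    (h2 : (2 : F) ≠ 0) (m : M.carrier) (a : Mat2 F) :
    M.right (M.right m 1) a = M.right m a ∧ M.right (M.right m a) 1 = M.right m a := by
  have h11 : ∀ m : M.carrier, M.right (M.right m 1) 1 = M.right m 1 := by
    intro m; rw [rj, mul_one]
  have hp : ∀ m : M.carrier, M.right (M.right m a) 1 + M.right (M.right m 1) a =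
      (2 : F) • M.right m a := by
    intro m
    have := rj2 rj m 1 a
    rw [one_mul, mul_one, map_add] at this
    rw [this]; module
  -- `1 a 1 = 1 a` and `1 a 1 = a 1`
  have e1 : M.right (M.right (M.right m 1) a) 1 = M.right (M.right m 1) a := by
    have h := hp (M.right m 1)
    rw [h11] at h
    linear_combination (norm := module) h
  have e2 : M.right (M.right (M.right m 1) a) 1 = M.right (M.right m a) 1 := by
    have h := congrArg (fun z => M.right z 1) (hp m)
    simp only [map_add, map_smul, LinearMap.add_apply, LinearMap.smul_apply, h11] at h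
    linear_combination (norm := module) h
  have e3 : M.right (M.right m a) 1 = M.right (M.right m 1) a := by rw [← e2, e1]
  have e4 : (2 : F) • (M.right (M.right m 1) a - M.right m a) = 0 := by
    have h := hp m
    rw [e3] at h
    linear_combination (norm := module) h
  have e5 : M.right (M.right m 1) a = M.right m a :=
    sub_eq_zero.mp ((smul_eq_zero.mp e4).resolve_left h2)
  exact ⟨e5, by rw [e3, e5]⟩

end RA

section RA2

variable (rj : ∀ (m : M.carrier) (b : Mat2 F), M.right (M.right m b) b = M.right m (b * b))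
include rj

lemma rEE (m : M.carrier) : M.right (M.right m (mE F)) (mE F) = 0 := by rw [rj, EE, map_zero]
lemma rFF (m : M.carrier) : M.right (M.right m (mF F)) (mF F) = 0 := by rw [rj, FF, map_zero]
lemma rAA (m : M.carrier) : M.right (M.right m (mA F)) (mA F) = M.right m (mA F) := by rw [rj, AA]
lemma rBB (m : M.carrier) : M.right (M.right m (mB F)) (mB F) = M.right m (mB F) := by rw [rj, BB]

lemma rAE (m : M.carrier) : M.right (M.right m (mE F)) (mA F) =
    M.right m (mE F) - M.right (M.right m (mA F)) (mE F) := by
  have h := rj2 rj m (mA F) (mE F)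
  rw [AE, EA, add_zero] at h
  linear_combination (norm := module) h
lemma rBE (m : M.carrier) : M.right (M.right m (mE F)) (mB F) =
    M.right m (mE F) - M.right (M.right m (mB F)) (mE F) := by
  have h := rj2 rj m (mB F) (mE F)
  rw [BE, EB, zero_add] at h
  linear_combination (norm := module) h
lemma rAF (m : M.carrier) : M.right (M.right m (mF F)) (mA F) =
    M.right m (mF F) - M.right (M.right m (mA F)) (mF F) := by
  have h := rj2 rj m (mA F) (mF F)
  rw [AF, FA, zero_add] at h
  linear_combination (norm := module) h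
lemma rBF (m : M.carrier) : M.right (M.right m (mF F)) (mB F) =
    M.right m (mF F) - M.right (M.right m (mB F)) (mF F) := by
  have h := rj2 rj m (mB F) (mF F)
  rw [BF, FB, add_zero] at h
  linear_combination (norm := module) h
lemma rEF (m : M.carrier) : M.right (M.right m (mF F)) (mE F) =
    M.right m (mA F) + M.right m (mB F) - M.right (M.right m (mE F)) (mF F) := by
  have h := rj2 rj m (mE F) (mF F)
  rw [EF, FE', map_add] at h
  linear_combination (norm := module) h
lemma rAB0 (m : M.carrier) : M.right (M.right m (mB F)) (mA F) =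
    - M.right (M.right m (mA F)) (mB F) := by
  have h := rj2 rj m (mA F) (mB F)
  rw [AB, BA, add_zero, map_zero] at h
  linear_combination (norm := module) h

lemma rAB (h2 : (2 : F) ≠ 0) (m : M.carrier) : M.right (M.right m (mB F)) (mA F) = 0 := by
  -- `R_A R_B = R_A R_A R_B = - R_A R_B R_A = R_B R_A R_A = R_B R_A`
  have e1 : M.right (M.right (M.right m (mB F)) (mA F)) (mA F) =
      M.right (M.right m (mB F)) (mA F) := rAA rj _
  have e2 : M.right (M.right (M.right m (mB F)) (mA F)) (mA F) =
      - M.right (M.right (M.right m (mA F)) (mB F)) (mA F) := by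
    rw [rAB0 rj m, map_neg]; rfl
  have e3 : M.right (M.right (M.right m (mA F)) (mB F)) (mA F) =
      - M.right (M.right (M.right m (mA F)) (mA F)) (mB F) := rAB0 rj _
  rw [rAA rj] at e3
  have e4 : M.right (M.right m (mB F)) (mA F) = M.right (M.right m (mA F)) (mB F) := by
    rw [← e1, e2, e3, neg_neg]
  have e5 := rAB0 rj m
  rw [e4] at e5 ⊢
  have e6 : (2 : F) • M.right (M.right m (mA F)) (mB F) = 0 := by
    linear_combination (norm := module) e5
  exact (smul_eq_zero.mp e6).resolve_left h2

lemma rBA (h2 : (2 : F) ≠ 0) (m : M.carrier) : M.right (M.right m (mA F)) (mB F) = 0 := by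
  have := rAB0 rj m
  rw [rAB rj h2] at this
  linear_combination (norm := module) this

/-- `R_E R_F` commutes with `R_A` -/
lemma uA (m : M.carrier) : M.right (M.right (M.right m (mF F)) (mE F)) (mA F) =
    M.right (M.right (M.right m (mA F)) (mF F)) (mE F) := by
  rw [rAE rj, rAF rj m]
  simp only [map_sub, LinearMap.sub_apply]
  abel

lemma vA (m : M.carrier) : M.right (M.right (M.right m (mE F)) (mF F)) (mA F) =
    M.right (M.right (M.right m (mA F)) (mE F)) (mF F) := by
  rw [rAF rj, rAE rj m]
  simp only [map_sub, LinearMap.sub_apply]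
  abel

lemma uB (m : M.carrier) : M.right (M.right (M.right m (mF F)) (mE F)) (mB F) =
    M.right (M.right (M.right m (mB F)) (mF F)) (mE F) := by
  rw [rBE rj, rBF rj m]
  simp only [map_sub, LinearMap.sub_apply]
  abel

lemma vB (m : M.carrier) : M.right (M.right (M.right m (mE F)) (mF F)) (mB F) =
    M.right (M.right (M.right m (mB F)) (mE F)) (mF F) := by
  rw [rBF rj, rBE rj m]
  simp only [map_sub, LinearMap.sub_apply]
  abel

omit rj in
lemma cO_eq (m : M.carrier) : M.cO (mE F) (mF F) m =
    M.right (M.right m (mF F)) (mE F) - M.right (M.right m (mE F)) (mF F) - M.right m (mA F) +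
      M.right m (mB F) := by
  unfold Bimodule.cO
  rw [EF, FE', map_sub]; abel

/-- the kernel of `C (E, F)` is stable under the right action -/
lemma ker_right (h2 : (2 : F) ≠ 0) {m : M.carrier} (hm : M.cO (mE F) (mF F) m = 0) (d : Mat2 F) :
    M.cO (mE F) (mF F) (M.right m d) = 0 := by
  have hE : M.cO (mE F) (mF F) (M.right m (mE F)) = 0 := by
    have h := congrArg (fun z => M.right z (mE F)) hm
    simp only [cO_eq, map_add, map_sub, LinearMap.add_apply, LinearMap.sub_apply, map_zero,
      LinearMap.zero_apply, rEE rj] at h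
    rw [cO_eq, rEE rj, rAE rj, rBE rj]
    simp only [map_zero, LinearMap.zero_apply]
    linear_combination (norm := module) -h
  have hF : M.cO (mE F) (mF F) (M.right m (mF F)) = 0 := by
    have h := congrArg (fun z => M.right z (mF F)) hm
    simp only [cO_eq, map_add, map_sub, LinearMap.add_apply, LinearMap.sub_apply, map_zero,
      LinearMap.zero_apply, rFF rj] at h
    rw [cO_eq, rFF rj, rAF rj, rBF rj]
    simp only [map_zero, LinearMap.zero_apply]
    linear_combination (norm := module) -h
  have hA : M.cO (mE F) (mF F) (M.right m (mA F)) = 0 := by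
    have h := congrArg (fun z => M.right z (mA F)) hm
    simp only [cO_eq, map_add, map_sub, LinearMap.add_apply, LinearMap.sub_apply, map_zero,
      LinearMap.zero_apply, uA rj, vA rj, rAA rj, rAB rj h2] at h
    rw [cO_eq, rAA rj, rBA rj h2]
    linear_combination (norm := module) h
  have hB : M.cO (mE F) (mF F) (M.right m (mB F)) = 0 := by
    have h := congrArg (fun z => M.right z (mB F)) hm
    simp only [cO_eq, map_add, map_sub, LinearMap.add_apply, LinearMap.sub_apply, map_zero,
      LinearMap.zero_apply, uB rj, vB rj, rBB rj, rBA rj h2] at h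
    rw [cO_eq, rBB rj, rAB rj h2]
    linear_combination (norm := module) h
  have hadd : ∀ n n' : M.carrier, M.cO (mE F) (mF F) (n + n') =
      M.cO (mE F) (mF F) n + M.cO (mE F) (mF F) n' := by
    intro n n'
    simp only [cO_eq, map_add, LinearMap.add_apply]; abel
  have hsm : ∀ (c : F) (n : M.carrier), M.cO (mE F) (mF F) (c • n) =
      c • M.cO (mE F) (mF F) n := by
    intro c n
    simp only [cO_eq, map_smul, LinearMap.smul_apply, smul_sub, smul_add]
  rw [mat_eq d]
  simp only [map_add, map_smul, hadd, hsm, hA, hB, hE, hF, smul_zero, add_zero]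

end RA2

end Bimodule

end Pool.Agent.H581.RA
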