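import Pool.Agent.H581.RA.Red

/-! The classification of the irreducible right alternative bimodules. -/

namespace Pool.Agent.H581.RA

universe u v w

variable {F : Type u} [Field F]

namespace Bimodule

variable {M : Bimodule.{u, v} F}

section types

variable (rj : ∀ (m : M.carrier) (b : Mat2 F), M.right (M.right m b) b = M.right m (b * b))
  (h2 : (2 : F) ≠ 0)
include rj h2

/-- the right action is of the second kind if `C (E, F) = 0` -/
lemma hom_type (h0 : ∀ m : M.carrier, M.cO (mE F) (mF F) m = 0) (m : M.carrier) (a b : Mat2 F) :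
    M.right (M.right m b) a = M.right m (a * b) := by
  have eEF : ∀ m : M.carrier, M.right (M.right m (mF F)) (mE F) = M.right m (mA F) := by
    intro m
    have h1 := h0 m
    rw [cO_eq] at h1
    have h3 := rEF rj m
    have h5 : (2 : F) • (M.right (M.right m (mF F)) (mE F) - M.right m (mA F)) = 0 := by
      linear_combination (norm := module) h1 + h3
    exact sub_eq_zero.mp ((smul_eq_zero.mp h5).resolve_left h2)
  have eFE : ∀ m : M.carrier, M.right (M.right m (mE F)) (mF F) = M.right m (mB F) := by
    intro m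
    have h3 := rEF rj m
    rw [eEF] at h3
    linear_combination (norm := module) h3
  have eEA : ∀ m : M.carrier, M.right (M.right m (mA F)) (mE F) = 0 := by
    intro m; rw [← eEF m, rEE rj]
  have eAE : ∀ m : M.carrier, M.right (M.right m (mE F)) (mA F) = M.right m (mE F) := by
    intro m; rw [rAE rj, eEA, sub_zero]
  have eEB : ∀ m : M.carrier, M.right (M.right m (mB F)) (mE F) = M.right m (mE F) := by
    intro m; rw [← eFE m, eEF, eAE]
  have eBE : ∀ m : M.carrier, M.right (M.right m (mE F)) (mB F) = 0 := by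
    intro m; rw [rBE rj, eEB, sub_self]
  have eFB : ∀ m : M.carrier, M.right (M.right m (mB F)) (mF F) = 0 := by
    intro m; rw [← eFE m, rFF rj]
  have eBF : ∀ m : M.carrier, M.right (M.right m (mF F)) (mB F) = M.right m (mF F) := by
    intro m; rw [rBF rj, eFB, sub_zero]
  have eFA : ∀ m : M.carrier, M.right (M.right m (mA F)) (mF F) = M.right m (mF F) := by
    intro m; rw [← eEF m, eFE, eBF]
  have eAF : ∀ m : M.carrier, M.right (M.right m (mF F)) (mA F) = 0 := by
    intro m; rw [rAF rj, eFA, sub_self]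
  refine bilin_units (rrL M m) (rmL M m) ?_ ?_ ?_ ?_ ?_ ?_ ?_ ?_ ?_ ?_ ?_ ?_ ?_ ?_ ?_ ?_ a b <;>
    simp only [rrL, rmL, LinearMap.mk₂_apply]
  · rw [rAA rj, AA]
  · rw [rAB rj h2, AB, map_zero]
  · rw [eAE, AE]
  · rw [eAF, AF, map_zero]
  · rw [rBA rj h2, BA, map_zero]
  · rw [rBB rj, BB]
  · rw [eBE, BE, map_zero]
  · rw [eBF, BF]
  · rw [eEA, EA, map_zero]
  · rw [eEB, EB]
  · rw [rEE rj, EE, map_zero]
  · rw [eEF, EF]
  · rw [eFA, FA]
  · rw [eFB, FB, map_zero]
  · rw [eFE, FE']
  · rw [rFF rj, FF, map_zero]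

/-- `m (b a)` as a bilinear map of `a, b` -/
def rmL' (M : Bimodule.{u, v} F) (m : M.carrier) : Mat2 F →ₗ[F] Mat2 F →ₗ[F] M.carrier :=
  LinearMap.mk₂ F (fun a b => M.right m (b * a))
    (fun a b c => by simp [mul_add]) (fun c a b => by simp) (fun a b c => by simp [add_mul])
    (fun c a b => by simp)

/-- the right action is of the first kind if `C (E, F)` is injective -/
lemma anti_type (h0 : ∀ m : M.carrier, M.cO (mE F) (mF F) m = 0 → m = 0) (m : M.carrier) :
    M.right m 1 = m ∧ ∀ (a b : Mat2 F), M.right (M.right m b) a = M.right m (b * a) := by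
  have one_eq : ∀ m : M.carrier, M.right m 1 = M.right m (mA F) + M.right m (mB F) := by
    intro m; rw [← sum_AB, map_add]
  have hFEF : ∀ m : M.carrier, M.right (M.right (M.right m (mF F)) (mE F)) (mF F) =
      M.right m (mF F) := by
    intro m
    have h := rEF rj (M.right m (mF F))
    rw [rFF rj, map_zero, LinearMap.zero_apply] at h
    have h' := (one_right rj h2 m (mF F)).2
    rw [one_eq] at h'
    linear_combination (norm := module) h + h'
  set u : M.carrier → M.carrier := fun m => M.right (M.right m (mF F)) (mE F) with hu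
  have huu : ∀ m, u (u m) = u m := by
    intro m; simp only [hu]; rw [hFEF]
  have hadd : ∀ m n, u (m + n) = u m + u n := by
    intro m n; simp only [hu, map_add, LinearMap.add_apply]
  have hsub : ∀ m n, u (m - n) = u m - u n := by
    intro m n; simp only [hu, map_sub, LinearMap.sub_apply]
  have hsm : ∀ (c : F) m, u (c • m) = c • u m := by
    intro c m; simp only [hu, map_smul, LinearMap.smul_apply]
  have huA : ∀ m, M.right (u m) (mA F) = u (M.right m (mA F)) := fun m => uA rj m
  have hc : ∀ m, M.cO (mE F) (mF F) m = (2 : F) • (u m - M.right m (mA F)) := by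
    intro m
    rw [cO_eq]
    have h3 := rEF rj m
    have h5 : M.right (M.right m (mE F)) (mF F) =
        M.right m (mA F) + M.right m (mB F) - u m := by
      linear_combination (norm := module) h3
    rw [h5]
    simp only [hu]
    module
  have hz : ∀ m, u m - M.right m (mA F) = 0 → m = 0 := by
    intro m hm
    apply h0
    rw [hc, hm, smul_zero]
  have hk : ∀ m, u m + M.right m (mA F) - (2 : F) • M.right (u m) (mA F) - m = 0 := by
    intro m
    apply hz
    simp only [hsub, hadd, hsm, map_sub, map_add, map_smul, LinearMap.sub_apply,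
      LinearMap.add_apply, LinearMap.smul_apply, huu, ← huA, rAA rj]
    module
  have hm : ∀ m, m = u m + M.right m (mA F) - (2 : F) • M.right (u m) (mA F) := by
    intro m
    exact (sub_eq_zero.mp (hk m)).symm
  have huA0 : ∀ m, M.right (u m) (mA F) = 0 := by
    intro m
    have h := congrArg u (hm m)
    simp only [hsub, hadd, hsm, huu, ← huA] at h
    linear_combination (norm := module) h
  have hm' : ∀ m, m = u m + M.right m (mA F) := by
    intro m
    have h := hm m
    rw [huA0, smul_zero, sub_zero] at h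
    exact h
  have h1 : ∀ m : M.carrier, M.right m 1 = m := by
    intro m
    have e1 : M.right (u m) 1 = u m := (one_right rj h2 _ _).2
    have e2 : M.right (M.right m (mA F)) 1 = M.right m (mA F) := (one_right rj h2 _ _).2
    conv_lhs => rw [hm' m]
    rw [map_add, LinearMap.add_apply, e1, e2]
    exact (hm' m).symm
  have eEF : ∀ m : M.carrier, M.right (M.right m (mF F)) (mE F) = M.right m (mB F) := by
    intro m
    have h := hm' m
    have h' := one_eq m
    rw [h1] at h'
    change u m = _
    linear_combination (norm := module) h' - h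
  have eFE : ∀ m : M.carrier, M.right (M.right m (mE F)) (mF F) = M.right m (mA F) := by
    intro m
    have h3 := rEF rj m
    rw [eEF] at h3
    linear_combination (norm := module) h3
  have eAE : ∀ m : M.carrier, M.right (M.right m (mE F)) (mA F) = 0 := by
    intro m
    rw [← eFE (M.right m (mE F)), rEE rj, map_zero]; rfl
  have eEA : ∀ m : M.carrier, M.right (M.right m (mA F)) (mE F) = M.right m (mE F) := by
    intro m
    have h := rAE rj m
    rw [eAE] at h
    linear_combination (norm := module) h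
  have eBE : ∀ m : M.carrier, M.right (M.right m (mE F)) (mB F) = M.right m (mE F) := by
    intro m
    rw [← eEF (M.right m (mE F)), eFE, eEA]
  have eEB : ∀ m : M.carrier, M.right (M.right m (mB F)) (mE F) = 0 := by
    intro m
    have h := rBE rj m
    rw [eBE] at h
    linear_combination (norm := module) h
  have eBF : ∀ m : M.carrier, M.right (M.right m (mF F)) (mB F) = 0 := by
    intro m
    rw [← eEF (M.right m (mF F)), rFF rj, map_zero]; rfl
  have eFB : ∀ m : M.carrier, M.right (M.right m (mB F)) (mF F) = M.right m (mF F) := by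
    intro m
    have h := rBF rj m
    rw [eBF] at h
    linear_combination (norm := module) h
  have eAF : ∀ m : M.carrier, M.right (M.right m (mF F)) (mA F) = M.right m (mF F) := by
    intro m
    rw [← eFE (M.right m (mF F)), eEF, eFB]
  have eFA : ∀ m : M.carrier, M.right (M.right m (mA F)) (mF F) = 0 := by
    intro m
    have h := rAF rj m
    rw [eAF] at h
    linear_combination (norm := module) h
  refine ⟨h1 m, fun a b => ?_⟩
  refine bilin_units (rrL M m) (rmL' M m) ?_ ?_ ?_ ?_ ?_ ?_ ?_ ?_ ?_ ?_ ?_ ?_ ?_ ?_ ?_ ?_ a b <;>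
    simp only [rrL, rmL', LinearMap.mk₂_apply]
  · rw [rAA rj, AA]
  · rw [rAB rj h2, BA, map_zero]
  · rw [eAE, EA, map_zero]
  · rw [eAF, FA]
  · rw [rBA rj h2, AB, map_zero]
  · rw [rBB rj, BB]
  · rw [eBE, EB]
  · rw [eBF, FB, map_zero]
  · rw [eEA, AE]
  · rw [eEB, BE, map_zero]
  · rw [rEE rj, EE, map_zero]
  · rw [eEF, FE']
  · rw [eFA, AF, map_zero]
  · rw [eFB, BF]
  · rw [eFE, EF]
  · rw [rFF rj, FF, map_zero]

end types

lemma Amul (a : Mat2 F) : mA F * a = a 0 0 • mA F + a 0 1 • mE F := by
  ext i j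
  fin_cases i <;> fin_cases j <;> simp [mA, mE, Matrix.mul_apply, Fin.sum_univ_two]
lemma Emul (a : Mat2 F) : mE F * a = a 1 0 • mA F + a 1 1 • mE F := by
  ext i j
  fin_cases i <;> fin_cases j <;> simp [mA, mE, Matrix.mul_apply, Fin.sum_univ_two]
lemma mulA (a : Mat2 F) : a * mA F = a 0 0 • mA F + a 1 0 • mF F := by
  ext i j
  fin_cases i <;> fin_cases j <;> simp [mA, mF, Matrix.mul_apply, Fin.sum_univ_two]
lemma mulF (a : Mat2 F) : a * mF F = a 0 1 • mA F + a 1 1 • mF F := by
  ext i j
  fin_cases i <;> fin_cases j <;> simp [mA, mF, Matrix.mul_apply, Fin.sum_univ_two]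

section homs

/-- a nonzero homomorphism from the trivial bimodule -/
lemma from_triv (hM : M.IsIrreducible) (hL : ∀ a (m : M.carrier), M.left a m = 0)
    (hR : ∀ (m : M.carrier) a, M.right m a = 0) : M.Iso (trivBim F) := by
  obtain ⟨m, hm⟩ := @exists_ne _ hM.1 (0 : M.carrier)
  let φ : (trivBim F).carrier →ₗ[F] M.carrier := LinearMap.toSpanSingleton F M.carrier m
  have hφ : ∀ c : F, φ c = c • m := fun c => rfl
  refine (schur (triv_irr F) hM φ ⟨fun a c => ?_, fun c a => ?_⟩ ?_).symm
  · rw [hL]
    change φ 0 = 0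
    rw [map_zero]
  · rw [hR]
    change φ 0 = 0
    rw [map_zero]
  · intro h
    have h3 : φ (1 : F) = 0 := LinearMap.congr_fun h (1 : F)
    rw [hφ, one_smul] at h3
    exact hm h3

/-- a nonzero homomorphism from the rows -/
lemma from_row (hM : M.IsIrreducible) (hL : ∀ a (m : M.carrier), M.left a m = 0)
    (h1 : ∀ m : M.carrier, M.right m 1 = m)
    (hR : ∀ (m : M.carrier) (a b : Mat2 F), M.right (M.right m b) a = M.right m (b * a)) :
    M.Iso (rowBim F) := by
  obtain ⟨w, hw0, hw⟩ : ∃ w : M.carrier, w ≠ 0 ∧ M.right w (mA F) = w := by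
    obtain ⟨n, hn⟩ := @exists_ne _ hM.1 (0 : M.carrier)
    by_cases hc : M.right n (mA F) = 0
    · have hB : M.right n (mB F) = n := by
        have := h1 n
        rw [← sum_AB, map_add, hc, zero_add] at this
        exact this
      refine ⟨M.right n (mF F), ?_, by rw [hR, FA]⟩
      intro h
      apply hn
      rw [← hB, ← FE', ← hR, h, map_zero]; rfl
    · exact ⟨_, hc, by rw [hR, AA]⟩
  let φ : (rowBim F).carrier →ₗ[F] M.carrier :=
    (LinearMap.toSpanSingleton F M.carrier w) ∘ₗ (LinearMap.proj 0 : (Fin 2 → F) →ₗ[F] F) +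
    (LinearMap.toSpanSingleton F M.carrier (M.right w (mE F))) ∘ₗ
      (LinearMap.proj 1 : (Fin 2 → F) →ₗ[F] F)
  have hφ : ∀ v : Fin 2 → F, φ v = v 0 • w + v 1 • M.right w (mE F) := fun v => rfl
  refine (schur (row_irr F) hM φ ⟨fun a c => ?_, fun v a => ?_⟩ ?_).symm
  · rw [hL]
    change φ 0 = 0
    rw [map_zero]
  · have key : ∀ v : Fin 2 → F, φ (Matrix.vecMul v a) = M.right (φ v) a := by
     intro v
     have e1 : M.right w a = a 0 0 • w + a 0 1 • M.right w (mE F) := by
      conv_lhs => rw [← hw]
      rw [hR, Amul, map_add, map_smul, map_smul, hw]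
     have e2 : M.right (M.right w (mE F)) a = a 1 0 • w + a 1 1 • M.right w (mE F) := by
      rw [hR, Emul, map_add, map_smul, map_smul, hw]
     rw [hφ, hφ]
     simp only [map_add, map_smul, LinearMap.add_apply, LinearMap.smul_apply, e1, e2,
       Matrix.vecMul, dotProduct, Fin.sum_univ_two]
     module
    exact key v
  · intro h
    have h3 : φ (![1, 0] : Fin 2 → F) = 0 := LinearMap.congr_fun h (![1, 0] : Fin 2 → F)
    rw [hφ] at h3
    apply hw0
    simpa using h3

/-- a vector adapted to the left action -/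
lemma exists_left {n : M.carrier} (hn : n ≠ 0) (h1 : M.left 1 n = n)
    (hL : ∀ (a b : Mat2 F), M.left a (M.left b n) = M.left (a * b) n) :
    (M.left (mA F) n ≠ 0 ∧ M.left (mA F) (M.left (mA F) n) = M.left (mA F) n) ∨
    (M.left (mE F) n ≠ 0 ∧ M.left (mA F) (M.left (mE F) n) = M.left (mE F) n) := by
  by_cases hc : M.left (mA F) n = 0
  · right
    have hB : M.left (mB F) n = n := by
      have := h1
      rw [← sum_AB, map_add, LinearMap.add_apply, hc, zero_add] at this
      exact this
    refine ⟨?_, by rw [hL, AE]⟩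
    intro h
    apply hn
    rw [← hB, ← FE', ← hL, h, map_zero]
  · left
    exact ⟨hc, by rw [hL, AA]⟩

/-- a nonzero homomorphism from the columns -/
lemma from_col (hM : M.IsIrreducible) (hR : ∀ (m : M.carrier) a, M.right m a = 0)
    (h1 : ∀ m : M.carrier, M.left 1 m = m)
    (hL : ∀ (m : M.carrier) (a b : Mat2 F), M.left a (M.left b m) = M.left (a * b) m) :
    M.Iso (colBim F) := by
  obtain ⟨w, hw0, hw⟩ : ∃ w : M.carrier, w ≠ 0 ∧ M.left (mA F) w = w := by
    obtain ⟨n, hn⟩ := @exists_ne _ hM.1 (0 : M.carrier)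
    rcases exists_left hn (h1 n) (hL n) with h | h
    · exact ⟨_, h.1, h.2⟩
    · exact ⟨_, h.1, h.2⟩
  let φ : (colBim F).carrier →ₗ[F] M.carrier :=
    (LinearMap.toSpanSingleton F M.carrier w) ∘ₗ (LinearMap.proj 0 : (Fin 2 → F) →ₗ[F] F) +
    (LinearMap.toSpanSingleton F M.carrier (M.left (mF F) w)) ∘ₗ
      (LinearMap.proj 1 : (Fin 2 → F) →ₗ[F] F)
  have hφ : ∀ v : Fin 2 → F, φ v = v 0 • w + v 1 • M.left (mF F) w := fun v => rfl
  refine (schur (col_irr F) hM φ ⟨fun a v => ?_, fun c a => ?_⟩ ?_).symm
  · have key : ∀ v : Fin 2 → F, φ (Matrix.mulVec a v) = M.left a (φ v) := by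
     intro v
     have e1 : M.left a w = a 0 0 • w + a 1 0 • M.left (mF F) w := by
      conv_lhs => rw [← hw]
      rw [hL, mulA, map_add, map_smul, map_smul, LinearMap.add_apply, LinearMap.smul_apply,
        LinearMap.smul_apply, hw]
     have e2 : M.left a (M.left (mF F) w) = a 0 1 • w + a 1 1 • M.left (mF F) w := by
      rw [hL, mulF, map_add, map_smul, map_smul, LinearMap.add_apply, LinearMap.smul_apply,
        LinearMap.smul_apply, hw]
     rw [hφ, hφ]
     simp only [map_add, map_smul, e1, e2, Matrix.mulVec, dotProduct, Fin.sum_univ_two]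
     module
    exact key v
  · rw [hR]
    change φ 0 = 0
    rw [map_zero]
  · intro h
    have h3 : φ (![1, 0] : Fin 2 → F) = 0 := LinearMap.congr_fun h (![1, 0] : Fin 2 → F)
    rw [hφ] at h3
    apply hw0
    simpa using h3

/-- a nonzero homomorphism from the regular bimodule -/
lemma from_reg (hM : M.IsIrreducible) (h1 : ∀ m : M.carrier, M.right m 1 = m)
    (hR : ∀ (m : M.carrier) (a b : Mat2 F), M.right (M.right m b) a = M.right m (b * a))
    (l1 : ∀ m : M.carrier, M.left 1 m = m)
    (hL : ∀ (m : M.carrier) (a b : Mat2 F), M.left a (M.left b m) = M.left (a * b) m)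
    (hLR : ∀ (m : M.carrier) (a b : Mat2 F), M.left a (M.right m b) = M.right (M.left a m) b) :
    M.Iso (regBim F) := by
  obtain ⟨n, hn0, hn⟩ : ∃ w : M.carrier, w ≠ 0 ∧ M.right w (mA F) = w := by
    obtain ⟨n, hn⟩ := @exists_ne _ hM.1 (0 : M.carrier)
    by_cases hc : M.right n (mA F) = 0
    · have hB : M.right n (mB F) = n := by
        have := h1 n
        rw [← sum_AB, map_add, hc, zero_add] at this
        exact this
      refine ⟨M.right n (mF F), ?_, by rw [hR, FA]⟩
      intro h
      apply hn
      rw [← hB, ← FE', ← hR, h, map_zero]; rfl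
    · exact ⟨_, hc, by rw [hR, AA]⟩
  obtain ⟨w, hw0, hw, hwl⟩ : ∃ w : M.carrier, w ≠ 0 ∧ M.right w (mA F) = w ∧
      M.left (mA F) w = w := by
    rcases exists_left hn0 (l1 n) (hL n) with h | h
    · exact ⟨_, h.1, by rw [← hLR, hn], h.2⟩
    · exact ⟨_, h.1, by rw [← hLR, hn], h.2⟩
  let φ : (regBim F).carrier →ₗ[F] M.carrier :=
    M.left.flip w + (M.left.flip (M.right w (mE F))) ∘ₗ (LinearMap.mulRight F (mF F))
  have hφ : ∀ x : Mat2 F, φ x = M.left x w + M.left (x * mF F) (M.right w (mE F)) :=
    fun x => rfl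
  refine (schur (reg_irr F) hM φ ⟨fun a x => ?_, fun x a => ?_⟩ ?_).symm
  · have key : ∀ x : Mat2 F, φ (a * x : Mat2 F) = M.left a (φ x) := by
      intro x
      rw [hφ, hφ, map_add, hL, hL, mul_assoc]
    exact key x
  · have key : ∀ x : Mat2 F, φ (x * a : Mat2 F) = M.right (φ x) a := by
     intro x
     have e1 : M.right w a = a 0 0 • w + a 0 1 • M.right w (mE F) := by
      conv_lhs => rw [← hw]
      rw [hR, Amul, map_add, map_smul, map_smul, hw]
     have e2 : M.right (M.right w (mE F)) a = a 1 0 • w + a 1 1 • M.right w (mE F) := by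
      rw [hR, Emul, map_add, map_smul, map_smul, hw]
     have f1 : M.left a w = a 0 0 • w + a 1 0 • M.left (mF F) w := by
      conv_lhs => rw [← hwl]
      rw [hL, mulA, map_add, map_smul, map_smul, LinearMap.add_apply, LinearMap.smul_apply,
        LinearMap.smul_apply, hwl]
     have hw' : M.left (mA F) (M.right w (mE F)) = M.right w (mE F) := by rw [hLR, hwl]
     have f2 : M.left (a * mF F) (M.right w (mE F)) = a 0 1 • M.right w (mE F) +
        a 1 1 • M.left (mF F) (M.right w (mE F)) := by
      rw [mulF, map_add, map_smul, map_smul, LinearMap.add_apply, LinearMap.smul_apply,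
        LinearMap.smul_apply, hw']
     have g1 : M.right (M.left x w) a = M.left x (a 0 0 • w + a 0 1 • M.right w (mE F)) := by
      rw [← hLR w x a, e1]
     have g2 : M.right (M.left (x * mF F) (M.right w (mE F))) a =
        M.left (x * mF F) (a 1 0 • w + a 1 1 • M.right w (mE F)) := by
      rw [← hLR _ (x * mF F) a, e2]
     rw [hφ, hφ, mul_assoc, ← hL w x a, ← hL _ x (a * mF F), f1, f2, map_add M.right,
      LinearMap.add_apply, g1, g2]
     simp only [map_add, map_smul, hL]
     module
    exact key x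
  · intro h
    have h3 : φ (mA F) = 0 := LinearMap.congr_fun h (mA F)
    rw [hφ, AF, hwl] at h3
    apply hw0
    simpa using h3

end homs

end Bimodule

end Pool.Agent.H581.RA
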