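import Pool.Agent.H581.RA.Red2

/-! The classification of the irreducible right alternative bimodules. -/

namespace Pool.Agent.H581.RA

universe u v w

variable {F : Type u} [Field F]

namespace Bimodule

variable {M : Bimodule.{u, v} F}

/-- the kernel of `C (E, F)` -/
def kerC (M : Bimodule.{u, v} F) : Submodule F M.carrier where
  carrier := {m | M.cO (mE F) (mF F) m = 0}
  add_mem' := by
    intro m n hm hn
    simp only [Set.mem_ofPred_eq, cO_eq] at hm hn ⊢
    simp only [map_add, LinearMap.add_apply]
    linear_combination (norm := module) hm + hn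
  zero_mem' := by
    simp only [Set.mem_ofPred_eq, cO_eq, map_zero, LinearMap.zero_apply]
    simp
  smul_mem' := by
    intro c m hm
    simp only [Set.mem_ofPred_eq, cO_eq] at hm ⊢
    simp only [map_smul, LinearMap.smul_apply]
    linear_combination (norm := module) c • hm

lemma mem_kerC {m : M.carrier} : m ∈ M.kerC ↔ M.cO (mE F) (mF F) m = 0 := Iff.rfl

/-- the kernel of the left action -/
def kerL (M : Bimodule.{u, v} F) : Submodule F M.carrier where
  carrier := {m | ∀ a, M.left a m = 0}
  add_mem' := by
    intro m n hm hn a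
    rw [map_add, hm, hn, add_zero]
  zero_mem' := fun a => map_zero _
  smul_mem' := by
    intro c m hm a
    rw [map_smul, hm, smul_zero]

lemma mem_kerL {m : M.carrier} : m ∈ M.kerL ↔ ∀ a, M.left a m = 0 := Iff.rfl

section main

variable (rj : ∀ (m : M.carrier) (b : Mat2 F), M.right (M.right m b) b = M.right m (b * b))
  (rl : ∀ (a b : Mat2 F) (m : M.carrier), M.right (M.left a m) b =
      M.left a (M.left b m + M.right m b) - M.left (a * b) m)
  (h2 : (2 : F) ≠ 0)

include rl in
lemma kerL_isSub : M.IsSubBimodule M.kerL := by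
  intro a m hm
  rw [mem_kerL] at hm
  refine ⟨?_, ?_⟩
  · rw [hm a]; exact M.kerL.zero_mem
  · rw [mem_kerL]
    intro c
    have h := rl c a m
    rw [hm c, hm a, hm (c * a), zero_add, sub_zero, map_zero, LinearMap.zero_apply] at h
    exact h.symm

include rj rl h2 in
lemma kerC_isSub : M.IsSubBimodule M.kerC := by
  intro a m hm
  rw [mem_kerC] at hm
  refine ⟨?_, ?_⟩
  · rw [mem_kerC, ← left_cO rl, hm, map_zero]
  · rw [mem_kerC]
    exact ker_right rj h2 hm a

/-- if the left action is nonzero then its kernel is zero -/
lemma kerL_bot (rl : ∀ (a b : Mat2 F) (m : M.carrier), M.right (M.left a m) b =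
      M.left a (M.left b m + M.right m b) - M.left (a * b) m) (hM : M.IsIrreducible)
    (hL : ¬ ∀ a (m : M.carrier), M.left a m = 0) {m : M.carrier} (hm : ∀ a, M.left a m = 0) :
    m = 0 := by
  rcases hM.2 M.kerL (kerL_isSub rl) with h | h
  · have : m ∈ M.kerL := hm
    rw [h, Submodule.mem_bot] at this
    exact this
  · exfalso
    apply hL
    intro a n
    have : n ∈ M.kerL := by rw [h]; trivial
    exact this a

include rj rl h2

lemma anti_case (hM : M.IsIrreducible)
    (h0 : ∀ m : M.carrier, M.cO (mE F) (mF F) m = 0 → m = 0) :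
    M.Iso (rowBim F) ∨ M.Iso (regBim F) := by
  have h1 : ∀ m : M.carrier, M.right m 1 = m := fun m => (anti_type rj h2 h0 m).1
  have hR : ∀ (m : M.carrier) (a b : Mat2 F), M.right (M.right m b) a = M.right m (b * a) :=
    fun m => (anti_type rj h2 h0 m).2
  by_cases hL0 : ∀ a (m : M.carrier), M.left a m = 0
  · exact Or.inl (from_row hM hL0 h1 hR)
  right
  have hC : ∀ (a b : Mat2 F) (m : M.carrier), M.cO a b m = -((2 : F) • M.right m (a * b - b * a)) := by
    intro a b m
    unfold cO
    rw [hR, hR, map_sub]
    module
  have hcomm : ∀ (c a b : Mat2 F) (m : M.carrier),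
      M.left c (M.right m (a * b - b * a)) = M.right (M.left c m) (a * b - b * a) := by
    intro c a b m
    have h := left_cO rl a b c m
    rw [hC, hC, map_neg, map_smul] at h
    have h5 : (2 : F) • (M.left c (M.right m (a * b - b * a)) -
        M.right (M.left c m) (a * b - b * a)) = 0 := by
      rw [smul_sub]
      linear_combination (norm := module) -h
    exact sub_eq_zero.mp ((smul_eq_zero.mp h5).resolve_left h2)
  have cH : ∀ (c : Mat2 F) (m : M.carrier), M.left c (M.right m (mH F)) =
      M.right (M.left c m) (mH F) := by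
    intro c m
    have h := hcomm c (mE F) (mF F) m
    rw [cEF] at h
    exact h
  have cE : ∀ (c : Mat2 F) (m : M.carrier), M.left c (M.right m (mE F)) =
      M.right (M.left c m) (mE F) := by
    intro c m
    have h := hcomm c (mH F) (mE F) m
    rw [cHE, map_smul, map_smul, map_smul] at h
    have h5 : (2 : F) • (M.left c (M.right m (mE F)) - M.right (M.left c m) (mE F)) = 0 := by
      rw [smul_sub, h, sub_self]
    exact sub_eq_zero.mp ((smul_eq_zero.mp h5).resolve_left h2)
  have cF : ∀ (c : Mat2 F) (m : M.carrier), M.left c (M.right m (mF F)) =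
      M.right (M.left c m) (mF F) := by
    intro c m
    have h := hcomm c (mF F) (mH F) m
    rw [cFH, map_smul, map_smul, map_smul] at h
    have h5 : (2 : F) • (M.left c (M.right m (mF F)) - M.right (M.left c m) (mF F)) = 0 := by
      rw [smul_sub, h, sub_self]
    exact sub_eq_zero.mp ((smul_eq_zero.mp h5).resolve_left h2)
  have cA : ∀ (c : Mat2 F) (m : M.carrier), M.left c (M.right m (mA F)) =
      M.right (M.left c m) (mA F) := by
    intro c m
    have h := cH c m
    rw [H_eq, map_sub, map_sub, map_smul, map_smul, h1, map_sub, map_smul, h1] at h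
    have h5 : (2 : F) • (M.left c (M.right m (mA F)) - M.right (M.left c m) (mA F)) = 0 := by
      rw [smul_sub]
      linear_combination (norm := module) h
    exact sub_eq_zero.mp ((smul_eq_zero.mp h5).resolve_left h2)
  have cB : ∀ (c : Mat2 F) (m : M.carrier), M.left c (M.right m (mB F)) =
      M.right (M.left c m) (mB F) := by
    intro c m
    have h : M.left c (M.right m (mA F + mB F)) = M.right (M.left c m) (mA F + mB F) := by
      rw [sum_AB, h1, h1]
    rw [map_add, map_add, map_add, cA] at h
    exact add_left_cancel h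
  have hLR : ∀ (m : M.carrier) (a b : Mat2 F), M.left a (M.right m b) =
      M.right (M.left a m) b := by
    intro m a b
    rw [mat_eq b]
    simp only [map_add, map_smul, cA, cB, cE, cF]
  have hLL : ∀ (m : M.carrier) (a b : Mat2 F), M.left a (M.left b m) = M.left (a * b) m := by
    intro m a b
    have h := rl a b m
    rw [map_add, hLR] at h
    linear_combination (norm := module) -h
  have l1 : ∀ m : M.carrier, M.left 1 m = m := by
    intro m
    have h : ∀ a, M.left a (M.left 1 m - m) = 0 := by
      intro a
      rw [map_sub, hLL, mul_one, sub_self]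
    exact sub_eq_zero.mp (kerL_bot rl hM hL0 h)
  exact from_reg hM h1 hR l1 hLL hLR

omit rj h2 in
lemma zero_case (hM : M.IsIrreducible) (hR0 : ∀ (m : M.carrier) a, M.right m a = 0) :
    M.Iso (trivBim F) ∨ M.Iso (colBim F) := by
  by_cases hL0 : ∀ a (m : M.carrier), M.left a m = 0
  · exact Or.inl (from_triv hM hL0 hR0)
  right
  have hLL : ∀ (m : M.carrier) (a b : Mat2 F), M.left a (M.left b m) = M.left (a * b) m := by
    intro m a b
    have h := rl a b m
    rw [hR0, hR0, add_zero] at h
    exact (sub_eq_zero.mp h.symm)
  have l1 : ∀ m : M.carrier, M.left 1 m = m := by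
    intro m
    have h : ∀ a, M.left a (M.left 1 m - m) = 0 := by
      intro a
      rw [map_sub, hLL, mul_one, sub_self]
    exact sub_eq_zero.mp (kerL_bot rl hM hL0 h)
  exact from_col hM hR0 l1 hLL

omit rj h2 in
lemma hom_case (hM : M.IsIrreducible)
    (hR : ∀ (m : M.carrier) (a b : Mat2 F), M.right (M.right m b) a = M.right m (a * b))
    (hR0 : ¬ ∀ (m : M.carrier) a, M.right m a = 0) : HomT M := by
  refine ⟨hR, rl, ?_⟩
  intro m
  by_cases hL0 : ∀ a (m : M.carrier), M.left a m = 0
  · -- the left action is zero
    have h1 : ∀ m : M.carrier, M.right m 1 = m := by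
      let N : Submodule F M.carrier :=
        { carrier := {m | M.right m 1 = m}
          add_mem' := by
            intro m n hm hn
            simp only [Set.mem_ofPred_eq] at hm hn ⊢
            rw [map_add, LinearMap.add_apply, hm, hn]
          zero_mem' := by
            simp only [Set.mem_ofPred_eq]
            rw [map_zero, LinearMap.zero_apply]
          smul_mem' := by
            intro c m hm
            simp only [Set.mem_ofPred_eq] at hm ⊢
            rw [map_smul, LinearMap.smul_apply, hm] }
      have hN : ∀ m : M.carrier, m ∈ N ↔ M.right m 1 = m := fun m => Iff.rfl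
      rcases hM.2 N (by
        intro a m hm
        refine ⟨?_, ?_⟩
        · rw [hL0]; exact N.zero_mem
        · rw [hN, hR, one_mul]) with h | h
      · exfalso
        apply hR0
        intro m a
        have : M.right m a ∈ N := by rw [hN, hR, one_mul]
        rw [h, Submodule.mem_bot] at this
        exact this
      · intro m
        rw [← hN, h]; trivial
    have ht : ∀ m : M.carrier, M.tOp 1 m = m := by
      intro m
      unfold tOp
      rw [hL0, h1, zero_add]
    rw [ht, ht]
    module
  · have h : ∀ a, M.left a (M.tOp 1 (M.tOp 1 m) - ((3 : F) • M.tOp 1 m - (2 : F) • m)) = 0 := by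
      intro a
      have e1 : ∀ m : M.carrier, M.left a (M.tOp 1 m) = M.right (M.left a m) 1 + M.left a m := by
        intro m
        rw [left_tOp rl, mul_one]
      have e2 : ∀ m : M.carrier, M.right (M.right m 1) 1 = M.right m 1 := by
        intro m; rw [hR, mul_one]
      rw [map_sub, map_sub, map_smul, map_smul, e1, e1, map_add, LinearMap.add_apply, e2]
      module
    exact sub_eq_zero.mp (kerL_bot rl hM hL0 h)

end main

/-- the case where the invariants are zero -/
lemma six_of_zero (H : HomT M) (h2 : (2 : F) ≠ 0) (hM : M.IsIrreducible)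
    (hR0 : ¬ ∀ (m : M.carrier) a, M.right m a = 0) (he : ∀ m : M.carrier, M.eOp m = 0) :
    M.Iso (sixBim F) := by
  have h4 : (4 : F) ≠ 0 := by
    have : (4 : F) = 2 * 2 := by norm_num
    rw [this]; exact mul_ne_zero h2 h2
  have hu : ∀ u : M.carrier, M.right u 1 = u → M.tOp 1 u = (2 : F) • u := by
    intro u hu
    have h := H.eOp_decomp h2 u
    rw [he, he, hu, add_zero] at h
    have h3 : M.left 1 u = u := (sub_eq_zero.mp h.symm).symm
    unfold tOp
    rw [h3, hu]
    module
  let N : Submodule F M.carrier :=
    { carrier := {m | M.tOp 1 m = (2 : F) • m}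
      add_mem' := by
        intro m n hm hn
        simp only [Set.mem_ofPred_eq] at hm hn ⊢
        rw [HomT.t_add, hm, hn, smul_add]
      zero_mem' := by
        simp only [Set.mem_ofPred_eq]
        rw [HomT.t_zero, smul_zero]
      smul_mem' := by
        intro c m hm
        simp only [Set.mem_ofPred_eq] at hm ⊢
        rw [HomT.t_smul, hm, smul_comm] }
  have hN : ∀ m : M.carrier, m ∈ N ↔ M.tOp 1 m = (2 : F) • m := fun m => Iff.rfl
  have hr : ∀ (m : M.carrier) (a : Mat2 F), M.right m a ∈ N := by
    intro m a
    rw [hN]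
    exact hu _ (H.right_one_right m a)
  have htop : ∀ m : M.carrier, M.tOp 1 m = (2 : F) • m := by
    rcases hM.2 N (by
      intro a m hm
      refine ⟨?_, hr m a⟩
      have h1 : M.left a m = M.tOp a m - M.right m a := by
        unfold tOp; abel
      rw [h1]
      refine N.sub_mem ?_ (hr m a)
      rw [hN] at hm ⊢
      exact H.two_t hm a) with h | h
    · exfalso
      apply hR0
      intro m a
      have := hr m a
      rw [h, Submodule.mem_bot] at this
      exact this
    · intro m
      rw [← hN, h]; trivial
  have hom : ∀ m : M.carrier, M.om m = (4 : F) • m := by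
    intro m
    have h := H.eOp_two h2 (htop m)
    rw [he] at h
    have h3 := congrArg (fun z => (4 : F) • z) h
    simp only [smul_zero, smul_sub, smul_smul, mul_inv_cancel₀ h4, one_smul] at h3
    exact (sub_eq_zero.mp h3.symm).symm
  have : Nontrivial M.carrier := hM.1
  obtain ⟨φ, hφ0, hφ⟩ := six_case h2 (V := M.carrier) M.left M.right.flip
    (fun m => H.two_right h2 (htop m)) (fun m => H.two_left_one h2 (htop m))
    (fun a b m => H.rr m a b) (fun a b m => H.rl a b m) (fun m => hom m)
  exact (schur (M := sixBim F) (six_irr F h2) hM φ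
    ⟨fun a m => (hφ a m).1, fun m a => (hφ a m).2⟩ hφ0).symm

/-- the classification -/
theorem classify (h2 : (2 : F) ≠ 0) (hRA : M.IsRightAlternative) (hM : M.IsIrreducible) :
    M.Iso (trivBim F) ∨ M.Iso (rowBim F) ∨ M.Iso (colBim F) ∨ M.Iso (regBim F) ∨
      M.Iso (sixBim F) ∨ ∃ Y : Quad.{u, v} F, Y.IsIrreducible ∧ M.Iso (simpleBim Y) := by
  obtain ⟨rj, rl⟩ := M.ra_iff.mp hRA
  rcases hM.2 M.kerC (kerC_isSub rj rl h2) with h | h
  · have h0 : ∀ m : M.carrier, M.cO (mE F) (mF F) m = 0 → m = 0 := by
      intro m hm
      have : m ∈ M.kerC := hm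
      rw [h, Submodule.mem_bot] at this
      exact this
    rcases anti_case rj rl h2 hM h0 with h3 | h3
    · exact Or.inr (Or.inl h3)
    · exact Or.inr (Or.inr (Or.inr (Or.inl h3)))
  · have h0 : ∀ m : M.carrier, M.cO (mE F) (mF F) m = 0 := by
      intro m
      have : m ∈ M.kerC := by rw [h]; trivial
      exact this
    have hR := hom_type rj h2 h0
    by_cases hR0 : ∀ (m : M.carrier) a, M.right m a = 0
    · rcases zero_case rl hM hR0 with h3 | h3
      · exact Or.inl h3
      · exact Or.inr (Or.inr (Or.inl h3))
    have H : HomT M := hom_case rl hM hR hR0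
    by_cases hq : Nontrivial (H.quad h2).carrier
    · exact Or.inr (Or.inr (Or.inr (Or.inr (Or.inr
        ⟨H.quad h2, H.quad_irr h2 hM hq, H.iso_simple h2 hM hq⟩))))
    · rw [not_nontrivial_iff_subsingleton] at hq
      have he : ∀ m : M.carrier, M.eOp m = 0 := by
        intro m
        have h3 : H.pr h2 m = 0 := Subsingleton.elim _ _
        rw [← H.inc_pr h2 m, h3, map_zero]
      exact Or.inr (Or.inr (Or.inr (Or.inr (Or.inl (six_of_zero H h2 hM hR0 he)))))

end Bimodule

end Pool.Agent.H581.RA
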