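import Mathlib

/-!
Right alternative bimodules over the algebra of 2 by 2 matrices: definitions, the five exceptional
irreducible bimodules, and the bimodule `N(Y)` attached to a vector space `Y` with a linear map
`h : Mat2 F → End Y`, `h 1 = 1`, and an idempotent `e`.
-/

namespace Pool.Agent.H581.RA

universe u v w x y

/-- The associative algebra of 2 by 2 matrices over `F`. -/
abbrev Mat2 (F : Type u) : Type u := Matrix (Fin 2) (Fin 2) F

/-- A bimodule over the algebra of 2 by 2 matrices over `F`: a vector space with a bilinear left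
action and a bilinear right action (`right m a` is `m a`), no further axiom. -/
structure Bimodule (F : Type u) [Field F] where
  carrier : Type v
  [grp : AddCommGroup carrier]
  [mod : Module F carrier]
  left : Mat2 F →ₗ[F] carrier →ₗ[F] carrier
  right : carrier →ₗ[F] Mat2 F →ₗ[F] carrier

attribute [instance] Bimodule.grp Bimodule.mod

namespace Bimodule

variable {F : Type u} [Field F] (M : Bimodule.{u, v} F)

/-- The product `a m`. -/
def lm (a : Mat2 F) (m : M.carrier) : M.carrier := M.left a m

/-- The product `m a`. -/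
def rm (m : M.carrier) (a : Mat2 F) : M.carrier := M.right m a

/-- Multiplication of the split null extension, whose underlying space is `Mat2 F × M`. -/
def extMul (x y : Mat2 F × M.carrier) : Mat2 F × M.carrier :=
  (x.1 * y.1, M.lm x.1 y.2 + M.rm x.2 y.1)

/-- The bimodule is right alternative: its split null extension satisfies `(xy)y = x(yy)`. -/
def RightAlternative : Prop :=
  ∀ x y : Mat2 F × M.carrier, M.extMul (M.extMul x y) y = M.extMul x (M.extMul y y)

/-- The subspaces of `M`. -/
abbrev Subspaces : Type v := Submodule F M.carrier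

/-- The subspace is a sub-bimodule. -/
def Stable (N : M.Subspaces) : Prop :=
  ∀ (a : Mat2 F), ∀ m ∈ N, M.lm a m ∈ N ∧ M.rm m a ∈ N

/-- The bimodule is nonzero and its only sub-bimodules are zero and itself. -/
def Irreducible : Prop :=
  Nontrivial M.carrier ∧ ∀ N : M.Subspaces, M.Stable N → N = ⊥ ∨ N = ⊤

/-- Isomorphism of bimodules: a linear bijection commuting with both actions. -/
def Isomorphic (M' : Bimodule.{u, w} F) : Prop :=
  ∃ φ : M.carrier → M'.carrier, IsLinearMap F φ ∧ Function.Bijective φ ∧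
    (∀ (a : Mat2 F) (m : M.carrier), φ (M.lm a m) = M'.lm a (φ m)) ∧
    (∀ (m : M.carrier) (a : Mat2 F), φ (M.rm m a) = M'.rm (φ m) a)

end Bimodule

/-- Bilinearity of a function of two variables. -/
structure IsBil (F : Type u) [Field F] {X : Type v} {Y : Type w} {Z : Type x} [AddCommGroup X]
    [Module F X] [AddCommGroup Y] [Module F Y] [AddCommGroup Z] [Module F Z]
    (f : X → Y → Z) : Prop where
  add_left : ∀ x x' y, f (x + x') y = f x y + f x' y
  smul_left : ∀ (c : F) x y, f (c • x) y = c • f x y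
  add_right : ∀ x y y', f x (y + y') = f x y + f x y'
  smul_right : ∀ (c : F) x y, f x (c • y) = c • f x y

/-- A bilinear function as a linear map to linear maps. -/
def mkBil (F : Type u) [Field F] {X : Type v} {Y : Type w} {Z : Type x} [AddCommGroup X]
    [Module F X] [AddCommGroup Y] [Module F Y] [AddCommGroup Z] [Module F Z]
    (f : X → Y → Z) (hf : IsBil F f) : X →ₗ[F] Y →ₗ[F] Z :=
  LinearMap.mk₂ F f hf.add_left hf.smul_left hf.add_right hf.smul_right

namespace Bimodule

variable {F : Type u} [Field F] (M : Bimodule.{u, v} F)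

/-- The elements of a subspace. -/
abbrev Elements (N : M.Subspaces) : Type v := ↥N

/-- The left action on a sub-bimodule. -/
def subLm (N : M.Subspaces) (hN : M.Stable N) (a : Mat2 F) (m : M.Elements N) : M.Elements N :=
  ⟨M.lm a m.1, (hN a m.1 m.2).1⟩

/-- The right action on a sub-bimodule. -/
def subRm (N : M.Subspaces) (hN : M.Stable N) (m : M.Elements N) (a : Mat2 F) : M.Elements N :=
  ⟨M.rm m.1 a, (hN a m.1 m.2).2⟩

lemma subLm_bil (N : M.Subspaces) (hN : M.Stable N) : IsBil F (M.subLm N hN) :=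
  ⟨fun a b m => by ext; simp [subLm, lm], fun c a m => by ext; simp [subLm, lm],
    fun a m n => by ext; simp [subLm, lm], fun c a m => by ext; simp [subLm, lm]⟩

lemma subRm_bil (N : M.Subspaces) (hN : M.Stable N) : IsBil F (M.subRm N hN) :=
  ⟨fun a b m => by ext; simp [subRm, rm], fun c a m => by ext; simp [subRm, rm],
    fun a m n => by ext; simp [subRm, rm], fun c a m => by ext; simp [subRm, rm]⟩

/-- A sub-bimodule, as a bimodule. -/
def restrict (N : M.Subspaces) (hN : M.Stable N) : Bimodule.{u, v} F where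
  carrier := M.Elements N
  left := mkBil F (M.subLm N hN) (M.subLm_bil N hN)
  right := mkBil F (M.subRm N hN) (M.subRm_bil N hN)

/-- The sub-bimodule generated by a set: the intersection of all sub-bimodules which contain it. -/
def span (S : Set M.carrier) : M.Subspaces :=
  sInf {N | M.Stable N ∧ S ⊆ N}

lemma span_stable (S : Set M.carrier) : M.Stable (M.span S) := by
  intro a m hm
  simp only [span, Submodule.mem_sInf, Set.mem_ofPred_eq] at hm ⊢
  exact ⟨fun N hN => (hN.1 a m (hm N hN)).1, fun N hN => (hN.1 a m (hm N hN)).2⟩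

end Bimodule

/-- The data `Y` of the classification: a vector space with a linear map `h` from the 2 by 2
matrices to its endomorphisms such that `h 1 = 1`, and an idempotent endomorphism `e`.  The three
endomorphisms `h (e₁₁)`, `h (e₁₂)`, `h (e₂₁)` are arbitrary and determine `h`, so this is the same
as a module over the algebra `F⟨x, y, z, e | e² = e⟩`. -/
structure Quad (F : Type u) [Field F] where
  carrier : Type v
  [grp : AddCommGroup carrier]
  [mod : Module F carrier]
  h : Mat2 F →ₗ[F] carrier →ₗ[F] carrier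
  h_one : ∀ y, h 1 y = y
  e : carrier →ₗ[F] carrier
  e_idem : ∀ y, e (e y) = e y

attribute [instance] Quad.grp Quad.mod

namespace Quad

variable {F : Type u} [Field F] (Y : Quad.{u, v} F)

/-- The operator `h a`. -/
def ha (a : Mat2 F) (y : Y.carrier) : Y.carrier := Y.h a y

/-- The operator `e`. -/
def ee (y : Y.carrier) : Y.carrier := Y.e y

/-- The subspaces of `Y`. -/
abbrev Subspaces : Type v := Submodule F Y.carrier

/-- Irreducibility: nonzero, and no subspaces stable under all `h a` and `e` except zero and the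
whole space. -/
def Irreducible : Prop :=
  Nontrivial Y.carrier ∧ ∀ N : Y.Subspaces,
    (∀ y ∈ N, (∀ a, Y.ha a y ∈ N) ∧ Y.ee y ∈ N) → N = ⊥ ∨ N = ⊤

/-- Isomorphism: a linear bijection commuting with all `h a` and with `e`. -/
def Isomorphic (Y' : Quad.{u, w} F) : Prop :=
  ∃ φ : Y.carrier → Y'.carrier, IsLinearMap F φ ∧ Function.Bijective φ ∧
    ∀ y, (∀ a, φ (Y.ha a y) = Y'.ha a (φ y)) ∧ φ (Y.ee y) = Y'.ee (φ y)

/-- Linear maps from the 2 by 2 matrices to `Y`. -/
abbrev Maps : Type (max u v) := Mat2 F →ₗ[F] Y.carrier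

/-- Pairs of linear maps from the 2 by 2 matrices to `Y`. -/
abbrev Pairs : Type (max u v) := Y.Maps × Y.Maps

/-- The linear map `a ↦ h (a) y`. -/
def toMap (y : Y.carrier) : Y.Maps := Y.h.flip y

/-- The value at the unit matrix. -/
def atOne (g : Y.Maps) : Y.carrier := g 1

/-- `(R b g)(a) = g (a b)`. -/
def mapR (b : Mat2 F) (g : Y.Maps) : Y.Maps := g ∘ₗ LinearMap.mulRight F b

/-- `a ↦ a b - b a`. -/
def comm (b : Mat2 F) : Mat2 F →ₗ[F] Mat2 F := LinearMap.mulRight F b - LinearMap.mulLeft F b

/-- The conjugate (adjugate) `tr b - b` of a 2 by 2 matrix. -/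
def conj (b : Mat2 F) : Mat2 F := b.trace • 1 - b

/-- `(L b g)(a) = g ((tr b - b) a) - h (a b - b a) (g 1)`. -/
def mapL (b : Mat2 F) (g : Y.Maps) : Y.Maps :=
  g ∘ₗ LinearMap.mulLeft F (conj b) - (Y.toMap (Y.atOne g)) ∘ₗ comm b

/-- The idempotent operator `E`: `(E g)(a) = h (a) (e (g 1))`. -/
def mapE (g : Y.Maps) : Y.Maps := Y.toMap (Y.ee (Y.atOne g))

/-- The complementary idempotent operator `P = 1 - E`. -/
def mapP (g : Y.Maps) : Y.Maps := g - Y.mapE g

/-- The left action on `N(Y)`: `b (u, v) = (L b P (u - v), P R b (E u + P v))`. -/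
def pairL (b : Mat2 F) (m : Y.Pairs) : Y.Pairs :=
  (Y.mapL b (Y.mapP (m.1 - m.2)), Y.mapP (Y.mapR b (Y.mapE m.1 + Y.mapP m.2)))

/-- The right action on `N(Y)`: `(u, v) b = (R b u, 0)`. -/
def pairR (m : Y.Pairs) (b : Mat2 F) : Y.Pairs := (Y.mapR b m.1, 0)

lemma mapR_apply (b : Mat2 F) (g : Y.Maps) (a : Mat2 F) : Y.mapR b g a = g (a * b) := rfl

lemma mapL_apply (b : Mat2 F) (g : Y.Maps) (a : Mat2 F) :
    Y.mapL b g a = g (conj b * a) - Y.h (a * b - b * a) (g 1) := by
  simp [mapL, comm, toMap, atOne]

lemma mapE_apply (g : Y.Maps) (a : Mat2 F) : Y.mapE g a = Y.h a (Y.e (g 1)) := rfl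

lemma conj_add (a b : Mat2 F) : conj (a + b) = conj a + conj b := by
  simp [conj, add_smul]; abel

lemma conj_smul (c : F) (a : Mat2 F) : conj (c • a) = c • conj a := by
  simp [conj, smul_sub, mul_smul]

lemma pairL_bil : IsBil F Y.pairL := by
  refine ⟨fun a b m => ?_, fun c a m => ?_, fun a m n => ?_, fun c a m => ?_⟩
  · refine Prod.ext ?_ ?_ <;> refine LinearMap.ext fun c => ?_ <;>
      simp [pairL, mapP, mapL_apply, mapR_apply, mapE_apply, conj_add, mul_add, add_mul, map_add,
        map_sub] <;>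
      abel
  · refine Prod.ext ?_ ?_ <;> refine LinearMap.ext fun c => ?_ <;>
      simp [pairL, mapP, mapL_apply, mapR_apply, mapE_apply, conj_smul, map_add, map_sub, smul_sub,
        smul_add]
  · refine Prod.ext ?_ ?_ <;> refine LinearMap.ext fun c => ?_ <;>
      simp [pairL, mapP, mapL_apply, mapR_apply, mapE_apply, map_add, map_sub] <;>
      abel
  · refine Prod.ext ?_ ?_ <;> refine LinearMap.ext fun c => ?_ <;>
      simp [pairL, mapP, mapL_apply, mapR_apply, mapE_apply, map_add, map_sub, smul_sub, smul_add]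

lemma pairR_bil : IsBil F Y.pairR := by
  refine ⟨fun m n a => ?_, fun c m a => ?_, fun m a b => ?_, fun c m a => ?_⟩
  · refine Prod.ext ?_ ?_ <;> simp [pairR, mapR, LinearMap.add_comp]
  · refine Prod.ext ?_ ?_ <;> simp [pairR, mapR, LinearMap.smul_comp]
  · refine Prod.ext ?_ ?_
    · refine LinearMap.ext fun c => ?_
      simp [pairR, mapR_apply, mul_add]
    · simp [pairR]
  · refine Prod.ext ?_ ?_
    · refine LinearMap.ext fun c => ?_
      simp [pairR, mapR_apply]
    · simp [pairR]

/-- The bimodule `N(Y)`: pairs of linear maps from the 2 by 2 matrices to `Y`. -/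
def pairs : Bimodule.{u, max u v} F where
  carrier := Y.Pairs
  left := mkBil F Y.pairL Y.pairL_bil
  right := mkBil F Y.pairR Y.pairR_bil

/-- The copy of `Y` in `N(Y)`: `y` is sent to `(a ↦ h (a) y, 0)`. -/
def copy (y : Y.carrier) : Y.pairs.carrier := (Y.toMap y, 0)

/-- The bimodule attached to `Y`: the sub-bimodule of `N(Y)` generated by the copy of `Y`. -/
def bimodule : Bimodule.{u, max u v} F :=
  Y.pairs.restrict (Y.pairs.span (Set.range Y.copy)) (Y.pairs.span_stable _)

end Quad

section Five

variable (F : Type u) [Field F]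

/-- The one-dimensional bimodule with zero actions. -/
def zeroBimodule : Bimodule.{u, u} F where
  carrier := F
  left := 0
  right := 0

/-- Row times matrix. -/
def rowMul (v : Fin 2 → F) (a : Mat2 F) : Fin 2 → F := Matrix.vecMul v a

/-- Matrix times column. -/
def colMul (a : Mat2 F) (v : Fin 2 → F) : Fin 2 → F := Matrix.mulVec a v

/-- The right action on the six-dimensional bimodule, in the coordinates
`(p₁, p₂, q₁, q₂, r₁, r₂)`. -/
def sixR (m : Fin 6 → F) (a : Mat2 F) : Fin 6 → F :=
  ![a 0 0 * m 0 + (a 0 0 - a 1 1) * m 3 - a 0 1 * m 2 + a 0 1 * m 5 + a 1 0 * m 1,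
    a 0 0 * m 1 - a 0 1 * m 3,
    a 0 0 * m 2 + a 0 1 * m 4,
    a 1 1 * m 3 - a 1 0 * m 1,
    a 1 1 * m 4 + a 1 0 * m 2,
    a 1 1 * m 5 + (a 0 0 - a 1 1) * m 2 + a 1 0 * m 3 + a 0 1 * m 4 + a 1 0 * m 0]

/-- The left action on the six-dimensional bimodule. -/
def sixL (a : Mat2 F) (m : Fin 6 → F) : Fin 6 → F :=
  ![a 0 0 * m 0 - (a 0 0 - a 1 1) * m 3 - a 0 1 * m 2 - a 0 1 * m 5 - a 1 0 * m 1,
    a 0 0 * m 1 - a 0 1 * m 3,
    a 1 1 * m 2 - a 1 0 * m 0,
    a 0 0 * m 3 + a 0 1 * m 5,
    a 1 1 * m 4 + a 1 0 * m 2,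
    a 1 1 * m 5 - (a 0 0 - a 1 1) * m 2 + a 1 0 * m 3 - a 0 1 * m 4 - a 1 0 * m 0]

lemma rowMul_bil : IsBil F (rowMul F) :=
  ⟨fun v w a => by simp [rowMul, Matrix.add_vecMul], fun c v a => by simp [rowMul, Matrix.smul_vecMul],
    fun v a b => by simp [rowMul, Matrix.vecMul_add], fun c v a => by simp [rowMul, Matrix.vecMul_smul]⟩

lemma colMul_bil : IsBil F (colMul F) :=
  ⟨fun a b v => by simp [colMul, Matrix.add_mulVec], fun c a v => by simp [colMul, Matrix.smul_mulVec],
    fun a v w => by simp [colMul, Matrix.mulVec_add], fun c a v => by simp [colMul, Matrix.mulVec_smul]⟩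

lemma sixL_bil : IsBil F (sixL F) := by
  refine ⟨fun a b m => ?_, fun c a m => ?_, fun a m n => ?_, fun c a m => ?_⟩ <;>
    ext i <;> fin_cases i <;> simp [sixL] <;> ring

lemma sixR_bil : IsBil F (sixR F) := by
  refine ⟨fun m n a => ?_, fun c m a => ?_, fun m a b => ?_, fun c m a => ?_⟩ <;>
    ext i <;> fin_cases i <;> simp [sixR] <;> ring

/-- Row vectors: `v a` is the usual product, `a v = 0`. -/
def rowBimodule : Bimodule.{u, u} F where
  carrier := Fin 2 → F
  left := 0
  right := mkBil F (rowMul F) (rowMul_bil F)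

/-- Column vectors: `a v` is the usual product, `v a = 0`. -/
def colBimodule : Bimodule.{u, u} F where
  carrier := Fin 2 → F
  left := mkBil F (colMul F) (colMul_bil F)
  right := 0

/-- The regular bimodule: the algebra itself. -/
def regularBimodule : Bimodule.{u, u} F where
  carrier := Mat2 F
  left := LinearMap.mul F (Mat2 F)
  right := LinearMap.mul F (Mat2 F)

/-- The exceptional six-dimensional bimodule. -/
def sixBimodule : Bimodule.{u, u} F where
  carrier := Fin 6 → F
  left := mkBil F (sixL F) (sixL_bil F)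
  right := mkBil F (sixR F) (sixR_bil F)

/-- The five exceptional bimodules, of dimensions 1, 2, 2, 4, 6. -/
def exceptional : Fin 5 → Bimodule.{u, u} F :=
  ![zeroBimodule F, rowBimodule F, colBimodule F, regularBimodule F, sixBimodule F]

end Five

end Pool.Agent.H581.RA
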