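import Pool.Agent.H581.RA.Fam2

/-! Structure of the bimodules of the second kind. -/

namespace Pool.Agent.H581.RA

universe u v w

variable {F : Type u} [Field F]

/-- bimodules of the second kind -/
structure HomT (M : Bimodule.{u, v} F) : Prop where
  rr : ∀ (m : M.carrier) (a b : Mat2 F), M.right (M.right m b) a = M.right m (a * b)
  rl : ∀ (a b : Mat2 F) (m : M.carrier), M.right (M.left a m) b =
      M.left a (M.left b m + M.right m b) - M.left (a * b) m
  tt : ∀ m : M.carrier, M.tOp 1 (M.tOp 1 m) = (3 : F) • M.tOp 1 m - (2 : F) • m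

namespace HomT

open Bimodule

variable {M : Bimodule.{u, v} F} (H : HomT M)

/-- the linear map `m ↦ a m + m a` -/
def tL (M : Bimodule.{u, v} F) : Mat2 F →ₗ[F] M.carrier →ₗ[F] M.carrier := M.left + M.right.flip

lemma tL_apply (a : Mat2 F) (m : M.carrier) : tL M a m = M.tOp a m := rfl

lemma t_add (a : Mat2 F) (m n : M.carrier) : M.tOp a (m + n) = M.tOp a m + M.tOp a n := by
  rw [← tL_apply, map_add]; rfl

lemma t_sub (a : Mat2 F) (m n : M.carrier) : M.tOp a (m - n) = M.tOp a m - M.tOp a n := by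
  rw [← tL_apply, map_sub]; rfl

lemma t_smul (a : Mat2 F) (c : F) (m : M.carrier) : M.tOp a (c • m) = c • M.tOp a m := by
  rw [← tL_apply, map_smul]; rfl

lemma t_neg (a : Mat2 F) (m : M.carrier) : M.tOp a (-m) = - M.tOp a m := by
  rw [← tL_apply, map_neg]; rfl

lemma t_zero (a : Mat2 F) : M.tOp a 0 = 0 := by
  rw [← tL_apply, map_zero]

lemma t_add' (a b : Mat2 F) (m : M.carrier) : M.tOp (a + b) m = M.tOp a m + M.tOp b m := by
  rw [← tL_apply, map_add]; rfl

lemma t_sub' (a b : Mat2 F) (m : M.carrier) : M.tOp (a - b) m = M.tOp a m - M.tOp b m := by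
  rw [← tL_apply, map_sub]; rfl

lemma t_smul' (a : Mat2 F) (c : F) (m : M.carrier) : M.tOp (c • a) m = c • M.tOp a m := by
  rw [← tL_apply, map_smul]; rfl

include H

lemma left_t (a b : Mat2 F) (m : M.carrier) :
    M.left a (M.tOp b m) = M.right (M.left a m) b + M.left (a * b) m := by
  rw [H.rl]; unfold Bimodule.tOp; abel

/-- the key relation -/
lemma key (a b : Mat2 F) (m : M.carrier) : M.tOp a (M.tOp b m) =
    M.right (M.tOp b m) a + M.right (M.tOp a m) b - M.right m (b * a) + M.tOp (a * b) m -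
      M.right m (a * b) := by
  have h1 := H.left_t a b m
  have h2 : M.right (M.left a m) b = M.right (M.tOp a m) b - M.right m (b * a) := by
    rw [← H.rr]; unfold Bimodule.tOp; simp
  have h3 : M.left (a * b) m = M.tOp (a * b) m - M.right m (a * b) := by
    unfold Bimodule.tOp; abel
  have h4 : M.tOp a (M.tOp b m) = M.left a (M.tOp b m) + M.right (M.tOp b m) a := rfl
  rw [h4, h1, h2, h3]; abel

lemma t_comm_one (b : Mat2 F) (m : M.carrier) :
    M.tOp 1 (M.tOp b m) = M.tOp b (M.tOp 1 m) := by
  rw [H.key 1 b, H.key b 1, one_mul, mul_one]; abel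

lemma right_left_one (a : Mat2 F) (m : M.carrier) :
    M.right (M.left a m) 1 = M.left a (M.tOp 1 m) - M.left a m := by
  rw [H.rl, mul_one]; rfl

lemma right_one_right (m : M.carrier) (a : Mat2 F) :
    M.right (M.right m a) 1 = M.right m a := by rw [H.rr, one_mul]

lemma right_right_one (m : M.carrier) (a : Mat2 F) :
    M.right (M.right m 1) a = M.right m a := by rw [H.rr, mul_one]

/-- elements on which `T₁ = 2` -/
lemma two_left {w : M.carrier} (hw : M.tOp 1 w = (2 : F) • w) (a : Mat2 F) :
    M.right (M.left a w) 1 = M.left a w := by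
  rw [H.right_left_one, hw, map_smul]; module

lemma two_right (h2 : (2 : F) ≠ 0) {w : M.carrier} (hw : M.tOp 1 w = (2 : F) • w) :
    M.right w 1 = w := by
  have h1 := H.two_left hw 1
  have h3 : M.left 1 w = (2 : F) • w - M.right w 1 := by
    rw [← hw]; unfold Bimodule.tOp; abel
  rw [h3, map_sub, map_smul, LinearMap.sub_apply, LinearMap.smul_apply, H.right_one_right] at h1
  have h5 : (2 : F) • (M.right w 1 - w) = 0 := by
    linear_combination (norm := module) h1
  rcases smul_eq_zero.mp h5 with h | h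
  · exact absurd h h2
  · exact sub_eq_zero.mp h

lemma two_left_one (h2 : (2 : F) ≠ 0) {w : M.carrier} (hw : M.tOp 1 w = (2 : F) • w) :
    M.left 1 w = w := by
  have h1 := H.two_right h2 hw
  have h3 : M.tOp 1 w = M.left 1 w + M.right w 1 := rfl
  rw [hw, h1] at h3
  linear_combination (norm := module) -h3

lemma two_t {w : M.carrier} (hw : M.tOp 1 w = (2 : F) • w) (a : Mat2 F) :
    M.tOp 1 (M.tOp a w) = (2 : F) • M.tOp a w := by
  rw [H.t_comm_one, hw, t_smul]

/-- elements on which `T₁ = 1` -/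
lemma one_left {w : M.carrier} (hw : M.tOp 1 w = w) (a : Mat2 F) :
    M.right (M.left a w) 1 = 0 := by
  rw [H.right_left_one, hw, sub_self]

lemma one_t {w : M.carrier} (hw : M.tOp 1 w = w) (a : Mat2 F) :
    M.tOp 1 (M.tOp a w) = M.tOp a w := by
  rw [H.t_comm_one, hw]

lemma two_pi (m : M.carrier) : M.tOp 1 (M.tOp 1 m - m) = (2 : F) • (M.tOp 1 m - m) := by
  rw [t_sub, H.tt]; module

lemma one_pi (m : M.carrier) : M.tOp 1 ((2 : F) • m - M.tOp 1 m) = (2 : F) • m - M.tOp 1 m := by
  rw [t_sub, t_smul, H.tt]; module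

lemma pi_eq {m : M.carrier} (hm : M.right m 1 = m) : M.tOp 1 m - m = M.left 1 m := by
  unfold Bimodule.tOp; rw [hm]; abel

lemma two_left1 {m : M.carrier} (hm : M.right m 1 = m) :
    M.tOp 1 (M.left 1 m) = (2 : F) • M.left 1 m := by
  rw [← H.pi_eq hm]; exact H.two_pi m

lemma one_sub {m : M.carrier} (hm : M.right m 1 = m) :
    M.tOp 1 (m - M.left 1 m) = m - M.left 1 m := by
  have h1 : m - M.left 1 m = (2 : F) • m - M.tOp 1 m := by
    rw [← H.pi_eq hm]; module
  rw [h1]; exact H.one_pi m

lemma right_sub (h2 : (2 : F) ≠ 0) {m : M.carrier} (hm : M.right m 1 = m) :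
    M.right (m - M.left 1 m) 1 = m - M.left 1 m := by
  rw [map_sub, LinearMap.sub_apply, hm, H.two_right h2 (H.two_left1 hm)]

/-- for `x` with `T₁ x = x = x 1` one has `1 x = 0` -/
lemma left_zero {x : M.carrier} (hx : M.tOp 1 x = x) (hx' : M.right x 1 = x) :
    M.left 1 x = 0 := by
  have h3 : M.tOp 1 x = M.left 1 x + M.right x 1 := rfl
  rw [hx, hx'] at h3
  linear_combination (norm := module) -h3

/-- the relation for traceless matrices on the `2`-eigenspace of `T₁` -/
lemma key0 (h2 : (2 : F) ≠ 0) {w : M.carrier} (hw : M.tOp 1 w = (2 : F) • w) {a b : Mat2 F}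
    (ha : a.trace = 0) (hb : b.trace = 0) : M.tOp a (M.tOp b w) =
    M.right (M.tOp b w) a + M.right (M.tOp a w) b + (2 : F)⁻¹ • M.tOp (a * b - b * a) w := by
  have h1 : a * b + b * a = (a * b).trace • (1 : Mat2 F) := by
    have ha' : a 1 1 = - a 0 0 := by
      simp [Matrix.trace, Fin.sum_univ_two] at ha
      linear_combination ha
    have hb' : b 1 1 = - b 0 0 := by
      simp [Matrix.trace, Fin.sum_univ_two] at hb
      linear_combination hb
    ext i j
    fin_cases i <;> fin_cases j <;>
      simp [Matrix.mul_apply, Fin.sum_univ_two, Matrix.trace, ha', hb'] <;> ring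
  have h3 : M.right w (a * b) + M.right w (b * a) = (a * b).trace • w := by
    rw [← map_add, h1, map_smul, H.two_right h2 hw]
  have h4 : M.tOp (a * b) w = (a * b).trace • w + (2 : F)⁻¹ • M.tOp (a * b - b * a) w := by
    have h5 : (2 : F) • (a * b) = (a * b + b * a) + (a * b - b * a) := by
      rw [two_smul]; abel
    have h6 : (2 : F) • M.tOp (a * b) w = (2 * (a * b).trace) • w + M.tOp (a * b - b * a) w := by
      rw [← t_smul', h5, t_add', h1, t_smul', hw, smul_smul, mul_comm]
    have h7 := congrArg (fun z => (2 : F)⁻¹ • z) h6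
    simp only [smul_smul, smul_add, inv_mul_cancel₀ h2, one_smul, ← mul_assoc, one_mul] at h7
    exact h7
  rw [H.key a b, h4]
  linear_combination (norm := module) -h3

end HomT

end Pool.Agent.H581.RA
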