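import Pool.Agent.H581.RA.Str

/-! The Casimir operator on the 2-eigenspace of `T₁`. -/

namespace Pool.Agent.H581.RA

universe u v w

variable {F : Type u} [Field F]

/-- the matrix unit `e₁₁` -/
def mA (F : Type u) [Field F] : Mat2 F := !![1, 0; 0, 0]

lemma EE : mE F * mE F = 0 := by
  ext i j; fin_cases i <;> fin_cases j <;> simp [mE]
lemma FF : mF F * mF F = 0 := by
  ext i j; fin_cases i <;> fin_cases j <;> simp [mF]
lemma HH : mH F * mH F = 1 := by
  ext i j; fin_cases i <;> fin_cases j <;> simp [mH]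
lemma EF : mE F * mF F = mA F := by
  ext i j; fin_cases i <;> fin_cases j <;> simp [mE, mF, mA]
lemma FE : mF F * mE F = 1 - mA F := by
  ext i j; fin_cases i <;> fin_cases j <;> simp [mE, mF, mA]
lemma HE : mH F * mE F = mE F := by
  ext i j; fin_cases i <;> fin_cases j <;> simp [mE, mH]
lemma EH : mE F * mH F = - mE F := by
  ext i j; fin_cases i <;> fin_cases j <;> simp [mE, mH]
lemma HF : mH F * mF F = - mF F := by
  ext i j; fin_cases i <;> fin_cases j <;> simp [mF, mH]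
lemma FH : mF F * mH F = mF F := by
  ext i j; fin_cases i <;> fin_cases j <;> simp [mF, mH]
lemma H_eq : mH F = (2 : F) • mA F - 1 := by
  ext i j; fin_cases i <;> fin_cases j <;> simp [mA, mH] <;> norm_num

lemma cEF : mE F * mF F - mF F * mE F = mH F := by rw [EF, FE, H_eq, two_smul]; abel
lemma cFE : mF F * mE F - mE F * mF F = - mH F := by rw [EF, FE, H_eq, two_smul]; abel
lemma cHE : mH F * mE F - mE F * mH F = (2 : F) • mE F := by rw [HE, EH, two_smul]; abel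
lemma cEH : mE F * mH F - mH F * mE F = -((2 : F) • mE F) := by rw [HE, EH, two_smul]; abel
lemma cHF : mH F * mF F - mF F * mH F = -((2 : F) • mF F) := by rw [HF, FH, two_smul]; abel
lemma cFH : mF F * mH F - mH F * mF F = (2 : F) • mF F := by rw [HF, FH, two_smul]; abel

namespace HomT

open Bimodule

variable {M : Bimodule.{u, v} F} (H : HomT M)

lemma t_neg' (a : Mat2 F) (m : M.carrier) : M.tOp (-a) m = - M.tOp a m := by
  rw [← tL_apply, map_neg]; rfl

include H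

section rel

variable (h2 : (2 : F) ≠ 0) {w : M.carrier} (hw : M.tOp 1 w = (2 : F) • w)
include h2 hw

lemma tEE : M.tOp (mE F) (M.tOp (mE F) w) = (2 : F) • M.right (M.tOp (mE F) w) (mE F) := by
  rw [H.key0 h2 hw tr_E tr_E, sub_self]
  have : M.tOp (0 : Mat2 F) w = 0 := by rw [← tL_apply, map_zero]; rfl
  rw [this]; module

lemma tFF : M.tOp (mF F) (M.tOp (mF F) w) = (2 : F) • M.right (M.tOp (mF F) w) (mF F) := by
  rw [H.key0 h2 hw tr_F tr_F, sub_self]
  have : M.tOp (0 : Mat2 F) w = 0 := by rw [← tL_apply, map_zero]; rfl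
  rw [this]; module

lemma tHH : M.tOp (mH F) (M.tOp (mH F) w) = (2 : F) • M.right (M.tOp (mH F) w) (mH F) := by
  rw [H.key0 h2 hw tr_H tr_H, sub_self]
  have : M.tOp (0 : Mat2 F) w = 0 := by rw [← tL_apply, map_zero]; rfl
  rw [this]; module

lemma tEF : M.tOp (mE F) (M.tOp (mF F) w) = M.right (M.tOp (mF F) w) (mE F) +
    M.right (M.tOp (mE F) w) (mF F) + (2 : F)⁻¹ • M.tOp (mH F) w := by
  rw [H.key0 h2 hw tr_E tr_F, cEF]

lemma tFE : M.tOp (mF F) (M.tOp (mE F) w) = M.right (M.tOp (mE F) w) (mF F) +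
    M.right (M.tOp (mF F) w) (mE F) - (2 : F)⁻¹ • M.tOp (mH F) w := by
  rw [H.key0 h2 hw tr_F tr_E, cFE, t_neg']; module

lemma tHE : M.tOp (mH F) (M.tOp (mE F) w) = M.right (M.tOp (mE F) w) (mH F) +
    M.right (M.tOp (mH F) w) (mE F) + M.tOp (mE F) w := by
  rw [H.key0 h2 hw tr_H tr_E, cHE, t_smul', smul_smul, inv_mul_cancel₀ h2, one_smul]

lemma tEH : M.tOp (mE F) (M.tOp (mH F) w) = M.right (M.tOp (mH F) w) (mE F) +
    M.right (M.tOp (mE F) w) (mH F) - M.tOp (mE F) w := by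
  rw [H.key0 h2 hw tr_E tr_H, cEH, t_neg', t_smul', smul_neg, smul_smul, inv_mul_cancel₀ h2,
    one_smul]; abel

lemma tHF : M.tOp (mH F) (M.tOp (mF F) w) = M.right (M.tOp (mF F) w) (mH F) +
    M.right (M.tOp (mH F) w) (mF F) - M.tOp (mF F) w := by
  rw [H.key0 h2 hw tr_H tr_F, cHF, t_neg', t_smul', smul_neg, smul_smul, inv_mul_cancel₀ h2,
    one_smul]; abel

lemma tFH : M.tOp (mF F) (M.tOp (mH F) w) = M.right (M.tOp (mH F) w) (mF F) +
    M.right (M.tOp (mF F) w) (mH F) + M.tOp (mF F) w := by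
  rw [H.key0 h2 hw tr_F tr_H, cFH, t_smul', smul_smul, inv_mul_cancel₀ h2, one_smul]

lemma comEF : M.tOp (mE F) (M.tOp (mF F) w) =
    M.tOp (mF F) (M.tOp (mE F) w) + M.tOp (mH F) w := by
  rw [H.tEF h2 hw, H.tFE h2 hw]
  have h3 : (2 : F)⁻¹ + (2 : F)⁻¹ = 1 := by rw [← two_mul, mul_inv_cancel₀ h2]
  linear_combination (norm := module) h3 • (M.tOp (mH F) w)

lemma comHE : M.tOp (mH F) (M.tOp (mE F) w) =
    M.tOp (mE F) (M.tOp (mH F) w) + (2 : F) • M.tOp (mE F) w := by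
  rw [H.tHE h2 hw, H.tEH h2 hw]; module

lemma comHF : M.tOp (mH F) (M.tOp (mF F) w) =
    M.tOp (mF F) (M.tOp (mH F) w) - (2 : F) • M.tOp (mF F) w := by
  rw [H.tHF h2 hw, H.tFH h2 hw]; module

/-- the Casimir operator in terms of `T` only -/
lemma om_eq : M.om w = M.tOp (mE F) (M.tOp (mF F) w) + M.tOp (mF F) (M.tOp (mE F) w) +
    (2 : F)⁻¹ • M.tOp (mH F) (M.tOp (mH F) w) := by
  rw [H.tEF h2 hw, H.tFE h2 hw, H.tHH h2 hw, smul_smul, inv_mul_cancel₀ h2]
  unfold Bimodule.om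
  module

lemma om_two : M.tOp 1 (M.om w) = (2 : F) • M.om w := by
  rw [H.om_eq h2 hw]
  simp only [t_add, t_smul, H.two_t (H.two_t hw _) _]
  module

lemma om_tE : M.om (M.tOp (mE F) w) = (4 : F) • M.tOp (mE F) w := by
  have e1 : M.right (M.tOp (mE F) w) 1 = M.tOp (mE F) w := H.two_right h2 (H.two_t hw _)
  unfold Bimodule.om
  rw [H.tFE h2 hw, H.tEE h2 hw, H.tHE h2 hw]
  simp only [map_add, map_sub, map_smul, LinearMap.add_apply, LinearMap.sub_apply,
    LinearMap.smul_apply, H.rr, EE, EF, FE, HH, HE, map_zero, e1]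
  have e2 : M.right (M.tOp (mE F) w) (mH F) =
      (2 : F) • M.right (M.tOp (mE F) w) (mA F) - M.tOp (mE F) w := by
    rw [H_eq, map_sub, map_smul, e1]
  rw [e2]
  have h3 : (2 : F) * (2 : F)⁻¹ = 1 := mul_inv_cancel₀ h2
  linear_combination (norm := module) -(h3 • (M.right (M.tOp (mH F) w) (mE F)))

lemma om_tF : M.om (M.tOp (mF F) w) = (4 : F) • M.tOp (mF F) w := by
  have e1 : M.right (M.tOp (mF F) w) 1 = M.tOp (mF F) w := H.two_right h2 (H.two_t hw _)
  unfold Bimodule.om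
  rw [H.tEF h2 hw, H.tFF h2 hw, H.tHF h2 hw]
  simp only [map_add, map_sub, map_smul, LinearMap.add_apply, LinearMap.sub_apply,
    LinearMap.smul_apply, H.rr, FF, EF, FE, HH, HF, map_zero, map_neg, e1]
  have e2 : M.right (M.tOp (mF F) w) (mH F) =
      (2 : F) • M.right (M.tOp (mF F) w) (mA F) - M.tOp (mF F) w := by
    rw [H_eq, map_sub, map_smul, e1]
  rw [e2]
  have h3 : (2 : F) * (2 : F)⁻¹ = 1 := mul_inv_cancel₀ h2
  linear_combination (norm := module) h3 • (M.right (M.tOp (mH F) w) (mF F))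

lemma om_tH : M.om (M.tOp (mH F) w) = (4 : F) • M.tOp (mH F) w := by
  have e1 : M.right (M.tOp (mH F) w) 1 = M.tOp (mH F) w := H.two_right h2 (H.two_t hw _)
  unfold Bimodule.om
  rw [H.tFH h2 hw, H.tEH h2 hw, H.tHH h2 hw]
  simp only [map_add, map_sub, map_smul, LinearMap.add_apply, LinearMap.sub_apply,
    LinearMap.smul_apply, H.rr, EF, FE, HH, FH, EH, map_neg, e1]
  module

lemma t_omE : M.tOp (mE F) (M.om w) = (4 : F) • M.tOp (mE F) w := by
  rw [← H.om_tE h2 hw, H.om_eq h2 hw, H.om_eq h2 (H.two_t hw _)]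
  have hE := H.two_t hw (mE F)
  have hF := H.two_t hw (mF F)
  have hH := H.two_t hw (mH F)
  simp only [t_add, t_smul]
  rw [H.comEF h2 hw, H.comHE h2 hw]
  simp only [t_add, t_smul]
  rw [H.comEF h2 hE, H.comHE h2 hH, H.comHE h2 hw]
  have h3 : (2 : F)⁻¹ + (2 : F)⁻¹ = 1 := by rw [← two_mul, mul_inv_cancel₀ h2]
  linear_combination (norm := module) -(2 : F) • (h3 • (M.tOp (mE F) (M.tOp (mH F) w)) + h3 • (M.tOp (mE F) w))

lemma t_omF : M.tOp (mF F) (M.om w) = (4 : F) • M.tOp (mF F) w := by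
  rw [← H.om_tF h2 hw, H.om_eq h2 hw, H.om_eq h2 (H.two_t hw _)]
  have hE := H.two_t hw (mE F)
  have hF := H.two_t hw (mF F)
  have hH := H.two_t hw (mH F)
  have h3 : (2 : F)⁻¹ + (2 : F)⁻¹ = 1 := by rw [← two_mul, mul_inv_cancel₀ h2]
  have c1 : M.tOp (mF F) (M.tOp (mE F) w) = M.tOp (mE F) (M.tOp (mF F) w) - M.tOp (mH F) w := by
    rw [H.comEF h2 hw]; abel
  have c2 : M.tOp (mF F) (M.tOp (mH F) w) = M.tOp (mH F) (M.tOp (mF F) w) +
      (2 : F) • M.tOp (mF F) w := by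
    rw [H.comHF h2 hw]; abel
  have c3 : M.tOp (mF F) (M.tOp (mH F) (M.tOp (mH F) w)) =
      M.tOp (mH F) (M.tOp (mH F) (M.tOp (mF F) w)) + (2 : F) • M.tOp (mH F) (M.tOp (mF F) w) +
      (2 : F) • M.tOp (mF F) (M.tOp (mH F) w) := by
    have := H.comHF h2 hH
    have e : M.tOp (mF F) (M.tOp (mH F) (M.tOp (mH F) w)) =
      M.tOp (mH F) (M.tOp (mF F) (M.tOp (mH F) w)) + (2 : F) • M.tOp (mF F) (M.tOp (mH F) w) := by
      rw [this]; abel
    rw [e, c2, t_add, t_smul]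
  have c4 : M.tOp (mE F) (M.tOp (mF F) (M.tOp (mF F) w)) =
      M.tOp (mF F) (M.tOp (mE F) (M.tOp (mF F) w)) + M.tOp (mH F) (M.tOp (mF F) w) :=
    H.comEF h2 hF
  simp only [t_add, t_smul]
  rw [c3, c4, c1, t_sub, c2]
  linear_combination (norm := module) (2 : F) • (h3 • (M.tOp (mH F) (M.tOp (mF F) w)) + h3 • (M.tOp (mF F) w))

lemma t_omH : M.tOp (mH F) (M.om w) = (4 : F) • M.tOp (mH F) w := by
  rw [← H.om_tH h2 hw, H.om_eq h2 hw, H.om_eq h2 (H.two_t hw _)]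
  have hE := H.two_t hw (mE F)
  have hF := H.two_t hw (mF F)
  have hH := H.two_t hw (mH F)
  simp only [t_add, t_smul]
  rw [H.comHE h2 hF, H.comHF h2 hE, H.comHE h2 hw, H.comHF h2 hw]
  simp only [t_add, t_smul, t_sub]
  module

end rel

end HomT

end Pool.Agent.H581.RA
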