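import Pool.Agent.H581.RA.Str2

/-! The projection to the invariants. -/

namespace Pool.Agent.H581.RA

universe u v w

variable {F : Type u} [Field F]

/-- the projection as a linear map -/
def eL (M : Bimodule.{u, v} F) : M.carrier →ₗ[F] M.carrier where
  toFun := M.eOp
  map_add' := by
    intro m n
    simp only [Bimodule.eOp, Bimodule.om, Bimodule.tOp, map_add, LinearMap.add_apply]
    module
  map_smul' := by
    intro c m
    simp only [Bimodule.eOp, Bimodule.om, Bimodule.tOp, map_add, map_smul, LinearMap.add_apply,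
      LinearMap.smul_apply, RingHom.id_apply]
    module

lemma eL_apply (M : Bimodule.{u, v} F) (m : M.carrier) : eL M m = M.eOp m := rfl

/-- coordinates of a traceless matrix -/
lemma traceless {a : Mat2 F} (ha : a.trace = 0) :
    a = a 0 1 • mE F + a 1 0 • mF F + a 0 0 • mH F := by
  have ha' : a 1 1 = - a 0 0 := by
    simp [Matrix.trace, Fin.sum_univ_two] at ha
    linear_combination ha
  ext i j
  fin_cases i <;> fin_cases j <;> simp [mE, mF, mH, ha']

lemma comm_coord {a b : Mat2 F} (ha : a.trace = 0) (hb : b.trace = 0) :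
    a * b - b * a = (2 * (a 0 0 * b 0 1 - a 0 1 * b 0 0)) • mE F +
      (2 * (a 1 0 * b 0 0 - a 0 0 * b 1 0)) • mF F + (a 0 1 * b 1 0 - a 1 0 * b 0 1) • mH F := by
  have ha' : a 1 1 = - a 0 0 := by
    simp [Matrix.trace, Fin.sum_univ_two] at ha
    linear_combination ha
  have hb' : b 1 1 = - b 0 0 := by
    simp [Matrix.trace, Fin.sum_univ_two] at hb
    linear_combination hb
  ext i j
  fin_cases i <;> fin_cases j <;>
    simp [Matrix.mul_apply, Fin.sum_univ_two, mE, mF, mH, ha', hb'] <;> ring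

/-- alternating bilinear maps on the traceless matrices -/
lemma jac {V : Type v} [AddCommGroup V] [Module F V] (G : Mat2 F →ₗ[F] Mat2 F →ₗ[F] V)
    (hEE : G (mE F) (mE F) = 0) (hFF : G (mF F) (mF F) = 0) (hHH : G (mH F) (mH F) = 0)
    (hEF : G (mF F) (mE F) = - G (mE F) (mF F)) (hHE : G (mE F) (mH F) = - G (mH F) (mE F))
    (hHF : G (mF F) (mH F) = - G (mH F) (mF F)) {a b c : Mat2 F} (ha : a.trace = 0)
    (hb : b.trace = 0) (hc : c.trace = 0) :
    G (a * c - c * a) b + G a (b * c - c * b) = G (a * b - b * a) c := by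
  rw [comm_coord ha hc, comm_coord hb hc, comm_coord ha hb]
  have ea : G a = G (a 0 1 • mE F + a 1 0 • mF F + a 0 0 • mH F) := by rw [← traceless ha]
  have eb : ∀ x, G x b = G x (b 0 1 • mE F + b 1 0 • mF F + b 0 0 • mH F) := by
    intro x; rw [← traceless hb]
  have ec : ∀ x, G x c = G x (c 0 1 • mE F + c 1 0 • mF F + c 0 0 • mH F) := by
    intro x; rw [← traceless hc]
  rw [ea, eb, ec]
  simp only [map_add, map_smul, LinearMap.add_apply, LinearMap.smul_apply, hEE, hFF, hHH, hEF,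
    hHE, hHF]
  module

namespace HomT

open Bimodule

variable {M : Bimodule.{u, v} F} (H : HomT M)

include H

lemma eOp_right_one (m : M.carrier) : M.eOp (M.right m 1) = M.eOp m := by
  unfold Bimodule.eOp
  rw [H.right_one_right]

section two

variable (h2 : (2 : F) ≠ 0) {w : M.carrier} (hw : M.tOp 1 w = (2 : F) • w)
include h2 hw

lemma eOp_two : M.eOp w = w - (4 : F)⁻¹ • M.om w := by
  unfold Bimodule.eOp
  rw [H.two_right h2 hw, H.two_left_one h2 hw]

lemma eOp_two_two : M.tOp 1 (M.eOp w) = (2 : F) • M.eOp w := by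
  rw [H.eOp_two h2 hw, t_sub, t_smul, hw, H.om_two h2 hw]; module

lemma tE_eOp : M.tOp (mE F) (M.eOp w) = 0 := by
  have h4 : (4 : F) ≠ 0 := by
    have : (4 : F) = 2 * 2 := by norm_num
    rw [this]; exact mul_ne_zero h2 h2
  rw [H.eOp_two h2 hw, t_sub, t_smul, H.t_omE h2 hw, smul_smul, inv_mul_cancel₀ h4, one_smul,
    sub_self]

lemma tF_eOp : M.tOp (mF F) (M.eOp w) = 0 := by
  have h4 : (4 : F) ≠ 0 := by
    have : (4 : F) = 2 * 2 := by norm_num
    rw [this]; exact mul_ne_zero h2 h2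
  rw [H.eOp_two h2 hw, t_sub, t_smul, H.t_omF h2 hw, smul_smul, inv_mul_cancel₀ h4, one_smul,
    sub_self]

lemma tH_eOp : M.tOp (mH F) (M.eOp w) = 0 := by
  have h4 : (4 : F) ≠ 0 := by
    have : (4 : F) = 2 * 2 := by norm_num
    rw [this]; exact mul_ne_zero h2 h2
  rw [H.eOp_two h2 hw, t_sub, t_smul, H.t_omH h2 hw, smul_smul, inv_mul_cancel₀ h4, one_smul,
    sub_self]

lemma t_eOp {c : Mat2 F} (hc : c.trace = 0) : M.tOp c (M.eOp w) = 0 := by
  rw [traceless hc, t_add', t_add', t_smul', t_smul', t_smul', H.tE_eOp h2 hw, H.tF_eOp h2 hw,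
    H.tH_eOp h2 hw]
  simp

lemma om_eOp : M.om (M.eOp w) = 0 := by
  unfold Bimodule.om
  rw [H.tE_eOp h2 hw, H.tF_eOp h2 hw, H.tH_eOp h2 hw]
  simp

lemma eOp_eOp_two : M.eOp (M.eOp w) = M.eOp w := by
  rw [H.eOp_two h2 (H.eOp_two_two h2 hw), H.om_eOp h2 hw]; simp

lemma eOp_tE : M.eOp (M.tOp (mE F) w) = 0 := by
  have h4 : (4 : F) ≠ 0 := by
    have : (4 : F) = 2 * 2 := by norm_num
    rw [this]; exact mul_ne_zero h2 h2
  rw [H.eOp_two h2 (H.two_t hw _), H.om_tE h2 hw, smul_smul, inv_mul_cancel₀ h4, one_smul,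
    sub_self]

lemma eOp_tF : M.eOp (M.tOp (mF F) w) = 0 := by
  have h4 : (4 : F) ≠ 0 := by
    have : (4 : F) = 2 * 2 := by norm_num
    rw [this]; exact mul_ne_zero h2 h2
  rw [H.eOp_two h2 (H.two_t hw _), H.om_tF h2 hw, smul_smul, inv_mul_cancel₀ h4, one_smul,
    sub_self]

lemma eOp_tH : M.eOp (M.tOp (mH F) w) = 0 := by
  have h4 : (4 : F) ≠ 0 := by
    have : (4 : F) = 2 * 2 := by norm_num
    rw [this]; exact mul_ne_zero h2 h2
  rw [H.eOp_two h2 (H.two_t hw _), H.om_tH h2 hw, smul_smul, inv_mul_cancel₀ h4, one_smul,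
    sub_self]

lemma eL_t {c : Mat2 F} (hc : c.trace = 0) : eL M (M.tOp c w) = 0 := by
  rw [traceless hc, t_add', t_add', t_smul', t_smul', t_smul']
  simp only [map_add, map_smul, eL_apply, H.eOp_tE h2 hw, H.eOp_tF h2 hw, H.eOp_tH h2 hw]
  simp

end two

/-- the bilinear map `(a, b) ↦ e ((T_b v) a)` -/
def gB (M : Bimodule.{u, v} F) (v : M.carrier) : Mat2 F →ₗ[F] Mat2 F →ₗ[F] M.carrier :=
  LinearMap.mk₂ F (fun a b => eL M (M.right (M.tOp b v) a))
    (fun a b c => by simp) (fun c a b => by simp)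
    (fun a b c => by rw [t_add']; simp) (fun c a b => by rw [t_smul']; simp)

omit H in
lemma gB_apply (v : M.carrier) (a b : Mat2 F) :
    gB M v a b = eL M (M.right (M.tOp b v) a) := rfl

section F4

variable (h2 : (2 : F) ≠ 0) {w : M.carrier} (hw : M.tOp 1 w = (2 : F) • w)
include h2 hw

lemma gEE : gB M w (mE F) (mE F) = 0 := by
  have h1 := congrArg (eL M) (H.tEE h2 hw)
  rw [H.eL_t h2 (H.two_t hw _) tr_E, map_smul] at h1
  exact (smul_eq_zero.mp h1.symm).resolve_left h2

lemma gFF : gB M w (mF F) (mF F) = 0 := by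
  have h1 := congrArg (eL M) (H.tFF h2 hw)
  rw [H.eL_t h2 (H.two_t hw _) tr_F, map_smul] at h1
  exact (smul_eq_zero.mp h1.symm).resolve_left h2

lemma gHH : gB M w (mH F) (mH F) = 0 := by
  have h1 := congrArg (eL M) (H.tHH h2 hw)
  rw [H.eL_t h2 (H.two_t hw _) tr_H, map_smul] at h1
  exact (smul_eq_zero.mp h1.symm).resolve_left h2

lemma gEF : gB M w (mF F) (mE F) = - gB M w (mE F) (mF F) := by
  have h1 := congrArg (eL M) (H.tEF h2 hw)
  rw [H.eL_t h2 (H.two_t hw _) tr_E, map_add, map_add, map_smul, H.eL_t h2 hw tr_H, smul_zero,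
    add_zero] at h1
  rw [gB_apply, gB_apply]
  linear_combination (norm := module) -h1

lemma gHE : gB M w (mE F) (mH F) = - gB M w (mH F) (mE F) := by
  have h1 := congrArg (eL M) (H.tHE h2 hw)
  rw [H.eL_t h2 (H.two_t hw _) tr_H, map_add, map_add, H.eL_t h2 hw tr_E,
    add_zero] at h1
  rw [gB_apply, gB_apply]
  linear_combination (norm := module) -h1

lemma gHF : gB M w (mF F) (mH F) = - gB M w (mH F) (mF F) := by
  have h1 := congrArg (eL M) (H.tHF h2 hw)
  rw [H.eL_t h2 (H.two_t hw _) tr_H, map_sub, map_add, H.eL_t h2 hw tr_F,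
    sub_zero] at h1
  rw [gB_apply, gB_apply]
  linear_combination (norm := module) -h1

lemma half_right {c : Mat2 F} (hc : c.trace = 0) {a b : Mat2 F} (ha : a.trace = 0)
    (hb : b.trace = 0) : eL M (M.right (M.tOp c w) (a * b)) =
      (2 : F)⁻¹ • gB M w (a * b - b * a) c := by
  have h1 : a * b + b * a = (a * b).trace • (1 : Mat2 F) := by
    have ha' : a 1 1 = - a 0 0 := by
      simp [Matrix.trace, Fin.sum_univ_two] at ha
      linear_combination ha
    have hb' : b 1 1 = - b 0 0 := by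
      simp [Matrix.trace, Fin.sum_univ_two] at hb
      linear_combination hb
    ext i j
    fin_cases i <;> fin_cases j <;>
      simp [Matrix.mul_apply, Fin.sum_univ_two, Matrix.trace, ha', hb'] <;> ring
  have h5 : (2 : F) • (a * b) = (a * b).trace • (1 : Mat2 F) + (a * b - b * a) := by
    rw [← h1, two_smul]; abel
  have h6 : (2 : F) • eL M (M.right (M.tOp c w) (a * b)) = gB M w (a * b - b * a) c := by
    rw [← map_smul, ← map_smul, h5, map_add, map_smul, map_add, map_smul,
      H.two_right h2 (H.two_t hw c), H.eL_t h2 hw hc, smul_zero, zero_add]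
    rfl
  rw [← h6, smul_smul, inv_mul_cancel₀ h2, one_smul]

/-- `e ((T_b T_c w) a) = e ((T_c w) [a, b])` -/
lemma zz {a b c : Mat2 F} (ha : a.trace = 0) (hb : b.trace = 0) (hc : c.trace = 0) :
    eL M (M.right (M.tOp b (M.tOp c w)) a) = eL M (M.right (M.tOp c w) (a * b - b * a)) := by
  have tr_comm : ∀ x y : Mat2 F, (x * y - y * x).trace = 0 := by
    intro x y
    rw [Matrix.trace_sub, Matrix.trace_mul_comm, sub_self]
  rw [H.key0 h2 hw hb hc]
  simp only [map_add, map_smul, LinearMap.add_apply, LinearMap.smul_apply, H.rr]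
  rw [H.half_right h2 hw hc ha hb, H.half_right h2 hw hb ha hc, ← gB_apply, ← gB_apply]
  have hj := jac (gB M w) (H.gEE h2 hw) (H.gFF h2 hw) (H.gHH h2 hw) (H.gEF h2 hw) (H.gHE h2 hw)
    (H.gHF h2 hw) ha hb hc
  have h3 : (2 : F)⁻¹ + (2 : F)⁻¹ = 1 := by rw [← two_mul, mul_inv_cancel₀ h2]
  linear_combination (norm := module) (2 : F)⁻¹ • hj + h3 • (gB M w (a * b - b * a) c)

/-- `e ((T_b (Ω w)) a) = e ((Ω w) [a, b])` -/
lemma zom {a b : Mat2 F} (ha : a.trace = 0) (hb : b.trace = 0) :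
    eL M (M.right (M.tOp b (M.om w)) a) = eL M (M.right (M.om w) (a * b - b * a)) := by
  rw [H.om_eq h2 hw]
  simp only [t_add, t_smul, map_add, map_smul, LinearMap.add_apply, LinearMap.smul_apply]
  rw [H.zz h2 (H.two_t hw _) ha hb tr_E, H.zz h2 (H.two_t hw _) ha hb tr_F,
    H.zz h2 (H.two_t hw _) ha hb tr_H]

lemma f4 {a b : Mat2 F} (ha : a.trace = 0) (hb : b.trace = 0) :
    eL M (M.right (M.tOp b w) a) = eL M (M.right w (a * b - b * a)) -
      eL M (M.right (M.eOp w) (a * b - b * a)) := by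
  have h1 : w = M.eOp w + (4 : F)⁻¹ • M.om w := by
    rw [H.eOp_two h2 hw]; abel
  have h3 : M.tOp b w = (4 : F)⁻¹ • M.tOp b (M.om w) := by
    have : M.tOp b w = M.tOp b (M.eOp w + (4 : F)⁻¹ • M.om w) := by rw [← h1]
    rw [this, t_add, t_smul, H.t_eOp h2 hw hb, zero_add]
  have h5 : M.right w (a * b - b * a) = M.right (M.eOp w) (a * b - b * a) +
      (4 : F)⁻¹ • M.right (M.om w) (a * b - b * a) := by
    have : M.right w (a * b - b * a) =
      M.right (M.eOp w + (4 : F)⁻¹ • M.om w) (a * b - b * a) := by rw [← h1]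
    rw [this, map_add, map_smul]; rfl
  rw [h3, h5, map_add, map_smul, map_smul, LinearMap.smul_apply, map_smul, H.zom h2 hw ha hb]
  abel

/-- the formula for all matrices -/
lemma f4' (a b : Mat2 F) :
    eL M (M.right (M.tOp b w) a) = b.trace • eL M (M.right w a) +
      eL M (M.right w (a * b - b * a)) - eL M (M.right (M.eOp w) (a * b - b * a)) := by
  set a0 := a - ((2 : F)⁻¹ * a.trace) • (1 : Mat2 F) with ha0
  set b0 := b - ((2 : F)⁻¹ * b.trace) • (1 : Mat2 F) with hb0
  have tr0 : ∀ x : Mat2 F, (x - ((2 : F)⁻¹ * x.trace) • (1 : Mat2 F)).trace = 0 := by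
    intro x
    rw [Matrix.trace_sub, Matrix.trace_smul, Matrix.trace_one]
    simp only [Fintype.card_fin, Nat.cast_ofNat, smul_eq_mul]
    field_simp
    ring
  have ha : a = ((2 : F)⁻¹ * a.trace) • (1 : Mat2 F) + a0 := by rw [ha0]; abel
  have hb : b = ((2 : F)⁻¹ * b.trace) • (1 : Mat2 F) + b0 := by rw [hb0]; abel
  have hc : a * b - b * a = a0 * b0 - b0 * a0 := by
    rw [ha0, hb0]
    simp only [sub_mul, mul_sub, smul_mul_assoc, mul_smul_comm, one_mul, mul_one]
    module
  have h1 : M.tOp b w = b.trace • w + M.tOp b0 w := by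
    have : M.tOp b w = M.tOp (((2 : F)⁻¹ * b.trace) • (1 : Mat2 F) + b0) w := by rw [← hb]
    rw [this, t_add', t_smul', hw, smul_smul]
    have : (2 : F)⁻¹ * b.trace * 2 = b.trace := by field_simp
    rw [this]
  have h3 : eL M (M.right (M.tOp b0 w) a) = eL M (M.right (M.tOp b0 w) a0) := by
    have : M.right (M.tOp b0 w) a =
      M.right (M.tOp b0 w) (((2 : F)⁻¹ * a.trace) • (1 : Mat2 F) + a0) := by rw [← ha]
    rw [this, map_add, map_smul, H.two_right h2 (H.two_t hw b0), map_add, map_smul,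
      H.eL_t h2 hw (tr0 b), smul_zero, zero_add]
  rw [h1, map_add, map_smul, LinearMap.add_apply, map_add, LinearMap.smul_apply, map_smul, h3,
    H.f4 h2 hw (tr0 a) (tr0 b), hc]
  abel

/-- the formula for the left action -/
lemma f4l (a b : Mat2 F) :
    eL M (M.right (M.left b w) a) = eL M (M.right w (bar b * a)) -
      eL M (M.right (M.eOp w) (a * b - b * a)) := by
  have h1 : M.left b w = M.tOp b w - M.right w b := by unfold Bimodule.tOp; abel
  have h3 : bar b * a = b.trace • a - b * a := by simp [bar, sub_mul]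
  rw [h1, map_sub, LinearMap.sub_apply, map_sub, H.f4' h2 hw, H.rr, h3]
  simp only [map_sub, map_smul]
  abel

end F4

end HomT

end Pool.Agent.H581.RA
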