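import Pool.Agent.H581.RA.Str3
import Pool.Agent.H581.RA.Fam3

/-! The space of invariants and the embedding in `N(Y)`. -/

namespace Pool.Agent.H581.RA

universe u v w

variable {F : Type u} [Field F]

namespace HomT

open Bimodule

variable {M : Bimodule.{u, v} F} (H : HomT M)

section basic

variable (h2 : (2 : F) ≠ 0)

omit H in
lemma eOp_add (m n : M.carrier) : M.eOp (m + n) = M.eOp m + M.eOp n := (eL M).map_add m n

omit H in
lemma eOp_zero : M.eOp (0 : M.carrier) = 0 := (eL M).map_zero

include H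

/-- on the part where `T₁ = 1` -/
lemma eOp_of_one {x : M.carrier} (hx : M.tOp 1 x = x) (hx' : M.right x 1 = x) :
    M.eOp x = x := by
  unfold Bimodule.eOp
  rw [hx', H.left_zero hx hx']
  have : M.om (0 : M.carrier) = 0 := by
    unfold Bimodule.om; simp [t_zero]
  rw [this]; simp

include h2

lemma eOp_decomp (m : M.carrier) : M.eOp m =
    (M.right m 1 - M.left 1 (M.right m 1)) + M.eOp (M.left 1 (M.right m 1)) := by
  have hu : M.right (M.right m 1) 1 = M.right m 1 := H.right_one_right m 1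
  have h1 : M.right m 1 = (M.right m 1 - M.left 1 (M.right m 1)) + M.left 1 (M.right m 1) := by
    abel
  rw [← H.eOp_right_one m]
  conv_lhs => rw [h1]
  rw [eOp_add, H.eOp_of_one (H.one_sub hu) (H.right_sub h2 hu)]

lemma right_eOp (m : M.carrier) : M.right (M.eOp m) 1 = M.eOp m := by
  have hu : M.right (M.right m 1) 1 = M.right m 1 := H.right_one_right m 1
  rw [H.eOp_decomp h2 m, map_add, LinearMap.add_apply, H.right_sub h2 hu,
    H.two_right h2 (H.eOp_two_two h2 (H.two_left1 hu))]

lemma eOp_eOp (m : M.carrier) : M.eOp (M.eOp m) = M.eOp m := by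
  have hu : M.right (M.right m 1) 1 = M.right m 1 := H.right_one_right m 1
  rw [H.eOp_decomp h2 m, eOp_add, H.eOp_of_one (H.one_sub hu) (H.right_sub h2 hu),
    H.eOp_eOp_two h2 (H.two_left1 hu)]

/-- `1 (e m)` is the second part -/
lemma left_eOp (m : M.carrier) : M.left 1 (M.eOp m) = M.eOp (M.left 1 (M.right m 1)) := by
  have hu : M.right (M.right m 1) 1 = M.right m 1 := H.right_one_right m 1
  rw [H.eOp_decomp h2 m, map_add, H.left_zero (H.one_sub hu) (H.right_sub h2 hu), zero_add,
    H.two_left_one h2 (H.eOp_two_two h2 (H.two_left1 hu))]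

lemma eOp_sub_left (m : M.carrier) : M.eOp m - M.left 1 (M.eOp m) =
    M.right m 1 - M.left 1 (M.right m 1) := by
  rw [H.left_eOp h2, H.eOp_decomp h2 m]; abel

lemma eOp_x (m : M.carrier) : M.eOp (M.eOp m - M.left 1 (M.eOp m)) =
    M.eOp m - M.left 1 (M.eOp m) := by
  have hu : M.right (M.right m 1) 1 = M.right m 1 := H.right_one_right m 1
  rw [H.eOp_sub_left h2, H.eOp_of_one (H.one_sub hu) (H.right_sub h2 hu)]

lemma left_x (m : M.carrier) : M.left 1 (M.eOp m - M.left 1 (M.eOp m)) = 0 := by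
  have hu : M.right (M.right m 1) 1 = M.right m 1 := H.right_one_right m 1
  rw [H.eOp_sub_left h2, H.left_zero (H.one_sub hu) (H.right_sub h2 hu)]

end basic

/-- the space of invariants with its operators -/
def quad (h2 : (2 : F) ≠ 0) : Quad.{u, v} F where
  carrier := ↥(LinearMap.range (eL M))
  h := LinearMap.mk₂ F (fun a y => ⟨eL M (M.right y.1 a), ⟨_, rfl⟩⟩)
    (fun a b y => Subtype.ext (by simp)) (fun c a y => Subtype.ext (by simp))
    (fun a y z => Subtype.ext (by simp)) (fun c a y => Subtype.ext (by simp))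
  h_one := by
    rintro ⟨_, ⟨m, rfl⟩⟩
    apply Subtype.ext
    change M.eOp (M.right (M.eOp m) 1) = M.eOp m
    rw [H.right_eOp h2, H.eOp_eOp h2]
  e :=
    { toFun := fun y => ⟨y.1 - M.left 1 y.1, by
        obtain ⟨_, ⟨m, rfl⟩⟩ := y
        exact ⟨M.eOp m - M.left 1 (M.eOp m), H.eOp_x h2 m⟩⟩
      map_add' := fun y z => Subtype.ext (by
        change (y.1 + z.1) - M.left 1 (y.1 + z.1) = (y.1 - M.left 1 y.1) + (z.1 - M.left 1 z.1)
        rw [map_add]; abel)
      map_smul' := fun c y => Subtype.ext (by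
        change (c • y.1) - M.left 1 (c • y.1) = c • (y.1 - M.left 1 y.1)
        rw [map_smul, smul_sub]) }
  e_idem := by
    rintro ⟨_, ⟨m, rfl⟩⟩
    apply Subtype.ext
    change (M.eOp m - M.left 1 (M.eOp m)) - M.left 1 (M.eOp m - M.left 1 (M.eOp m)) =
      M.eOp m - M.left 1 (M.eOp m)
    rw [H.left_x h2, sub_zero]

variable (h2 : (2 : F) ≠ 0)

/-- the projection onto the space of invariants -/
def pr : M.carrier →ₗ[F] (H.quad h2).carrier :=
  ((eL M).rangeRestrict : M.carrier →ₗ[F] ↥(LinearMap.range (eL M)))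

/-- the inclusion -/
def inc : (H.quad h2).carrier →ₗ[F] M.carrier :=
  ((LinearMap.range (eL M)).subtype : ↥(LinearMap.range (eL M)) →ₗ[F] M.carrier)

lemma inc_inj {y z : (H.quad h2).carrier} (h : H.inc h2 y = H.inc h2 z) : y = z :=
  Subtype.ext h

lemma inc_pr (m : M.carrier) : H.inc h2 (H.pr h2 m) = M.eOp m := rfl

lemma pr_inc (y : (H.quad h2).carrier) : H.pr h2 (H.inc h2 y) = y := by
  apply H.inc_inj h2
  obtain ⟨_, ⟨m, rfl⟩⟩ := y
  rw [inc_pr]
  exact H.eOp_eOp h2 m

lemma inc_h (a : Mat2 F) (y : (H.quad h2).carrier) :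
    H.inc h2 ((H.quad h2).h a y) = M.eOp (M.right (H.inc h2 y) a) := rfl

lemma h_eq (a : Mat2 F) (y : (H.quad h2).carrier) :
    (H.quad h2).h a y = H.pr h2 (M.right (H.inc h2 y) a) := rfl

lemma inc_e (y : (H.quad h2).carrier) :
    H.inc h2 ((H.quad h2).e y) = H.inc h2 y - M.left 1 (H.inc h2 y) := rfl

/-- `m ↦ (a ↦ e (m a))` -/
def psi (m : M.carrier) : Mat2 F →ₗ[F] (H.quad h2).carrier := H.pr h2 ∘ₗ M.right m

lemma psi_apply (m : M.carrier) (a : Mat2 F) : H.psi h2 m a = H.pr h2 (M.right m a) := rfl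

lemma psi_add (m n : M.carrier) : H.psi h2 (m + n) = H.psi h2 m + H.psi h2 n := by
  unfold psi; rw [map_add, LinearMap.comp_add]

lemma psi_sub (m n : M.carrier) : H.psi h2 (m - n) = H.psi h2 m - H.psi h2 n := by
  unfold psi; rw [map_sub, LinearMap.comp_sub]

lemma psi_smul (c : F) (m : M.carrier) : H.psi h2 (c • m) = c • H.psi h2 m := by
  unfold psi; rw [map_smul, LinearMap.comp_smul]

lemma psi_zero : H.psi h2 0 = 0 := by
  unfold psi; rw [map_zero, LinearMap.comp_zero]

lemma psi_neg (m : M.carrier) : H.psi h2 (-m) = - H.psi h2 m := by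
  unfold psi; rw [map_neg, LinearMap.comp_neg]

lemma psi_right_one (m : M.carrier) : H.psi h2 (M.right m 1) = H.psi h2 m := by
  refine LinearMap.ext fun a => ?_
  rw [psi_apply, psi_apply, H.right_right_one]

lemma psi_of_zero {m : M.carrier} (hm : M.right m 1 = 0) : H.psi h2 m = 0 := by
  rw [← psi_right_one, hm, psi_zero]

lemma psi_right (m : M.carrier) (b : Mat2 F) :
    H.psi h2 (M.right m b) = rt (H.quad h2) b (H.psi h2 m) := by
  refine LinearMap.ext fun a => ?_
  rw [psi_apply, rt_apply, psi_apply, H.rr]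

lemma psi_inc (y : (H.quad h2).carrier) : H.psi h2 (H.inc h2 y) = (H.quad h2).h.flip y := rfl

lemma psi_one (m : M.carrier) : H.psi h2 m 1 = H.pr h2 m := by
  rw [psi_apply]
  apply H.inc_inj h2
  rw [inc_pr, inc_pr, H.eOp_right_one]

/-- `xp` of `psi` -/
lemma xp_psi (m : M.carrier) : xp (H.quad h2) (H.psi h2 m) =
    H.psi h2 (M.right m 1 - M.left 1 (M.right m 1)) := by
  have h1 : xp (H.quad h2) (H.psi h2 m) =
      (H.quad h2).h.flip ((H.quad h2).e (H.psi h2 m 1)) := rfl
  rw [h1, psi_one, ← psi_inc, inc_e, inc_pr, H.eOp_sub_left h2]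

lemma xp_psi_two {w : M.carrier} (hw : M.tOp 1 w = (2 : F) • w) :
    xp (H.quad h2) (H.psi h2 w) = 0 := by
  rw [xp_psi, H.two_right h2 hw, H.two_left_one h2 hw, sub_self, psi_zero]

lemma xp_psi_one {x : M.carrier} (hx : M.tOp 1 x = x) (hx' : M.right x 1 = x) :
    xp (H.quad h2) (H.psi h2 x) = H.psi h2 x := by
  rw [xp_psi, hx', H.left_zero hx hx', sub_zero]

/-- on the 2-eigenspace of `T₁` -/
lemma psi_left {w : M.carrier} (hw : M.tOp 1 w = (2 : F) • w) (b : Mat2 F) :
    H.psi h2 (M.left b w) = lt (H.quad h2) b (H.psi h2 w) := by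
  refine LinearMap.ext fun a => ?_
  apply H.inc_inj h2
  rw [psi_apply, inc_pr, lt_apply, map_sub, psi_apply, inc_pr, inc_h, psi_one, inc_pr]
  exact H.f4l h2 hw a b

/-- the embedding -/
def emb : M.carrier →ₗ[F] (bigN (H.quad h2)).carrier where
  toFun m := (H.psi h2 m, - H.psi h2 (M.left 1 (m - M.right m 1)))
  map_add' := by
    intro m n
    refine Prod.ext (H.psi_add h2 m n) ?_
    change - H.psi h2 (M.left 1 ((m + n) - M.right (m + n) 1)) =
      - H.psi h2 (M.left 1 (m - M.right m 1)) + - H.psi h2 (M.left 1 (n - M.right n 1))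
    rw [← neg_add, ← psi_add, ← map_add]
    congr 3
    rw [map_add, LinearMap.add_apply]; abel
  map_smul' := by
    intro c m
    refine Prod.ext (H.psi_smul h2 c m) ?_
    change - H.psi h2 (M.left 1 ((c • m) - M.right (c • m) 1)) =
      c • - H.psi h2 (M.left 1 (m - M.right m 1))
    rw [smul_neg, ← psi_smul, ← map_smul, smul_sub]
    congr 3
    rw [map_smul, LinearMap.smul_apply]

lemma emb_apply (m : M.carrier) : H.emb h2 m =
    (H.psi h2 m, - H.psi h2 (M.left 1 (m - M.right m 1))) := rfl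

lemma emb_of_right {m : M.carrier} (hm : M.right m 1 = m) : H.emb h2 m = (H.psi h2 m, 0) := by
  rw [emb_apply, hm, sub_self, map_zero, psi_zero, neg_zero]

lemma emb_of_zero {m : M.carrier} (hm : M.right m 1 = 0) :
    H.emb h2 m = (0, - H.psi h2 (M.left 1 m)) := by
  rw [emb_apply, hm, sub_zero, H.psi_of_zero h2 hm]

/-- for `m 1 = 0`: the second component in terms of `(T₁ - 1) m` -/
lemma emb_of_zero' {m : M.carrier} (hm : M.right m 1 = 0) :
    H.emb h2 m = (0, - H.psi h2 (M.tOp 1 m - m)) := by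
  rw [H.emb_of_zero h2 hm]
  have h1 : M.right (M.tOp 1 m - m) 1 = M.right (M.left 1 m) 1 := by
    have : M.tOp 1 m = M.left 1 m + M.right m 1 := rfl
    rw [this, hm, add_zero, map_sub, LinearMap.sub_apply, hm, sub_zero]
  rw [← H.psi_right_one h2 (M.left 1 m), ← h1, psi_right_one]

lemma emb_right (m : M.carrier) (b : Mat2 F) :
    H.emb h2 (M.right m b) = (bigN (H.quad h2)).right (H.emb h2 m) b := by
  rw [H.emb_of_right h2 (H.right_one_right m b), psi_right]
  rfl

lemma xp_zero : xp (H.quad h2) 0 = 0 := by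
  refine LinearMap.ext fun c => ?_
  simp [xp_apply]

lemma rt_zero (b : Mat2 F) : rt (H.quad h2) b 0 = 0 := by
  refine LinearMap.ext fun c => ?_
  simp [rt_apply]

lemma rt_neg (b : Mat2 F) (g : Mat2 F →ₗ[F] (H.quad h2).carrier) :
    rt (H.quad h2) b (-g) = - rt (H.quad h2) b g := by
  refine LinearMap.ext fun c => ?_
  simp [rt_apply]

lemma xp_neg (g : Mat2 F →ₗ[F] (H.quad h2).carrier) :
    xp (H.quad h2) (-g) = - xp (H.quad h2) g := by
  refine LinearMap.ext fun c => ?_
  simp [xp_apply]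

lemma lt_zero (b : Mat2 F) : lt (H.quad h2) b 0 = 0 := by
  refine LinearMap.ext fun c => ?_
  simp [lt_apply]

/-- case A1 -/
lemma emb_left_two {w : M.carrier} (hw : M.tOp 1 w = (2 : F) • w) (b : Mat2 F) :
    H.emb h2 (M.left b w) = (bigN (H.quad h2)).left b (H.emb h2 w) := by
  rw [H.emb_of_right h2 (H.two_left hw b), H.emb_of_right h2 (H.two_right h2 hw)]
  change _ = nleft (H.quad h2) b (H.psi h2 w, 0)
  simp only [nleft, sub_zero, H.xp_psi_two h2 hw, xp_zero, zero_add, rt_zero]
  rw [H.psi_left h2 hw]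

/-- case A2 -/
lemma emb_left_one {x : M.carrier} (hx : M.tOp 1 x = x) (hx' : M.right x 1 = x) (b : Mat2 F) :
    H.emb h2 (M.left b x) = (bigN (H.quad h2)).left b (H.emb h2 x) := by
  rw [H.emb_of_zero h2 (H.one_left hx b), H.emb_of_right h2 hx']
  change _ = nleft (H.quad h2) b (H.psi h2 x, 0)
  simp only [nleft, sub_zero, H.xp_psi_one h2 hx hx', xp_zero, sub_self, add_zero, lt_zero]
  refine Prod.ext rfl ?_
  change - H.psi h2 (M.left 1 (M.left b x)) = _
  rw [← psi_right, xp_psi, H.right_one_right, ← psi_sub]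
  -- `1 (b x) = 1 (T_b x) - 1 (x b)`
  have h1 : M.left b x = M.tOp b x - M.right x b := by unfold Bimodule.tOp; abel
  have h3 : H.psi h2 (M.left 1 (M.tOp b x)) = 0 :=
    H.psi_of_zero h2 (H.one_left (H.one_t hx b) 1)
  rw [h1, map_sub, psi_sub, h3, zero_sub, neg_neg]
  congr 1
  abel

/-- case B -/
lemma emb_left_zero {m : M.carrier} (hm : M.right m 1 = 0) (b : Mat2 F) :
    H.emb h2 (M.left b m) = (bigN (H.quad h2)).left b (H.emb h2 m) := by
  set n := M.tOp 1 m - m with hn
  have hn2 : M.tOp 1 n = (2 : F) • n := H.two_pi m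
  have hm1 : M.tOp 1 (m - n) = m - n := by
    have : m - n = (2 : F) • m - M.tOp 1 m := by rw [hn]; module
    rw [this]; exact H.one_pi m
  have hr1 : M.right (m - n) 1 = - n := by
    rw [map_sub, LinearMap.sub_apply, hm, H.two_right h2 hn2, zero_sub]
  have hsplit : M.left b m = M.left b (m - n) + M.left b n := by
    rw [← map_add]; congr 1; abel
  have e1 : M.tOp 1 (M.left b (m - n)) - M.left b (m - n) = M.left 1 (M.right n b) := by
    have h1 : M.left b (m - n) = M.tOp b (m - n) - M.right (m - n) b := by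
      unfold Bimodule.tOp; abel
    have h3 : M.right (m - n) b = - M.right n b := by
      rw [← H.right_right_one (m - n) b, hr1, map_neg, LinearMap.neg_apply]
    rw [h1, h3, t_sub, H.one_t hm1 b, t_neg, ← H.pi_eq (H.right_one_right n b)]
    abel
  rw [hsplit, map_add, H.emb_left_two h2 hn2 b, H.emb_of_zero' h2 (H.one_left hm1 b), e1,
    H.emb_of_right h2 (H.two_right h2 hn2), H.emb_of_zero' h2 hm]
  change (0, - H.psi h2 (M.left 1 (M.right n b))) + nleft (H.quad h2) b (H.psi h2 n, 0) =
    nleft (H.quad h2) b (0, - H.psi h2 n)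
  simp only [nleft, sub_zero, H.xp_psi_two h2 hn2, xp_zero, zero_add, rt_zero, xp_neg,
    zero_sub, sub_self, neg_zero, neg_neg, rt_neg]
  refine Prod.ext ?_ ?_
  · change 0 + lt (H.quad h2) b (H.psi h2 n) = lt (H.quad h2) b (H.psi h2 n)
    rw [zero_add]
  · change - H.psi h2 (M.left 1 (M.right n b)) + 0 = _
    rw [← psi_right, xp_psi, H.right_one_right,
      H.psi_sub h2 (M.right n b) (M.left 1 (M.right n b)), add_zero]
    abel_nf

lemma emb_left (m : M.carrier) (b : Mat2 F) :
    H.emb h2 (M.left b m) = (bigN (H.quad h2)).left b (H.emb h2 m) := by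
  have hu : M.right (M.right m 1) 1 = M.right m 1 := H.right_one_right m 1
  have h1 : m = ((m - M.right m 1) + (M.right m 1 - M.left 1 (M.right m 1))) +
      M.left 1 (M.right m 1) := by abel
  have h0 : M.right (m - M.right m 1) 1 = 0 := by
    rw [map_sub, LinearMap.sub_apply, hu, sub_self]
  rw [h1, map_add, map_add, map_add, map_add, map_add, map_add, map_add, map_add,
    H.emb_left_zero h2 h0, H.emb_left_one h2 (H.one_sub hu) (H.right_sub h2 hu),
    H.emb_left_two h2 (H.two_left1 hu)]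

theorem emb_isHom : IsHom M (bigN (H.quad h2)) (H.emb h2) :=
  ⟨fun a m => H.emb_left h2 m a, fun m a => H.emb_right h2 m a⟩

lemma emb_inc (y : (H.quad h2).carrier) : H.emb h2 (H.inc h2 y) = hat (H.quad h2) y := by
  have h1 : M.right (H.inc h2 y) 1 = H.inc h2 y := by
    obtain ⟨_, ⟨m, rfl⟩⟩ := y
    exact H.right_eOp h2 m
  rw [H.emb_of_right h2 h1, psi_inc]
  rfl

/-- irreducibility of the space of invariants -/
theorem quad_irr (hM : M.IsIrreducible) (h0 : Nontrivial (H.quad h2).carrier) :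
    (H.quad h2).IsIrreducible := by
  refine ⟨h0, fun N hN => ?_⟩
  let K : Submodule F M.carrier :=
    { carrier := {m | ∀ a, H.psi h2 m a ∈ N ∧ H.psi h2 (M.left 1 (m - M.right m 1)) a ∈ N}
      add_mem' := by
        intro m n hm hn a
        refine ⟨?_, ?_⟩
        · rw [psi_add]; exact N.add_mem (hm a).1 (hn a).1
        · have : M.left 1 ((m + n) - M.right (m + n) 1) =
              M.left 1 (m - M.right m 1) + M.left 1 (n - M.right n 1) := by
            rw [← map_add]; congr 1; rw [map_add, LinearMap.add_apply]; abel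
          rw [this, psi_add]; exact N.add_mem (hm a).2 (hn a).2
      zero_mem' := by
        intro a
        simp [psi_zero]
      smul_mem' := by
        intro c m hm a
        refine ⟨?_, ?_⟩
        · rw [psi_smul]; exact N.smul_mem _ (hm a).1
        · have : M.left 1 ((c • m) - M.right (c • m) 1) = c • M.left 1 (m - M.right m 1) := by
            rw [← map_smul, smul_sub]; congr 2
            rw [map_smul, LinearMap.smul_apply]
          rw [this, psi_smul]; exact N.smul_mem _ (hm a).2 }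
  have memK : ∀ m, m ∈ K ↔ ∀ a, (H.emb h2 m).1 a ∈ N ∧ (H.emb h2 m).2 a ∈ N := by
    intro m
    constructor
    · intro hm a
      refine ⟨(hm a).1, ?_⟩
      change (- H.psi h2 (M.left 1 (m - M.right m 1))) a ∈ N
      rw [LinearMap.neg_apply]
      exact N.neg_mem (hm a).2
    · intro hm a
      refine ⟨(hm a).1, ?_⟩
      have := (hm a).2
      change (- H.psi h2 (M.left 1 (m - M.right m 1))) a ∈ N at this
      rw [LinearMap.neg_apply] at this
      exact (Submodule.neg_mem_iff N).mp this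
  have valN : ∀ (g : Mat2 F →ₗ[F] (H.quad h2).carrier), (∀ a, g a ∈ N) →
      ∀ a, xp (H.quad h2) g a ∈ N := by
    intro g hg a
    rw [xp_apply]
    exact (hN _ (hN _ (hg 1)).2).1 a
  have valL : ∀ (b : Mat2 F) (g : Mat2 F →ₗ[F] (H.quad h2).carrier), (∀ a, g a ∈ N) →
      ∀ a, lt (H.quad h2) b g a ∈ N := by
    intro b g hg a
    rw [lt_apply]
    exact N.sub_mem (hg _) ((hN _ (hg 1)).1 _)
  have valR : ∀ (b : Mat2 F) (g : Mat2 F →ₗ[F] (H.quad h2).carrier), (∀ a, g a ∈ N) →
      ∀ a, rt (H.quad h2) b g a ∈ N := by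
    intro b g hg a
    rw [rt_apply]
    exact hg _
  have hK : M.IsSubBimodule K := by
    intro b m hm
    rw [memK] at hm
    constructor
    · rw [memK, H.emb_left h2]
      intro a
      have hd : ∀ a, ((H.emb h2 m).1 - (H.emb h2 m).2) a ∈ N := fun a => by
        rw [LinearMap.sub_apply]; exact N.sub_mem (hm a).1 (hm a).2
      have hs : ∀ a, (xp (H.quad h2) (H.emb h2 m).1 +
          ((H.emb h2 m).2 - xp (H.quad h2) (H.emb h2 m).2)) a ∈ N := fun a => by
        rw [LinearMap.add_apply, LinearMap.sub_apply]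
        exact N.add_mem (valN _ (fun a => (hm a).1) a)
          (N.sub_mem (hm a).2 (valN _ (fun a => (hm a).2) a))
      constructor
      · change lt (H.quad h2) b (((H.emb h2 m).1 - (H.emb h2 m).2) -
          xp (H.quad h2) ((H.emb h2 m).1 - (H.emb h2 m).2)) a ∈ N
        refine valL b _ (fun a => ?_) a
        rw [LinearMap.sub_apply]
        exact N.sub_mem (hd a) (valN _ hd a)
      · change (rt (H.quad h2) b (xp (H.quad h2) (H.emb h2 m).1 +
          ((H.emb h2 m).2 - xp (H.quad h2) (H.emb h2 m).2)) -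
          xp (H.quad h2) (rt (H.quad h2) b (xp (H.quad h2) (H.emb h2 m).1 +
          ((H.emb h2 m).2 - xp (H.quad h2) (H.emb h2 m).2)))) a ∈ N
        rw [LinearMap.sub_apply]
        exact N.sub_mem (valR b _ hs a) (valN _ (valR b _ hs) a)
    · rw [memK, H.emb_right h2]
      intro a
      constructor
      · change rt (H.quad h2) b (H.emb h2 m).1 a ∈ N
        exact valR b _ (fun a => (hm a).1) a
      · change (0 : Mat2 F →ₗ[F] (H.quad h2).carrier) a ∈ N
        rw [LinearMap.zero_apply]; exact N.zero_mem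
  rcases hM.2 K hK with h | h
  · left
    rw [Submodule.eq_bot_iff]
    intro y hy
    have h1 : H.inc h2 y ∈ K := by
      rw [memK, H.emb_inc h2]
      intro a
      exact ⟨(hN y hy).1 a, N.zero_mem⟩
    rw [h, Submodule.mem_bot] at h1
    apply H.inc_inj h2
    rw [h1, map_zero]
  · right
    rw [eq_top_iff]
    intro y _
    have h1 : H.inc h2 y ∈ K := by rw [h]; trivial
    have h3 := (h1 1).1
    rw [psi_one, pr_inc] at h3
    exact h3

/-- the main result of this file -/
theorem iso_simple (hM : M.IsIrreducible) (h0 : Nontrivial (H.quad h2).carrier) :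
    M.Iso (simpleBim (H.quad h2)) := by
  have h4 : (4 : F) ≠ 0 := by
    have : (4 : F) = 2 * 2 := by norm_num
    rw [this]; exact mul_ne_zero h2 h2
  obtain ⟨y, hy⟩ := @exists_ne _ h0 (0 : (H.quad h2).carrier)
  have hom := H.emb_isHom h2
  have hle : ∀ m : M.carrier, H.emb h2 m ∈
      (bigN (H.quad h2)).gen (Set.range (hat (H.quad h2))) := by
    rcases hM.2 (((bigN (H.quad h2)).gen (Set.range (hat (H.quad h2)))).comap (H.emb h2)) (by
      intro a m hm
      rw [Submodule.mem_comap] at hm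
      refine ⟨?_, ?_⟩
      · rw [Submodule.mem_comap, hom.1]
        exact ((bigN (H.quad h2)).gen_isSub _ a _ hm).1
      · rw [Submodule.mem_comap, hom.2]
        exact ((bigN (H.quad h2)).gen_isSub _ a _ hm).2) with h | h
    · exfalso
      have h1 : H.inc h2 y ∈
          ((bigN (H.quad h2)).gen (Set.range (hat (H.quad h2)))).comap (H.emb h2) := by
        rw [Submodule.mem_comap, H.emb_inc h2]
        exact hat_mem_gen _ y
      rw [h, Submodule.mem_bot] at h1
      apply hy
      apply H.inc_inj h2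
      rw [h1, map_zero]
    · intro m
      have : m ∈ ((bigN (H.quad h2)).gen (Set.range (hat (H.quad h2)))).comap (H.emb h2) := by
        rw [h]; trivial
      exact this
  let φ : M.carrier →ₗ[F] (simpleBim (H.quad h2)).carrier :=
    (LinearMap.codRestrict ((bigN (H.quad h2)).gen (Set.range (hat (H.quad h2)))) (H.emb h2) hle :
      M.carrier →ₗ[F] ↥((bigN (H.quad h2)).gen (Set.range (hat (H.quad h2)))))
  refine schur hM (simple_irr _ h4 (H.quad_irr h2 hM h0)) φ ⟨?_, ?_⟩ ?_
  · intro a m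
    exact Subtype.ext (hom.1 a m)
  · intro m a
    exact Subtype.ext (hom.2 m a)
  · intro hφ
    have h1 : H.emb h2 (H.inc h2 y) = 0 := by
      have := LinearMap.congr_fun hφ (H.inc h2 y)
      exact congrArg Subtype.val this
    rw [H.emb_inc h2, ← hatL_apply] at h1
    apply hy
    apply hat_inj (H.quad h2)
    rw [← hatL_apply, ← hatL_apply, h1, map_zero]

end HomT

end Pool.Agent.H581.RA
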